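import Mathlib
import Pool.Agent.Helper617.RM.Defs

/-!
Countable partial and linear orders inside a structure for second-order arithmetic, and the
principles `P` and `SADS`.
-/

namespace Pool.Agent.Helper617.RM

universe u

variable (N : L2Structure.{u})

/-- The pairing function `(x + y)² + x`. -/
def L2Structure.pair (x y : N.M) : N.M := N.add (N.mul (N.add x y) (N.add x y)) x

/-- The binary relation `R` exists in the structure: the set of pairs coding it is one of the
sets of the structure. -/
def RelIn (R : N.M → N.M → Prop) : Prop := {p | ∃ x y, R x y ∧ p = N.pair x y} ∈ N.Sets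

/-- The function `f` exists in the structure. -/
def FunIn (f : N.M → N.M) : Prop := RelIn N (fun x y => y = f x)

/-- `X` is finite in the sense of second-order arithmetic, that is, bounded. -/
def IsFin (X : Set N.M) : Prop := ∃ b, ∀ y ∈ X, N.lt y b

/-- `p` holds for all but finitely many elements of `X`. -/
def AlmostAll (X : Set N.M) (p : N.M → Prop) : Prop := IsFin N {y | y ∈ X ∧ ¬ p y}

/-- `R` is a (non-strict) partial order on `D`. -/
structure IsPartialOrd (D : Set N.M) (R : N.M → N.M → Prop) : Prop where
  dom : ∀ x y, R x y → x ∈ D ∧ y ∈ D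
  refl : ∀ x ∈ D, R x x
  antisymm : ∀ x y, R x y → R y x → x = y
  trans : ∀ x y z, R x y → R y z → R x z

/-- `R` is a (non-strict) linear order on `D`. -/
structure IsLinearOrd (D : Set N.M) (R : N.M → N.M → Prop) : Prop extends
    IsPartialOrd N D R where
  total : ∀ x ∈ D, ∀ y ∈ D, R x y ∨ R y x

/-- `x` is below all but finitely many elements of `X`. -/
def IsSmall (X : Set N.M) (R : N.M → N.M → Prop) (x : N.M) : Prop :=
  AlmostAll N X (fun y => R x y)

/-- `x` is above all but finitely many elements of `X`. -/
def IsLarge (X : Set N.M) (R : N.M → N.M → Prop) (x : N.M) : Prop :=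
  AlmostAll N X (fun y => R y x)

/-- `x` is incomparable with all but finitely many elements of `X`. -/
def IsIsolated (X : Set N.M) (R : N.M → N.M → Prop) (x : N.M) : Prop :=
  AlmostAll N X (fun y => ¬ R x y ∧ ¬ R y x)

/-- The suborder of `R` on `X` is stable. -/
def IsStable (X : Set N.M) (R : N.M → N.M → Prop) : Prop :=
  (∀ x ∈ X, IsSmall N X R x ∨ IsIsolated N X R x) ∨
    (∀ x ∈ X, IsLarge N X R x ∨ IsIsolated N X R x)

/-- The suborder of `R` on `X` is weakly stable. -/
def IsWeaklyStable (X : Set N.M) (R : N.M → N.M → Prop) : Prop :=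
  ∀ x ∈ X, IsSmall N X R x ∨ IsLarge N X R x ∨ IsIsolated N X R x

/-- The principle `P`: each infinite weakly stable partial order has an infinite stable
suborder. -/
def PrincipleP : Prop :=
  ∀ D ∈ N.Sets, ∀ R : N.M → N.M → Prop, RelIn N R → IsPartialOrd N D R → ¬ IsFin N D →
    IsWeaklyStable N D R → ∃ S ∈ N.Sets, S ⊆ D ∧ ¬ IsFin N S ∧ IsStable N S R

/-- The principle `SADS`: each infinite linear order in which every element has only finitely
many predecessors or only finitely many successors has an infinite ascending sequence or an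
infinite descending sequence. -/
def PrincipleSADS : Prop :=
  ∀ D ∈ N.Sets, ∀ R : N.M → N.M → Prop, RelIn N R → IsLinearOrd N D R → ¬ IsFin N D →
    (∀ x ∈ D, IsFin N {y | R y x ∧ y ≠ x} ∨ IsFin N {y | R x y ∧ y ≠ x}) →
    ∃ f : N.M → N.M, FunIn N f ∧ (∀ i, f i ∈ D) ∧
      ((∀ i j, N.lt i j → R (f i) (f j) ∧ f i ≠ f j) ∨
        (∀ i j, N.lt i j → R (f j) (f i) ∧ f i ≠ f j))

end Pool.Agent.Helper617.RM
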