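import Mathlib
import Pool.Agent.Helper617.RM.Orders

/-!
Finite sets, graphs and the rainbow Ramsey property of the Rado graph inside a structure for
second-order arithmetic.
-/

namespace Pool.Agent.Helper617.RM

universe u

variable (N : L2Structure.{u})

/-- `p` codes the finite set `F` (Simpson, Theorem II.2.5): `p = (k, (m, n))` and, for all `i`,
`i ∈ F` iff `i < k` and `m · (i + 1) + 1` divides `n`. -/
def Codes (p : N.M) (F : Set N.M) : Prop :=
  ∃ k m n, p = N.pair k (N.pair m n) ∧
    ∀ i, i ∈ F ↔ N.lt i k ∧ ∃ q, n = N.mul (N.add (N.mul m (N.add i N.one)) N.one) q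

/-- `p` is the code of the finite set `F`: the least number that codes it. -/
def IsCode (p : N.M) (F : Set N.M) : Prop := Codes N p F ∧ ∀ p', N.lt p' p → ¬ Codes N p' F

/-- `E` is (the edge relation of) a simple graph with vertex set `D`. -/
structure IsGraphOn (D : Set N.M) (E : N.M → N.M → Prop) : Prop where
  dom : ∀ x y, E x y → x ∈ D ∧ y ∈ D
  symm : ∀ x y, E x y → E y x
  irrefl : ∀ x, ¬ E x x

/-- The subgraph of `E` induced on `X` has the extension property (is a Rado graph). -/
def IsRadoOn (X : Set N.M) (E : N.M → N.M → Prop) : Prop :=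
  ∀ U ∈ N.Sets, ∀ V ∈ N.Sets, U ⊆ X → V ⊆ X → IsFin N U → IsFin N V → Disjoint U V →
    ∃ x ∈ X, x ∉ U ∧ x ∉ V ∧ (∀ u ∈ U, E x u) ∧ ∀ v ∈ V, ¬ E x v

/-- `F` is a copy, in the graph `E`, of the finite graph `H` with vertex set `{i | i < g}`:
`F` is a finite set of the structure and some function `e` of the structure restricts to an
isomorphism from `H` to the subgraph of `E` induced on `F`. -/
def IsCopy (E : N.M → N.M → Prop) (g : N.M) (H : N.M → N.M → Prop) (F : Set N.M) : Prop :=
  F ∈ N.Sets ∧ IsFin N F ∧ ∃ e : N.M → N.M, FunIn N e ∧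
    (∀ i, N.lt i g → e i ∈ F) ∧ (∀ y ∈ F, ∃ i, N.lt i g ∧ e i = y) ∧
    (∀ i j, N.lt i g → N.lt j g → e i = e j → i = j) ∧
    (∀ i j, N.lt i g → N.lt j g → (H i j ↔ E (e i) (e j)))

/-- `c` is a colouring of the copies of `H` which exists in the structure: the set of all pairs
(code of `F`, colour of `F`) is one of the sets of the structure. -/
def IsColouring (E : N.M → N.M → Prop) (g : N.M) (H : N.M → N.M → Prop)
    (c : Set N.M → N.M) : Prop :=
  {r | ∃ F p, IsCopy N E g H F ∧ IsCode N p F ∧ r = N.pair p (c F)} ∈ N.Sets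

/-- Every colour is used on at most `k` copies. -/
def IsBoundedCol (E : N.M → N.M → Prop) (g : N.M) (H : N.M → N.M → Prop)
    (c : Set N.M → N.M) (k : ℕ) : Prop :=
  ∀ a, {F | IsCopy N E g H F ∧ c F = a}.encard ≤ k

/-- The statement `RRP_k` for the Rado graph `E` and one finite graph `H` with vertex set
`{i | i < g}`: for every `k`-bounded colouring of the copies of `H` there is an infinite vertex
set `X` such that the subgraph induced on `X` is again a Rado graph and the colouring is injective
on the copies of `H` contained in `X`. -/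
def RRPFor (E : N.M → N.M → Prop) (g : N.M) (H : N.M → N.M → Prop) (k : ℕ) : Prop :=
  ∀ c : Set N.M → N.M, IsColouring N E g H c → IsBoundedCol N E g H c k →
    ∃ X ∈ N.Sets, ¬ IsFin N X ∧ IsRadoOn N X E ∧
      ∀ F F', IsCopy N E g H F → IsCopy N E g H F' → F ⊆ X → F' ⊆ X → c F = c F' → F = F'

/-- The statement `RRP_k` for the Rado graph `E`. -/
def RRP (E : N.M → N.M → Prop) (k : ℕ) : Prop :=
  ∀ (g : N.M) (H : N.M → N.M → Prop), RelIn N H → IsGraphOn N {i | N.lt i g} H →
    RRPFor N E g H k

end Pool.Agent.Helper617.RM
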