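import Mathlib
import Pool.Agent.Helper617.RM.RadoDefs

/-!
Finite sequences, finitely branching trees, strong subtrees and the Halpern-Lauchli principles
inside a structure for second-order arithmetic.
-/

namespace Pool.Agent.Helper617.RM

universe u

variable (N : L2Structure.{u})

/-- `p` is the code of the finite sequence `f 0, …, f (n - 1)`: the code of the finite set of
all pairs `(i, f i)` with `i < n`. -/
def IsSeq (p n : N.M) (f : N.M → N.M) : Prop :=
  IsCode N p {r | ∃ i, N.lt i n ∧ r = N.pair i (f i)}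

/-- The finite sequence coded by `p` has length `n`. -/
def HasLen (p n : N.M) : Prop := ∃ f, IsSeq N p n f

/-- The sequence (coded by) `s` is an initial segment of the sequence (coded by) `t`. -/
def IsInit (s t : N.M) : Prop :=
  ∃ n m f, IsSeq N s n f ∧ IsSeq N t m f ∧ (N.lt n m ∨ n = m)

/-- The sequence `t` extends the sequence `s` by one entry. -/
def IsImmSucc (s t : N.M) : Prop :=
  ∃ n f, IsSeq N s n f ∧ IsSeq N t (N.add n N.one) f

/-- `T` is a tree: a nonempty set of finite sequences, closed under initial segments, finitely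
branching and without terminal nodes. -/
structure IsTree (T : Set N.M) : Prop where
  mem : T ∈ N.Sets
  nonempty : T.Nonempty
  seq : ∀ t ∈ T, ∃ n, HasLen N t n
  closed : ∀ t ∈ T, ∀ s, IsInit N s t → s ∈ T
  finBranch : ∀ s ∈ T, IsFin N {t | t ∈ T ∧ IsImmSucc N s t}
  noTerminal : ∀ s ∈ T, ∃ t ∈ T, IsImmSucc N s t

/-- The `n`-th level of `T`. -/
def Level (T : Set N.M) (n : N.M) : Set N.M := {t | t ∈ T ∧ HasLen N t n}

/-- `a` is the least element of `A`. -/
def IsFirst (A : Set N.M) (a : N.M) : Prop := a ∈ A ∧ ∀ c ∈ A, ¬ N.lt c a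

/-- `a < b` are consecutive elements of `A`. -/
def IsNext (A : Set N.M) (a b : N.M) : Prop :=
  a ∈ A ∧ b ∈ A ∧ N.lt a b ∧ ∀ c ∈ A, ¬ (N.lt a c ∧ N.lt c b)

/-- `S` is a strong subtree of `T` with level set `A`. -/
structure IsStrongSub (T A S : Set N.M) : Prop where
  mem : S ∈ N.Sets
  sub : ∀ s ∈ S, ∃ a ∈ A, s ∈ Level N T a
  nonempty : ∀ a ∈ A, (S ∩ Level N T a).Nonempty
  root : ∀ a, IsFirst N A a → ∀ s ∈ S ∩ Level N T a, ∀ s' ∈ S ∩ Level N T a, s = s'
  ext : ∀ a b, IsNext N A a b → ∀ s ∈ S ∩ Level N T a, ∀ t ∈ T, IsImmSucc N s t →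
    ∃! u, u ∈ S ∩ Level N T b ∧ IsInit N t u

/-- Every node of `S` extends a node of `S` on the preceding level of `S`. -/
def IsDownward (T A S : Set N.M) : Prop :=
  ∀ a b, IsNext N A a b → ∀ u ∈ S ∩ Level N T b, ∃ s ∈ S ∩ Level N T a, IsInit N s u

/-- The code of the tuple `(t 0, …, t (d-1), a)`. -/
def tupCode : (d : ℕ) → (Fin d → N.M) → N.M → N.M
  | 0, _, a => a
  | d + 1, t, a => N.pair (t 0) (tupCode d (fun i => t i.succ) a)

/-- `c` is a colouring, with the colours less than `k`, of the level product of the trees `T i`,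
and it exists in the structure: the set of all tuples (nodes, colour) is one of its sets. -/
def IsLevelCol (d : ℕ) (T : Fin d → Set N.M) (k : N.M) (c : (Fin d → N.M) → N.M) : Prop :=
  (∀ n t, (∀ i, t i ∈ Level N (T i) n) → N.lt (c t) k) ∧
    {r | ∃ n t, (∀ i, t i ∈ Level N (T i) n) ∧ r = tupCode N d t (c t)} ∈ N.Sets

/-- The principle `HL_d`. If `down` holds, the strong subtrees are moreover required to be
downward (this is not part of the definition used in the problem). -/
def HLGen (down : Prop) (d : ℕ) : Prop :=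
  ∀ T : Fin d → Set N.M, (∀ i, IsTree N (T i)) → ∀ k c, IsLevelCol N d T k c →
    ∃ A ∈ N.Sets, ¬ IsFin N A ∧ ∃ S : Fin d → Set N.M,
      (∀ i, IsStrongSub N (T i) A (S i) ∧ (down → IsDownward N (T i) A (S i))) ∧
      ∃ j, ∀ a ∈ A, ∀ s, (∀ i, s i ∈ S i ∩ Level N (T i) a) → c s = j

/-- The principle `HL_d` of the problem. -/
def HL (d : ℕ) : Prop := HLGen N False d

/-- Arithmetical formulas with number and set parameters from the structure, in de Bruijn form:
`all φ` is `∀ x, φ`, where `x` is the variable `0` of `φ` and the variable `i` of `all φ` is the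
variable `i + 1` of `φ`. -/
inductive AForm (N : L2Structure.{u}) : Type u
  | eq (s t : Term N) : AForm N
  | lt (s t : Term N) : AForm N
  | mem (t : Term N) (X : N.Sets) : AForm N
  | neg (φ : AForm N) : AForm N
  | and (φ ψ : AForm N) : AForm N
  | all (φ : AForm N) : AForm N

/-- Truth of an arithmetical formula in the structure under an assignment. -/
def AForm.Holds {N : L2Structure.{u}} : AForm N → (ℕ → N.M) → Prop
  | .eq s t, v => s.val v = t.val v
  | .lt s t, v => N.lt (s.val v) (t.val v)
  | .mem t X, v => t.val v ∈ (X : Set N.M)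
  | .neg φ, v => ¬ φ.Holds v
  | .and φ ψ, v => φ.Holds v ∧ ψ.Holds v
  | .all φ, v => ∀ a, φ.Holds (cons a v)

/-- Arithmetical comprehension: every set of numbers defined by an arithmetical formula with
parameters is one of the sets of the structure. -/
def ArithComp : Prop := ∀ (φ : AForm N) (v : ℕ → N.M), {n | φ.Holds (cons n v)} ∈ N.Sets

end Pool.Agent.Helper617.RM
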