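import Mathlib
import Pool.Agent.Helper617.RM.Defs

namespace Pool.Agent.Helper617.RM

universe u

variable {N : L2Structure.{u}} [IsModelRCA0 N]

open IsModelRCA0

section basic

/-- induction for formulas without the unbounded quantifier -/
theorem ind_raw (θ : Delta0 N) (P : N.M → Prop)
    (hP : ∀ n k, θ.Holds (cons k (cons n (fun _ => N.zero))) ↔ P n)
    (h0 : P N.zero) (hs : ∀ n, P n → P (N.add n N.one)) : ∀ n, P n := by
  intro n
  obtain ⟨k, hk⟩ := sigma1_induction θ (fun _ => N.zero) ⟨N.zero, (hP _ _).2 h0⟩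
    (fun n ⟨k, hk⟩ => ⟨k, (hP _ _).2 (hs n ((hP _ _).1 hk))⟩) n
  exact (hP _ _).1 hk

theorem zero_add' (n : N.M) : N.add N.zero n = n :=
  ind_raw (.eq (.add .zero (.var 1)) (.var 1)) (fun n => N.add N.zero n = n)
    (fun n k => Iff.rfl) (ax_add_zero _) (fun n ih => by
      show N.add N.zero (N.add n N.one) = N.add n N.one
      rw [ax_add_succ, ih]) n

theorem succ_add' (m n : N.M) : N.add (N.add m N.one) n = N.add (N.add m n) N.one :=
  ind_raw (.eq (.add (.add (.const m) .one) (.var 1)) (.add (.add (.const m) (.var 1)) .one))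
    (fun n => N.add (N.add m N.one) n = N.add (N.add m n) N.one)
    (fun n k => Iff.rfl) (by simp only [ax_add_zero]) (fun n ih => by
      simp only [ax_add_succ, ih]) n

theorem add_comm' (m n : N.M) : N.add m n = N.add n m :=
  ind_raw (.eq (.add (.const m) (.var 1)) (.add (.var 1) (.const m)))
    (fun n => N.add m n = N.add n m)
    (fun n k => Iff.rfl) (by simp only [ax_add_zero, zero_add']) (fun n ih => by
      simp only [ax_add_succ, succ_add', ih]) n

theorem add_assoc' (a b c : N.M) : N.add (N.add a b) c = N.add a (N.add b c) :=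
  ind_raw (.eq (.add (.add (.const a) (.const b)) (.var 1))
      (.add (.const a) (.add (.const b) (.var 1))))
    (fun c => N.add (N.add a b) c = N.add a (N.add b c))
    (fun n k => Iff.rfl) (by simp only [ax_add_zero]) (fun n ih => by
      simp only [ax_add_succ, ih]) c

theorem zero_mul' (n : N.M) : N.mul N.zero n = N.zero :=
  ind_raw (.eq (.mul .zero (.var 1)) .zero) (fun n => N.mul N.zero n = N.zero)
    (fun n k => Iff.rfl) (ax_mul_zero _) (fun n ih => by
      simp only [ax_mul_succ, ih, ax_add_zero]) n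

theorem succ_mul' (m n : N.M) : N.mul (N.add m N.one) n = N.add (N.mul m n) n :=
  ind_raw (.eq (.mul (.add (.const m) .one) (.var 1)) (.add (.mul (.const m) (.var 1)) (.var 1)))
    (fun n => N.mul (N.add m N.one) n = N.add (N.mul m n) n)
    (fun n k => Iff.rfl) (by simp only [ax_mul_zero, ax_add_zero]) (fun n ih => by
      rw [ax_mul_succ, ih, ax_mul_succ, ax_add_succ, ax_add_succ, add_assoc' (N.mul m n) n m,
        add_assoc' (N.mul m n) m n, add_comm' n m]) n

theorem mul_comm' (m n : N.M) : N.mul m n = N.mul n m :=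
  ind_raw (.eq (.mul (.const m) (.var 1)) (.mul (.var 1) (.const m)))
    (fun n => N.mul m n = N.mul n m)
    (fun n k => Iff.rfl) (by simp only [ax_mul_zero, zero_mul']) (fun n ih => by
      simp only [ax_mul_succ, succ_mul', ih]) n

theorem mul_add' (a b c : N.M) : N.mul a (N.add b c) = N.add (N.mul a b) (N.mul a c) :=
  ind_raw (.eq (.mul (.const a) (.add (.const b) (.var 1)))
      (.add (.mul (.const a) (.const b)) (.mul (.const a) (.var 1))))
    (fun c => N.mul a (N.add b c) = N.add (N.mul a b) (N.mul a c))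
    (fun n k => Iff.rfl) (by simp only [ax_mul_zero, ax_add_zero]) (fun n ih => by
      rw [ax_add_succ, ax_mul_succ, ih, ax_mul_succ, add_assoc']) c

theorem mul_assoc' (a b c : N.M) : N.mul (N.mul a b) c = N.mul a (N.mul b c) :=
  ind_raw (.eq (.mul (.mul (.const a) (.const b)) (.var 1))
      (.mul (.const a) (.mul (.const b) (.var 1))))
    (fun c => N.mul (N.mul a b) c = N.mul a (N.mul b c))
    (fun n k => Iff.rfl) (by simp only [ax_mul_zero]) (fun n ih => by
      rw [ax_mul_succ, ih, ax_mul_succ, mul_add']) c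

theorem mul_one' (a : N.M) : N.mul a N.one = a := by
  have h := ax_mul_succ a N.zero
  rwa [zero_add', ax_mul_zero, zero_add'] at h

theorem one_mul' (a : N.M) : N.mul N.one a = a := by
  rw [mul_comm', mul_one']

theorem add_right_cancel' (m n k : N.M) (h : N.add m k = N.add n k) : m = n := by
  revert h
  refine ind_raw (.neg (.and (.eq (.add (.const m) (.var 1)) (.add (.const n) (.var 1)))
      (.neg (.eq (.const m) (.const n)))))
    (fun k => N.add m k = N.add n k → m = n) (fun n k => ?_) ?_ (fun k ih h => ?_) k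
  · simp only [Delta0.Holds, Term.val, cons]; tauto
  · simp only [ax_add_zero]; exact id
  · rw [ax_add_succ, ax_add_succ] at h
    exact ih (ax_succ_inj _ _ h)

end basic

instance instZero : Zero N.M := ⟨N.zero⟩
instance instOne : One N.M := ⟨N.one⟩
instance instAdd : Add N.M := ⟨N.add⟩
instance instMul : Mul N.M := ⟨N.mul⟩

noncomputable instance instCommSemiring : CommSemiring N.M where
  add_assoc := add_assoc'
  zero_add := zero_add'
  add_zero := ax_add_zero
  add_comm := add_comm'
  left_distrib := mul_add'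
  right_distrib := fun a b c => by
    show N.mul (N.add a b) c = N.add (N.mul a c) (N.mul b c)
    rw [mul_comm', mul_add', mul_comm' c, mul_comm' c]
  zero_mul := zero_mul'
  mul_zero := ax_mul_zero
  mul_assoc := mul_assoc'
  one_mul := one_mul'
  mul_one := mul_one'
  mul_comm := mul_comm'
  nsmul := nsmulRec
  npow := npowRec


theorem lt_iff_add (m n : N.M) : N.lt m n ↔ ∃ k, m + k + 1 = n := by
  constructor
  · have h := sigma1_induction
      (.neg (.and (.lt (.const m) (.var 1))
        (.neg (.eq (.add (.add (.const m) (.var 0)) .one) (.var 1)))) : Delta0 N)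
      (fun _ => N.zero) ⟨N.zero, by
        simp only [Delta0.Holds, Term.val, cons]
        exact fun h => ax_not_lt_zero m h.1⟩ (fun n ⟨k, hk⟩ => by
          simp only [Delta0.Holds, Term.val, cons] at hk ⊢
          rw [not_and, not_not] at hk
          by_cases hmn : N.lt m n
          · refine ⟨k + 1, fun h => h.2 ?_⟩
            have := hk hmn
            show N.add (N.add m (N.add k N.one)) N.one = N.add n N.one
            rw [ax_add_succ, this]
          · refine ⟨0, fun h => h.2 ?_⟩
            rcases (ax_lt_succ m n).1 h.1 with h1 | h1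
            · exact absurd h1 hmn
            · subst h1
              show N.add (N.add m N.zero) N.one = N.add m N.one
              rw [ax_add_zero]) n
    intro hmn
    obtain ⟨k, hk⟩ := h
    simp only [Delta0.Holds, Term.val, cons] at hk
    rw [not_and, not_not] at hk
    exact ⟨k, hk hmn⟩
  · rintro ⟨k, rfl⟩
    refine ind_raw (.lt (.const m) (.add (.add (.const m) (.var 1)) .one) : Delta0 N)
      (fun k => N.lt m (m + k + 1)) (fun n k => Iff.rfl) ?_ (fun k ih => ?_) k
    · exact (ax_lt_succ _ _).2 (Or.inr (ax_add_zero m).symm)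
    · refine (ax_lt_succ _ _).2 (Or.inl ?_)
      have : m + k + 1 = m + (k + 1) := by ring
      rw [this] at ih
      exact ih

theorem eq_zero_or_succ (k : N.M) : k = 0 ∨ ∃ k', k = k' + 1 := by
  obtain ⟨j, hj⟩ := sigma1_induction
      (.neg (.and (.neg (.eq (.var 1) .zero))
        (.neg (.eq (.var 1) (.add (.var 0) .one)))) : Delta0 N)
      (fun _ => N.zero) ⟨N.zero, by
        simp only [Delta0.Holds, Term.val, cons]; tauto⟩ (fun n _ => ⟨n, by
          simp only [Delta0.Holds, Term.val, cons]; tauto⟩) k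
  simp only [Delta0.Holds, Term.val, cons] at hj
  by_cases h : k = 0
  · exact Or.inl h
  · right
    refine ⟨j, ?_⟩
    by_contra h2
    exact hj ⟨h, h2⟩

theorem succ_ne_zero' (k : N.M) : k + 1 ≠ 0 := ax_succ_ne_zero k

theorem add_cancel' {a b c : N.M} (h : a + c = b + c) : a = b := add_right_cancel' _ _ _ h

theorem lt_irrefl' (m : N.M) : ¬ N.lt m m := by
  intro h
  obtain ⟨k, hk⟩ := (lt_iff_add m m).1 h
  have : (k + 1) + m = 0 + m := by
    rw [zero_add]
    calc (k + 1) + m = m + k + 1 := by ring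
      _ = m := hk
  exact succ_ne_zero' k (add_cancel' this)

theorem lt_trans' {a b c : N.M} (h1 : N.lt a b) (h2 : N.lt b c) : N.lt a c := by
  obtain ⟨k, rfl⟩ := (lt_iff_add _ _).1 h1
  obtain ⟨l, rfl⟩ := (lt_iff_add _ _).1 h2
  exact (lt_iff_add _ _).2 ⟨k + l + 1, by ring⟩

theorem lt_tri' (m n : N.M) : N.lt m n ∨ m = n ∨ N.lt n m := by
  refine ind_raw (.neg (.and (.and (.neg (.lt (.const m) (.var 1)))
    (.neg (.eq (.const m) (.var 1)))) (.neg (.lt (.var 1) (.const m)))) : Delta0 N)
    (fun n => N.lt m n ∨ m = n ∨ N.lt n m) (fun n k => ?_) ?_ (fun n ih => ?_) n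
  · simp only [Delta0.Holds, Term.val, cons]; tauto
  · rcases eq_zero_or_succ m with h | ⟨k, h⟩
    · exact Or.inr (Or.inl h)
    · refine Or.inr (Or.inr ((lt_iff_add _ _).2 ⟨k, ?_⟩))
      rw [h]; show (0 : N.M) + k + 1 = k + 1; ring
  · rcases ih with h | h | h
    · exact Or.inl ((ax_lt_succ _ _).2 (Or.inl h))
    · exact Or.inl ((ax_lt_succ _ _).2 (Or.inr h))
    · obtain ⟨k, hk⟩ := (lt_iff_add _ _).1 h
      rcases eq_zero_or_succ k with h0 | ⟨j, h0⟩
      · subst h0
        refine Or.inr (Or.inl ?_)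
        rw [← hk]; show n + 0 + 1 = n + 1; ring
      · subst h0
        refine Or.inr (Or.inr ((lt_iff_add _ _).2 ⟨j, ?_⟩))
        rw [← hk]; show n + 1 + j + 1 = _; ring

noncomputable instance instLinearOrder : LinearOrder N.M where
  le a b := N.lt a b ∨ a = b
  lt a b := N.lt a b
  le_refl a := Or.inr rfl
  le_trans a b c h1 h2 := by
    rcases h1 with h1 | rfl
    · rcases h2 with h2 | rfl
      · exact Or.inl (lt_trans' h1 h2)
      · exact Or.inl h1
    · exact h2
  lt_iff_le_not_ge a b := by
    constructor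
    · intro h
      refine ⟨Or.inl h, fun h2 => ?_⟩
      rcases h2 with h2 | rfl
      · exact lt_irrefl' _ (lt_trans' h h2)
      · exact lt_irrefl' _ h
    · rintro ⟨h1 | rfl, h2⟩
      · exact h1
      · exact absurd (Or.inr rfl) h2
  le_antisymm a b h1 h2 := by
    rcases h1 with h1 | h1
    · rcases h2 with h2 | h2
      · exact absurd (lt_trans' h1 h2) (lt_irrefl' _)
      · exact h2.symm
    · exact h1
  le_total a b := by
    rcases lt_tri' a b with h | h | h
    · exact Or.inl (Or.inl h)
    · exact Or.inl (Or.inr h)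
    · exact Or.inr (Or.inl h)
  toDecidableLE := Classical.decRel _

theorem lt_def (a b : N.M) : N.lt a b ↔ a < b := Iff.rfl

theorem le_iff_add' (a b : N.M) : a ≤ b ↔ ∃ c, b = a + c := by
  constructor
  · rintro (h | h)
    · obtain ⟨k, hk⟩ := (lt_iff_add _ _).1 h
      exact ⟨k + 1, by rw [← hk]; ring⟩
    · exact ⟨0, by rw [h, add_zero]⟩
  · rintro ⟨c, rfl⟩
    rcases eq_zero_or_succ c with h | ⟨k, h⟩
    · subst h; rw [add_zero]
    · subst h
      exact Or.inl ((lt_iff_add _ _).2 ⟨k, by ring⟩)

theorem lt_iff_add'' (a b : N.M) : a < b ↔ ∃ c, b = a + c + 1 := by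
  constructor
  · intro h
    obtain ⟨k, hk⟩ := (lt_iff_add _ _).1 h
    exact ⟨k, hk.symm⟩
  · rintro ⟨c, rfl⟩
    exact (lt_iff_add _ _).2 ⟨c, rfl⟩

instance instIsOrderedCancel : IsOrderedCancelAddMonoid N.M where
  add_le_add_left a b h c := by
    obtain ⟨d, rfl⟩ := (le_iff_add' _ _).1 h
    exact (le_iff_add' _ _).2 ⟨d, by ring⟩
  le_of_add_le_add_left a b c h := by
    obtain ⟨d, hd⟩ := (le_iff_add' _ _).1 h
    refine (le_iff_add' _ _).2 ⟨d, ?_⟩
    refine add_cancel' (c := a) ?_
    rw [add_comm c a, hd]; ring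

theorem zero_le' (a : N.M) : 0 ≤ a := (le_iff_add' _ _).2 ⟨a, by ring⟩

instance instZeroLEOne : ZeroLEOneClass N.M := ⟨zero_le' 1⟩

instance instNontrivial : Nontrivial N.M := ⟨0, 1, fun h => succ_ne_zero' (0 : N.M) (by
  rw [zero_add]; exact h.symm)⟩

theorem mul_lt_mul_aux {a b c : N.M} (ha : 0 < a) (h : b < c) : a * b < a * c := by
  obtain ⟨k, rfl⟩ := (lt_iff_add'' _ _).1 h
  obtain ⟨l, rfl⟩ := (lt_iff_add'' _ _).1 ha
  exact (lt_iff_add'' _ _).2 ⟨(l * k + l + k), by ring⟩

instance instIsStrictOrderedRing : IsStrictOrderedRing N.M where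
  mul_lt_mul_of_pos_left _ ha _ _ h := mul_lt_mul_aux ha h
  mul_lt_mul_of_pos_right _ ha _ _ h := by
    simp only [mul_comm _ _]
    rw [mul_comm, mul_comm _ (_ : N.M)]
    exact mul_lt_mul_aux ha h

instance instCanonicallyOrderedAdd : CanonicallyOrderedAdd N.M where
  exists_add_of_le {a b} h := (le_iff_add' _ _).1 h
  le_add_self a b := (le_iff_add' _ _).2 ⟨b, by ring⟩
  le_self_add a b := (le_iff_add' _ _).2 ⟨b, rfl⟩

theorem lt_add_one_iff' {a b : N.M} : a < b + 1 ↔ a ≤ b := ax_lt_succ a b

theorem add_one_le_iff' {a b : N.M} : a + 1 ≤ b ↔ a < b := by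
  rw [← lt_add_one_iff', add_lt_add_iff_right]

end Pool.Agent.Helper617.RM
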