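import Mathlib
import Pool.Agent.Helper617.RM.Arith

namespace Pool.Agent.Helper617.RM

universe u

set_option linter.unusedSectionVars false

variable {N : L2Structure.{u}}

open IsModelRCA0

abbrev Ctx (N : L2Structure.{u}) : Type u := ℕ → N.M

def tail {α : Type u} (v : ℕ → α) : ℕ → α := fun n => v (n + 1)

theorem cons_tail {α : Type u} (v : ℕ → α) : cons (v 0) (tail v) = v := by
  funext n; cases n <;> rfl

/-! ### substitution -/

def Term.subst (σ : ℕ → Term N) : Term N → Term N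
  | .var i => σ i
  | .const a => .const a
  | .zero => .zero
  | .one => .one
  | .add s t => .add (s.subst σ) (t.subst σ)
  | .mul s t => .mul (s.subst σ) (t.subst σ)

theorem Term.val_subst (σ : ℕ → Term N) (t : Term N) (v : Ctx N) :
    (t.subst σ).val v = t.val (fun i => (σ i).val v) := by
  induction t with
  | var i => rfl
  | const a => rfl
  | zero => rfl
  | one => rfl
  | add s t hs ht => simp only [Term.subst, Term.val, hs, ht]
  | mul s t hs ht => simp only [Term.subst, Term.val, hs, ht]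

def Term.up (σ : ℕ → Term N) : ℕ → Term N
  | 0 => .var 0
  | n + 1 => (σ n).subst (fun i => .var (i + 1))

theorem Term.up_val (σ : ℕ → Term N) (a : N.M) (v : Ctx N) :
    (fun i => (Term.up σ i).val (cons a v)) = cons a (fun i => (σ i).val v) := by
  funext i
  cases i with
  | zero => rfl
  | succ n =>
    simp only [Term.up, Term.val_subst, cons]
    rfl

def Delta0.subst : (ℕ → Term N) → Delta0 N → Delta0 N
  | σ, .eq s t => .eq (s.subst σ) (t.subst σ)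
  | σ, .lt s t => .lt (s.subst σ) (t.subst σ)
  | σ, .mem t X => .mem (t.subst σ) X
  | σ, .neg φ => .neg (φ.subst σ)
  | σ, .and φ ψ => .and (φ.subst σ) (ψ.subst σ)
  | σ, .ball t φ => .ball (t.subst σ) (φ.subst (Term.up σ))

theorem Delta0.holds_subst (φ : Delta0 N) : ∀ (σ : ℕ → Term N) (v : Ctx N),
    (φ.subst σ).Holds v ↔ φ.Holds (fun i => (σ i).val v) := by
  induction φ with
  | eq s t => intro σ v; simp only [Delta0.subst, Delta0.Holds, Term.val_subst]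
  | lt s t => intro σ v; simp only [Delta0.subst, Delta0.Holds, Term.val_subst]
  | mem t X => intro σ v; simp only [Delta0.subst, Delta0.Holds, Term.val_subst]
  | neg φ ih => intro σ v; simp only [Delta0.subst, Delta0.Holds, ih]
  | and φ ψ ih1 ih2 => intro σ v; simp only [Delta0.subst, Delta0.Holds, ih1, ih2]
  | ball t φ ih =>
    intro σ v
    simp only [Delta0.subst, Delta0.Holds, Term.val_subst, ih, Term.up_val]

/-! ### semantic classes -/

/-- `t` is the value function of a term -/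
def Tm (t : Ctx N → N.M) : Prop := ∃ τ : Term N, ∀ v, τ.val v = t v

/-- `R` is a `Δ⁰₀` relation with parameters -/
def D0 (R : Ctx N → Prop) : Prop := ∃ φ : Delta0 N, ∀ v, φ.Holds v ↔ R v

/-- `g` is given by terms -/
def CM (g : Ctx N → Ctx N) : Prop := ∀ i, Tm (fun v => g v i)

theorem Tm.var (i : ℕ) : Tm (fun v : Ctx N => v i) := ⟨.var i, fun _ => rfl⟩
theorem Tm.const (a : N.M) : Tm (fun _ : Ctx N => a) := ⟨.const a, fun _ => rfl⟩

theorem Tm.comp {t : Ctx N → N.M} (ht : Tm t) {g : Ctx N → Ctx N} (hg : CM g) :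
    Tm (fun v => t (g v)) := by
  obtain ⟨τ, hτ⟩ := ht
  choose σ hσ using hg
  refine ⟨τ.subst σ, fun v => ?_⟩
  have : (fun i => (σ i).val v) = g v := by funext i; exact hσ i v
  rw [Term.val_subst, this]
  exact hτ _

theorem D0.comp {R : Ctx N → Prop} (hR : D0 R) {g : Ctx N → Ctx N} (hg : CM g) :
    D0 (fun v => R (g v)) := by
  obtain ⟨φ, hφ⟩ := hR
  choose σ hσ using hg
  refine ⟨φ.subst σ, fun v => ?_⟩
  have : (fun i => (σ i).val v) = g v := by funext i; exact hσ i v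
  rw [Delta0.holds_subst, this]
  exact hφ _

theorem CM.id : CM (fun v : Ctx N => v) := fun i => Tm.var i

theorem CM.tail' {g : Ctx N → Ctx N} (hg : CM g) : CM (fun v => tail (g v)) :=
  fun i => hg (i + 1)

theorem CM.tail : CM (fun v : Ctx N => tail v) := CM.id.tail'

theorem CM.cons {t : Ctx N → N.M} {g : Ctx N → Ctx N} (ht : Tm t) (hg : CM g) :
    CM (fun v => cons (t v) (g v)) := by
  intro i
  cases i with
  | zero => exact ht
  | succ n => exact hg n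

theorem Tm.tail {t : Ctx N → N.M} (ht : Tm t) : Tm (fun v => t (RM.tail v)) := ht.comp CM.tail
theorem D0.tail {R : Ctx N → Prop} (hR : D0 R) : D0 (fun v => R (RM.tail v)) := hR.comp CM.tail

theorem D0.not {R : Ctx N → Prop} (hR : D0 R) : D0 (fun v => ¬ R v) := by
  obtain ⟨φ, hφ⟩ := hR
  exact ⟨.neg φ, fun v => not_congr (hφ v)⟩

theorem D0.and {R S : Ctx N → Prop} (hR : D0 R) (hS : D0 S) : D0 (fun v => R v ∧ S v) := by
  obtain ⟨φ, hφ⟩ := hR
  obtain ⟨ψ, hψ⟩ := hS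
  exact ⟨.and φ ψ, fun v => and_congr (hφ v) (hψ v)⟩

theorem D0.congr {R S : Ctx N → Prop} (hR : D0 R) (h : ∀ v, R v ↔ S v) : D0 S := by
  obtain ⟨φ, hφ⟩ := hR
  exact ⟨φ, fun v => (hφ v).trans (h v)⟩

theorem D0.or {R S : Ctx N → Prop} (hR : D0 R) (hS : D0 S) : D0 (fun v => R v ∨ S v) :=
  (hR.not.and hS.not).not.congr fun v => by tauto

theorem D0.imp {R S : Ctx N → Prop} (hR : D0 R) (hS : D0 S) : D0 (fun v => R v → S v) :=
  (hR.and hS.not).not.congr fun v => by tauto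

theorem D0.iff {R S : Ctx N → Prop} (hR : D0 R) (hS : D0 S) : D0 (fun v => R v ↔ S v) :=
  ((hR.imp hS).and (hS.imp hR)).congr fun v => by tauto

theorem D0.true : D0 (fun _ : Ctx N => True) :=
  ⟨.eq .zero .zero, fun _ => by simp [Delta0.Holds]⟩

theorem D0.false : D0 (fun _ : Ctx N => False) :=
  D0.true.not.congr fun _ => by simp

theorem D0.const (p : Prop) : D0 (fun _ : Ctx N => p) := by
  by_cases h : p
  · exact D0.true.congr fun _ => by simp [h]
  · exact D0.false.congr fun _ => by simp [h]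

theorem D0.eq {s t : Ctx N → N.M} (hs : Tm s) (ht : Tm t) : D0 (fun v => s v = t v) := by
  obtain ⟨σ, hσ⟩ := hs
  obtain ⟨τ, hτ⟩ := ht
  exact ⟨.eq σ τ, fun v => by simp only [Delta0.Holds, hσ, hτ]⟩

theorem D0.mem {t : Ctx N → N.M} (ht : Tm t) {X : Set N.M} (hX : X ∈ N.Sets) :
    D0 (fun v => t v ∈ X) := by
  obtain ⟨τ, hτ⟩ := ht
  exact ⟨.mem τ ⟨X, hX⟩, fun v => by simp only [Delta0.Holds, hτ]⟩

section model

variable [IsModelRCA0 N]

theorem Tm.zero : Tm (fun _ : Ctx N => (0 : N.M)) := ⟨.zero, fun _ => rfl⟩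
theorem Tm.one : Tm (fun _ : Ctx N => (1 : N.M)) := ⟨.one, fun _ => rfl⟩
theorem Tm.add {s t : Ctx N → N.M} (hs : Tm s) (ht : Tm t) : Tm (fun v => s v + t v) := by
  obtain ⟨σ, hσ⟩ := hs
  obtain ⟨τ, hτ⟩ := ht
  exact ⟨.add σ τ, fun v => by simp only [Term.val, hσ, hτ]; rfl⟩
theorem Tm.mul {s t : Ctx N → N.M} (hs : Tm s) (ht : Tm t) : Tm (fun v => s v * t v) := by
  obtain ⟨σ, hσ⟩ := hs
  obtain ⟨τ, hτ⟩ := ht
  exact ⟨.mul σ τ, fun v => by simp only [Term.val, hσ, hτ]; rfl⟩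

theorem D0.lt {s t : Ctx N → N.M} (hs : Tm s) (ht : Tm t) : D0 (fun v => s v < t v) := by
  obtain ⟨σ, hσ⟩ := hs
  obtain ⟨τ, hτ⟩ := ht
  exact ⟨.lt σ τ, fun v => by simp only [Delta0.Holds, hσ, hτ]; rfl⟩

theorem D0.le {s t : Ctx N → N.M} (hs : Tm s) (ht : Tm t) : D0 (fun v => s v ≤ t v) :=
  (D0.lt hs (ht.add Tm.one)).congr fun v => by
    simp only [lt_add_one_iff']

theorem D0.ball {t : Ctx N → N.M} {P : Ctx N → N.M → Prop} (ht : Tm t)
    (hP : D0 (fun w => P (RM.tail w) (w 0))) : D0 (fun v => ∀ x, x < t v → P v x) := by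
  obtain ⟨τ, hτ⟩ := ht
  obtain ⟨φ, hφ⟩ := hP
  refine ⟨.ball τ φ, fun v => ?_⟩
  simp only [Delta0.Holds, hτ]
  exact forall_congr' fun a => imp_congr Iff.rfl (hφ (RM.cons a v))

theorem D0.bex {t : Ctx N → N.M} {P : Ctx N → N.M → Prop} (ht : Tm t)
    (hP : D0 (fun w => P (RM.tail w) (w 0))) : D0 (fun v => ∃ x, x < t v ∧ P v x) :=
  (D0.ball (P := fun v x => ¬ P v x) ht hP.not).not.congr fun v => by push Not; rfl

theorem D0.ballLe {t : Ctx N → N.M} {P : Ctx N → N.M → Prop} (ht : Tm t)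
    (hP : D0 (fun w => P (RM.tail w) (w 0))) : D0 (fun v => ∀ x, x ≤ t v → P v x) :=
  (D0.ball (ht.add Tm.one) hP).congr fun v => by simp only [lt_add_one_iff']

theorem D0.bexLe {t : Ctx N → N.M} {P : Ctx N → N.M → Prop} (ht : Tm t)
    (hP : D0 (fun w => P (RM.tail w) (w 0))) : D0 (fun v => ∃ x, x ≤ t v ∧ P v x) :=
  (D0.bex (ht.add Tm.one) hP).congr fun v => by simp only [lt_add_one_iff']

/-! ### Σ₁ relations -/

/-- `R` is a `Σ⁰₁` relation with parameters -/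
def S1 (R : Ctx N → Prop) : Prop :=
  ∃ Q : Ctx N → N.M → Prop, D0 (fun w => Q (tail w) (w 0)) ∧ ∀ v, R v ↔ ∃ k, Q v k

theorem D0.S1 {R : Ctx N → Prop} (hR : D0 R) : S1 R :=
  ⟨fun v _ => R v, hR.tail, fun v => by simp⟩

theorem S1.congr {R S : Ctx N → Prop} (hR : S1 R) (h : ∀ v, R v ↔ S v) : S1 S := by
  obtain ⟨Q, hQ, hRQ⟩ := hR
  exact ⟨Q, hQ, fun v => (h v).symm.trans (hRQ v)⟩

theorem S1.comp {R : Ctx N → Prop} (hR : RM.S1 R) {g : Ctx N → Ctx N} (hg : CM g) :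
    RM.S1 (fun v => R (g v)) := by
  obtain ⟨Q, hQ, hRQ⟩ := hR
  refine ⟨fun v k => Q (g v) k, ?_, fun v => hRQ _⟩
  exact hQ.comp (g := fun w => RM.cons (w 0) (g (RM.tail w)))
    (CM.cons (Tm.var 0) (fun i => (hg i).tail))

/-- bounded version of two numbers being below a third one -/
theorem exists_two {P : N.M → N.M → Prop} :
    (∃ x y, P x y) ↔ ∃ z, ∃ x, x < z ∧ ∃ y, y < z ∧ P x y := by
  constructor
  · rintro ⟨x, y, h⟩
    exact ⟨max x y + 1, x, lt_add_one_iff'.2 (le_max_left _ _), y,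
      lt_add_one_iff'.2 (le_max_right _ _), h⟩
  · rintro ⟨z, x, _, y, _, h⟩
    exact ⟨x, y, h⟩

theorem S1.ex {P : Ctx N → N.M → Prop} (hP : S1 (fun w => P (RM.tail w) (w 0))) :
    S1 (fun v => ∃ x, P v x) := by
  obtain ⟨Q, hQ, hPQ⟩ := hP
  refine ⟨fun v z => ∃ x, x < z ∧ ∃ k, k < z ∧ Q (cons x v) k, ?_, fun v => ?_⟩
  · refine D0.bex (Tm.var 0) (D0.bex (Tm.var 1) ?_)
    exact hQ.comp (g := fun u => cons (u 0) (cons (u 1) (RM.tail (RM.tail (RM.tail u)))))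
      (CM.cons (Tm.var 0) (CM.cons (Tm.var 1) (CM.tail.tail'.tail')))
  · rw [← exists_two]
    exact exists_congr fun x => hPQ (cons x v)

theorem S1.and {R S : Ctx N → Prop} (hR : S1 R) (hS : S1 S) : S1 (fun v => R v ∧ S v) := by
  obtain ⟨Q, hQ, hRQ⟩ := hR
  obtain ⟨Q', hQ', hSQ⟩ := hS
  refine ⟨fun v z => ∃ x, x < z ∧ ∃ k, k < z ∧ (Q v x ∧ Q' v k), ?_, fun v => ?_⟩
  · refine D0.bex (Tm.var 0) (D0.bex (Tm.var 1) (D0.and ?_ ?_))
    · exact hQ.comp (g := fun u => cons (u 1) (RM.tail (RM.tail (RM.tail u))))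
        (CM.cons (Tm.var 1) (CM.tail.tail'.tail'))
    · exact hQ'.comp (g := fun u => cons (u 0) (RM.tail (RM.tail (RM.tail u))))
        (CM.cons (Tm.var 0) (CM.tail.tail'.tail'))
  · show (R v ∧ S v) ↔ _
    rw [← exists_two, hRQ, hSQ]
    constructor
    · rintro ⟨⟨x, hx⟩, ⟨y, hy⟩⟩; exact ⟨x, y, hx, hy⟩
    · rintro ⟨x, y, hx, hy⟩; exact ⟨⟨x, hx⟩, ⟨y, hy⟩⟩

theorem S1.or {R S : Ctx N → Prop} (hR : S1 R) (hS : S1 S) : S1 (fun v => R v ∨ S v) := by
  obtain ⟨Q, hQ, hRQ⟩ := hR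
  obtain ⟨Q', hQ', hSQ⟩ := hS
  refine ⟨fun v z => Q v z ∨ Q' v z, hQ.or hQ', fun v => ?_⟩
  show (R v ∨ S v) ↔ ∃ k, (Q v k ∨ Q' v k)
  rw [hRQ, hSQ, exists_or]

theorem ind_S1_ctx {P : Ctx N → Prop} (hP : S1 P) (v : Ctx N) (h0 : P (cons 0 v))
    (hs : ∀ n, P (cons n v) → P (cons (n + 1) v)) (n : N.M) : P (cons n v) := by
  obtain ⟨Q, ⟨φ, hφ⟩, hPQ⟩ := hP
  have key : ∀ n, (∃ k, φ.Holds (cons k (cons n v))) ↔ P (cons n v) := fun n => by
    rw [hPQ]
    exact exists_congr fun k => hφ (cons k (cons n v))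
  exact (key n).1 (sigma1_induction φ v ((key _).2 h0)
    (fun n hn => (key _).2 (hs n ((key _).1 hn))) n)

/-- `Σ⁰₁` induction -/
theorem ind_S1 {P : N.M → Prop} (hP : S1 (fun v => P (v 0))) (h0 : P 0)
    (hs : ∀ n, P n → P (n + 1)) (n : N.M) : P n :=
  ind_S1_ctx hP (fun _ => 0) h0 hs n

/-- bounding for `Σ⁰₁` (in context) -/
theorem bounding {Q : N.M → N.M → Prop} (hQ : D0 (fun w => Q (w 1) (w 0))) (a : N.M)
    (h : ∀ x, x < a → ∃ k, Q x k) : ∃ b, ∀ x, x < a → ∃ k, k < b ∧ Q x k := by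
  have key : ∀ n, n ≤ a → ∃ b, ∀ x, x < n → ∃ k, k < b ∧ Q x k := by
    intro n
    refine ind_S1 (P := fun n => n ≤ a → ∃ b, ∀ x, x < n → ∃ k, k < b ∧ Q x k) ?_ ?_ ?_ n
    · refine S1.congr (R := fun v => ∃ b, (v 0 ≤ a → ∀ x, x < v 0 → ∃ k, k < b ∧ Q x k)) ?_
        fun v => ?_
      · refine S1.ex (D0.S1 (D0.imp (D0.le (Tm.var 1) (Tm.const a)) ?_))
        refine D0.ball (Tm.var 1) (D0.bex (Tm.var 1) ?_)
        exact hQ.comp (g := fun u => cons (u 0) (cons (u 1) u))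
          (CM.cons (Tm.var 0) (CM.cons (Tm.var 1) CM.id))
      · by_cases hv : v 0 ≤ a
        · simp [hv]
        · simp [hv]
    · intro _
      exact ⟨0, fun x hx => absurd hx (not_lt_of_ge (zero_le' x))⟩
    · intro n ih hn
      obtain ⟨b, hb⟩ := ih (le_trans (le_of_lt (lt_add_one_iff'.2 le_rfl)) hn)
      obtain ⟨k, hk⟩ := h n (add_one_le_iff'.1 hn)
      refine ⟨max b (k + 1), fun x hx => ?_⟩
      rcases lt_or_eq_of_le (lt_add_one_iff'.1 hx) with hx | rfl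
      · obtain ⟨j, hj, hj'⟩ := hb x hx
        exact ⟨j, lt_of_lt_of_le hj (le_max_left _ _), hj'⟩
      · exact ⟨k, lt_of_lt_of_le (lt_add_one_iff'.2 le_rfl) (le_max_right _ _), hk⟩
  exact key a le_rfl

theorem bounding_ctx {Q : Ctx N → N.M → N.M → Prop}
    (hQ : D0 (fun w => Q (tail (tail w)) (w 1) (w 0))) (v : Ctx N) (a : N.M)
    (h : ∀ x, x < a → ∃ k, Q v x k) : ∃ b, ∀ x, x < a → ∃ k, k < b ∧ Q v x k := by
  have key : ∀ n, n ≤ a → ∃ b, ∀ x, x < n → ∃ k, k < b ∧ Q v x k := by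
    intro n
    refine ind_S1_ctx
      (P := fun w => w 0 ≤ a → ∃ b, ∀ x, x < w 0 → ∃ k, k < b ∧ Q (tail w) x k) ?_ v ?_ ?_ n
    · refine S1.congr (R := fun w => ∃ b, (w 0 ≤ a →
        ∀ x, x < w 0 → ∃ k, k < b ∧ Q (tail w) x k)) ?_ fun w => ?_
      · refine S1.ex (D0.S1 (D0.imp (D0.le (Tm.var 1) (Tm.const a)) ?_))
        refine D0.ball (Tm.var 1) (D0.bex (Tm.var 1) ?_)
        exact hQ.comp (g := fun u => cons (u 0) (cons (u 1) (tail (tail (tail (tail u))))))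
          (CM.cons (Tm.var 0) (CM.cons (Tm.var 1) CM.tail.tail'.tail'.tail'))
      · by_cases hv : w 0 ≤ a
        · simp [hv]
        · simp [hv]
    · intro _
      exact ⟨0, fun x hx => absurd hx (not_lt_of_ge (zero_le' x))⟩
    · intro n ih hn
      obtain ⟨b, hb⟩ := ih (le_trans (le_of_lt (lt_add_one_iff'.2 le_rfl)) hn)
      obtain ⟨k, hk⟩ := h n (add_one_le_iff'.1 hn)
      refine ⟨max b (k + 1), fun x hx => ?_⟩
      rcases lt_or_eq_of_le (lt_add_one_iff'.1 hx) with hx | rfl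
      · obtain ⟨j, hj, hj'⟩ := hb x hx
        exact ⟨j, lt_of_lt_of_le hj (le_max_left _ _), hj'⟩
      · exact ⟨k, lt_of_lt_of_le (lt_add_one_iff'.2 le_rfl) (le_max_right _ _), hk⟩
  exact key a le_rfl

theorem S1.ball {t : Ctx N → N.M} {P : Ctx N → N.M → Prop} (ht : Tm t)
    (hP : S1 (fun w => P (RM.tail w) (w 0))) : S1 (fun v => ∀ x, x < t v → P v x) := by
  obtain ⟨Q, hQ, hPQ⟩ := hP
  refine ⟨fun v b => ∀ x, x < t v → ∃ k, k < b ∧ Q (cons x v) k, ?_, fun v => ?_⟩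
  · refine D0.ball ht.tail (D0.bex (Tm.var 1) ?_)
    exact hQ.comp (g := fun u => cons (u 0) (cons (u 1) (RM.tail (RM.tail (RM.tail u)))))
      (CM.cons (Tm.var 0) (CM.cons (Tm.var 1) (CM.tail.tail'.tail')))
  · constructor
    · intro h
      refine bounding_ctx (Q := fun v x k => Q (cons x v) k) ?_ v (t v)
        (fun x hx => (hPQ (cons x v)).1 (h x hx))
      exact hQ.comp (g := fun u => cons (u 0) (cons (u 1) (RM.tail (RM.tail u))))
        (CM.cons (Tm.var 0) (CM.cons (Tm.var 1) (CM.tail.tail')))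
    · rintro ⟨b, hb⟩ x hx
      obtain ⟨k, _, hk⟩ := hb x hx
      exact (hPQ (cons x v)).2 ⟨k, hk⟩

theorem S1.bex {t : Ctx N → N.M} {P : Ctx N → N.M → Prop} (ht : Tm t)
    (hP : S1 (fun w => P (RM.tail w) (w 0))) : S1 (fun v => ∃ x, x < t v ∧ P v x) :=
  S1.ex ((D0.lt (Tm.var 0) ht.tail).S1.and hP)

/-! ### induction and least number principles -/

theorem ind_D0 {P : N.M → Prop} (hP : D0 (fun v => P (v 0))) (h0 : P 0)
    (hs : ∀ n, P n → P (n + 1)) (n : N.M) : P n := ind_S1 hP.S1 h0 hs n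

theorem exists_sub {a b : N.M} (h : a ≤ b) : ∃ c, b = a + c := (le_iff_add' _ _).1 h

/-- `Π⁰₁` induction -/
theorem ind_P1 {P : N.M → Prop} (hP : S1 (fun v => ¬ P (v 0))) (h0 : P 0)
    (hs : ∀ n, P n → P (n + 1)) (n : N.M) : P n := by
  by_contra hn
  have key : ∀ i, i ≤ n → ∃ b, i + b = n ∧ ¬ P b := by
    intro i
    refine ind_S1 (P := fun i => i ≤ n → ∃ b, i + b = n ∧ ¬ P b) ?_ ?_ ?_ i
    · refine S1.congr (R := fun v => (¬ v 0 ≤ n) ∨ ∃ b, v 0 + b = n ∧ ¬ P b) ?_ fun v => ?_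
      · refine S1.or (D0.le (Tm.var 0) (Tm.const n)).not.S1 (S1.ex (S1.and ?_ ?_))
        · exact (D0.eq ((Tm.var 1).add (Tm.var 0)) (Tm.const n)).S1
        · exact hP
      · tauto
    · intro _
      exact ⟨n, by rw [zero_add], hn⟩
    · intro i ih hi
      obtain ⟨b, hb, hPb⟩ := ih (le_trans (le_of_lt (lt_add_one_iff'.2 le_rfl)) hi)
      rcases eq_zero_or_succ b with h | ⟨c, h⟩
      · subst h
        exact absurd h0 hPb
      · subst h
        refine ⟨c, ?_, fun hc => hPb (hs c hc)⟩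
        rw [← hb]; ring
  obtain ⟨b, hb, hPb⟩ := key n le_rfl
  have : b = 0 := by
    have h : b + n = 0 + n := by rw [zero_add, add_comm]; exact hb
    exact add_cancel' h
  subst this
  exact hPb h0

/-- least number principle for `Σ⁰₁` -/
theorem lnp_S1 {P : N.M → Prop} (hP : S1 (fun v => P (v 0))) (a : N.M) (ha : P a) :
    ∃ n, n ≤ a ∧ P n ∧ ∀ m, m < n → ¬ P m := by
  by_contra hcon
  push Not at hcon
  have key : ∀ n, ∀ m, m < n → m ≤ a → ¬ P m := by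
    intro n
    refine ind_P1 (P := fun n => ∀ m, m < n → m ≤ a → ¬ P m) ?_ ?_ ?_ n
    · refine S1.congr (R := fun v => ∃ m, m < v 0 ∧ (m ≤ a ∧ P m)) ?_ fun v => ?_
      · exact S1.bex (Tm.var 0) (S1.and (D0.le (Tm.var 0) (Tm.const a)).S1 hP)
      · push Not
        rfl
    · intro m hm
      exact absurd hm (not_lt_of_ge (zero_le' m))
    · intro n ih m hm hma hPm
      rcases lt_or_eq_of_le (lt_add_one_iff'.1 hm) with h | rfl
      · exact ih m h hma hPm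
      · obtain ⟨k, hk, hPk⟩ := hcon m hma hPm
        exact ih k hk (le_trans hk.le hma) hPk
  exact key (a + 1) a (lt_add_one_iff'.2 le_rfl) le_rfl ha

/-- least number principle for `Π⁰₁` -/
theorem lnp_P1 {P : N.M → Prop} (hP : S1 (fun v => ¬ P (v 0))) (a : N.M) (ha : P a) :
    ∃ n, n ≤ a ∧ P n ∧ ∀ m, m < n → ¬ P m := by
  by_contra hcon
  push Not at hcon
  have key : ∀ n, ∀ m, m < n → m ≤ a → ¬ P m := by
    intro n
    refine ind_S1 (P := fun n => ∀ m, m < n → m ≤ a → ¬ P m) ?_ ?_ ?_ n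
    · refine S1.ball (Tm.var 0) (S1.congr
        (S1.or (D0.le (Tm.var 0) (Tm.const a)).not.S1 hP) fun v => ?_)
      tauto
    · intro m hm
      exact absurd hm (not_lt_of_ge (zero_le' m))
    · intro n ih m hm hma hPm
      rcases lt_or_eq_of_le (lt_add_one_iff'.1 hm) with h | rfl
      · exact ih m h hma hPm
      · obtain ⟨k, hk, hPk⟩ := hcon m hma hPm
        exact ih k hk (le_trans hk.le hma) hPk
  exact key (a + 1) a (lt_add_one_iff'.2 le_rfl) le_rfl ha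

theorem lnp_D0 {P : N.M → Prop} (hP : D0 (fun v => P (v 0))) (a : N.M) (ha : P a) :
    ∃ n, n ≤ a ∧ P n ∧ ∀ m, m < n → ¬ P m := lnp_S1 hP.S1 a ha

/-- `Δ⁰₁` comprehension -/
theorem comp_D1 {P : N.M → Prop} (h1 : S1 (fun v => P (v 0))) (h2 : S1 (fun v => ¬ P (v 0))) :
    {n | P n} ∈ N.Sets := by
  obtain ⟨Q, ⟨φ, hφ⟩, hQ⟩ := h1
  obtain ⟨Q', ⟨ψ, hψ⟩, hQ'⟩ := h2
  have e1 : ∀ n, (∃ k, φ.Holds (cons k (cons n (fun _ => 0)))) ↔ P n := fun n => by
    refine Iff.trans ?_ (hQ (cons n (fun _ => (0 : N.M)))).symm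
    exact exists_congr fun k => hφ _
  have e2 : ∀ n, (∀ k, (Delta0.neg ψ).Holds (cons k (cons n (fun _ => 0)))) ↔ P n := fun n => by
    have := hQ' (cons n (fun _ => (0 : N.M)))
    simp only [Delta0.Holds, hψ]
    rw [← not_exists]
    have h3 : (∃ k, Q' (tail (cons k (cons n fun _ => (0 : N.M))))
      (cons k (cons n (fun _ => (0 : N.M))) 0)) ↔ ¬ P n := this.symm
    rw [h3, not_not]
  have := delta1_comprehension φ (.neg ψ) (fun _ => (0 : N.M)) (fun n => (e1 n).trans (e2 n).symm)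
  simpa only [e1] using this

theorem comp_D0 {P : N.M → Prop} (h : D0 (fun v => P (v 0))) : {n | P n} ∈ N.Sets :=
  comp_D1 h.S1 h.not.S1

end model

end Pool.Agent.Helper617.RM
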