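import Mathlib
import Pool.Agent.Helper617.RM.Definable

namespace Pool.Agent.Helper617.RM

universe u

set_option linter.unusedSectionVars false
set_option linter.unusedVariables false

variable {N : L2Structure.{u}} [IsModelRCA0 N]

open IsModelRCA0

/-! ### pairing -/

theorem pos_of_ne_zero {a : N.M} (h : a ≠ 0) : 0 < a := lt_of_le_of_ne (zero_le' a) (Ne.symm h)

theorem one_le_of_pos {a : N.M} (h : 0 < a) : 1 ≤ a := by
  have := add_one_le_iff'.2 h
  rwa [zero_add] at this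

theorem zero_lt_one' : (0 : N.M) < 1 := zero_lt_one

def pr (x y : N.M) : N.M := (x + y) * (x + y) + x

theorem le_mul_self' (a : N.M) : a ≤ a * a := by
  rcases eq_zero_or_succ a with h | ⟨b, h⟩
  · subst h; rw [mul_zero]
  · subst h
    calc b + 1 = (b + 1) * 1 := by ring
      _ ≤ (b + 1) * (b + 1) := by
        gcongr
        exact le_add_of_nonneg_left (zero_le' b)

theorem fst_le_pr (x y : N.M) : x ≤ pr x y := le_add_of_nonneg_left (zero_le' _)

theorem snd_le_pr (x y : N.M) : y ≤ pr x y := by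
  calc y ≤ x + y := le_add_of_nonneg_left (zero_le' x)
    _ ≤ (x + y) * (x + y) := le_mul_self' _
    _ ≤ pr x y := le_add_of_nonneg_right (zero_le' _)

theorem pr_lt_pr {x y x' y' : N.M} (h : x + y < x' + y') : pr x y < pr x' y' := by
  have h1 : x + y + 1 ≤ x' + y' := add_one_le_iff'.2 h
  have h2 : (x + y + 1) * (x + y + 1) ≤ (x' + y') * (x' + y') := by gcongr
  have h3 : pr x y < (x + y + 1) * (x + y + 1) := by
    rw [lt_iff_add'']
    exact ⟨x + y + y, by unfold pr; ring⟩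
  calc pr x y < (x + y + 1) * (x + y + 1) := h3
    _ ≤ (x' + y') * (x' + y') := h2
    _ ≤ pr x' y' := le_add_of_nonneg_right (zero_le' _)

theorem pr_inj {x y x' y' : N.M} (h : pr x y = pr x' y') : x = x' ∧ y = y' := by
  rcases lt_trichotomy (x + y) (x' + y') with h1 | h1 | h1
  · exact absurd h (pr_lt_pr h1).ne
  · unfold pr at h
    rw [h1] at h
    have hx : x = x' := add_left_cancel h
    subst hx
    exact ⟨rfl, add_left_cancel h1⟩
  · exact absurd h (pr_lt_pr h1).ne'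

theorem Tm.pr {s t : Ctx N → N.M} (hs : Tm s) (ht : Tm t) : Tm (fun v => pr (s v) (t v)) :=
  ((hs.add ht).mul (hs.add ht)).add hs

/-- the set coding a binary relation -/
def codeRel (R : N.M → N.M → Prop) : Set N.M := {p | ∃ x y, R x y ∧ p = pr x y}

theorem mem_codeRel {R : N.M → N.M → Prop} {x y : N.M} : pr x y ∈ codeRel R ↔ R x y := by
  constructor
  · rintro ⟨x', y', h, e⟩
    obtain ⟨rfl, rfl⟩ := pr_inj e
    exact h
  · intro h; exact ⟨x, y, h, rfl⟩

theorem D0.of_codeRel {R : N.M → N.M → Prop} (h : codeRel R ∈ N.Sets) :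
    D0 (fun v => R (v 0) (v 1)) :=
  (D0.mem ((Tm.var 0).pr (Tm.var 1)) h).congr fun v => mem_codeRel

theorem D0.rel {R : N.M → N.M → Prop} (h : D0 (fun v => R (v 0) (v 1)))
    {s t : Ctx N → N.M} (hs : Tm s) (ht : Tm t) : D0 (fun v => R (s v) (t v)) :=
  h.comp (g := fun v => cons (s v) (cons (t v) v)) (CM.cons hs (CM.cons ht CM.id))

theorem S1.rel {R : N.M → N.M → Prop} (h : S1 (fun v => R (v 0) (v 1)))
    {s t : Ctx N → N.M} (hs : Tm s) (ht : Tm t) : S1 (fun v => R (s v) (t v)) :=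
  h.comp (g := fun v => cons (s v) (cons (t v) v)) (CM.cons hs (CM.cons ht CM.id))

theorem D0.pred {R : N.M → Prop} (h : D0 (fun v => R (v 0)))
    {s : Ctx N → N.M} (hs : Tm s) : D0 (fun v => R (s v)) :=
  h.comp (g := fun v => cons (s v) v) (CM.cons hs CM.id)

theorem S1.pred {R : N.M → Prop} (h : S1 (fun v => R (v 0)))
    {s : Ctx N → N.M} (hs : Tm s) : S1 (fun v => R (s v)) :=
  h.comp (g := fun v => cons (s v) v) (CM.cons hs CM.id)

theorem codeRel_mem {R : N.M → N.M → Prop} (h1 : S1 (fun v => R (v 0) (v 1)))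
    (h2 : S1 (fun v => ¬ R (v 0) (v 1))) : codeRel R ∈ N.Sets := by
  refine comp_D1 (P := fun p => ∃ x y, R x y ∧ p = pr x y) ?_ ?_
  · refine S1.ex (S1.ex (S1.and (h1.rel (Tm.var 1) (Tm.var 0)) ?_))
    exact (D0.eq (Tm.var 2) ((Tm.var 1).pr (Tm.var 0))).S1
  · refine S1.congr (R := fun v => ∀ x, x < v 0 + 1 → ∀ y, y < v 0 + 1 →
      (¬ R x y ∨ ¬ v 0 = pr x y)) ?_ fun v => ?_
    · refine S1.ball ((Tm.var 0).add Tm.one) (S1.ball ((Tm.var 1).add Tm.one) (S1.or ?_ ?_))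
      · exact S1.rel (R := fun x y => ¬ R x y) h2 (Tm.var 1) (Tm.var 0)
      · exact (D0.eq (Tm.var 2) ((Tm.var 1).pr (Tm.var 0))).not.S1
    · constructor
      · rintro h ⟨x, y, hR, e⟩
        rcases h x (lt_add_one_iff'.2 (e ▸ fst_le_pr x y)) y
          (lt_add_one_iff'.2 (e ▸ snd_le_pr x y)) with h | h
        · exact h hR
        · exact h e
      · intro h x _ y _
        by_cases hR : R x y
        · exact Or.inr fun e => h ⟨x, y, hR, e⟩
        · exact Or.inl hR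

theorem codeRel_mem_D0 {R : N.M → N.M → Prop} (h : D0 (fun v => R (v 0) (v 1))) :
    codeRel R ∈ N.Sets := codeRel_mem h.S1 h.not.S1

/-! ### divisibility -/

theorem dvd_iff_bdd (a n : N.M) : a ∣ n ↔ ∃ q, q ≤ n ∧ n = a * q := by
  constructor
  · rintro ⟨q, hq⟩
    rcases eq_zero_or_succ a with h | ⟨b, h⟩
    · subst h
      refine ⟨0, zero_le' _, ?_⟩
      rw [hq, zero_mul, zero_mul]
    · refine ⟨q, ?_, hq⟩
      rw [hq, h, add_mul, one_mul]
      exact le_add_of_nonneg_left (zero_le' _)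
  · rintro ⟨q, _, hq⟩
    exact ⟨q, hq⟩

theorem D0.dvd {s t : Ctx N → N.M} (hs : Tm s) (ht : Tm t) : D0 (fun v => s v ∣ t v) :=
  (D0.bexLe (P := fun v q => t v = s v * q) ht
    (D0.eq ht.tail (hs.tail.mul (Tm.var 0)))).congr fun v => (dvd_iff_bdd _ _).symm

theorem dvd_of_dvd_add {a x y : N.M} (h : a ∣ x + y) (hy : a ∣ y) : a ∣ x := by
  obtain ⟨y', rfl⟩ := hy
  obtain ⟨z, hz⟩ := h
  rcases eq_zero_or_succ a with h | ⟨b, h⟩
  · subst h
    rw [zero_mul, zero_mul, add_zero] at hz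
    rw [hz]
  · have hpos : 0 < a := by
      rw [h]; exact lt_of_le_of_lt (zero_le' b) (lt_add_one_iff'.2 le_rfl)
    have hle : y' ≤ z := by
      by_contra hcon
      push Not at hcon
      have h1 : a * z < a * y' := mul_lt_mul_aux hpos hcon
      have h2 : a * y' ≤ a * z := by rw [← hz]; exact le_add_of_nonneg_left (zero_le' _)
      exact absurd h1 (not_lt_of_ge h2)
    obtain ⟨w, rfl⟩ := exists_sub hle
    refine ⟨w, add_cancel' (c := a * y') ?_⟩
    rw [hz]; ring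

/-! ### codes of finite sets -/

/-- the `i`-th modulus -/
def el (m i : N.M) : N.M := m * (i + 1) + 1

theorem Tm.el {s t : Ctx N → N.M} (hs : Tm s) (ht : Tm t) : Tm (fun v => el (s v) (t v)) :=
  (hs.mul (ht.add Tm.one)).add Tm.one

def Base (k m : N.M) : Prop := 0 < m ∧ ∀ i, i < k → (i + 1) ∣ m

theorem exists_base (k : N.M) : ∃ m, Base k m := by
  refine ind_S1 (P := fun k => ∃ m, Base k m) ?_ ?_ ?_ k
  · refine S1.ex (D0.S1 (D0.and (D0.lt Tm.zero (Tm.var 0)) (D0.ball (Tm.var 1) ?_)))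
    exact D0.dvd ((Tm.var 0).add Tm.one) (Tm.var 1)
  · exact ⟨1, zero_lt_one, fun i hi => absurd hi (not_lt_of_ge (zero_le' i))⟩
  · rintro k ⟨m, hm, h⟩
    refine ⟨m * (k + 1), ?_, fun i hi => ?_⟩
    · exact mul_pos hm (lt_of_le_of_lt (zero_le' k) (lt_add_one_iff'.2 le_rfl))
    · rcases lt_or_eq_of_le (lt_add_one_iff'.1 hi) with hi | rfl
      · exact Dvd.dvd.mul_right (h i hi) _
      · exact dvd_mul_left _ _

theorem el_pos (m i : N.M) : 0 < el m i := lt_of_le_of_lt (zero_le' _) (lt_add_one_iff'.2 le_rfl)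

theorem one_lt_el {m i : N.M} (hm : 0 < m) : 1 < el m i := by
  have : 0 < m * (i + 1) :=
    mul_pos hm (lt_of_le_of_lt (zero_le' _) (lt_add_one_iff'.2 le_rfl))
  unfold el
  calc (1 : N.M) = 0 + 1 := by ring
    _ < m * (i + 1) + 1 := by gcongr

theorem exists_top (k m : N.M) : ∃ B, 0 < B ∧ ∀ i, i < k → el m i ∣ B := by
  refine ind_S1 (P := fun k => ∃ B, 0 < B ∧ ∀ i, i < k → el m i ∣ B) ?_ ?_ ?_ k
  · refine S1.ex (D0.S1 (D0.and (D0.lt Tm.zero (Tm.var 0)) (D0.ball (Tm.var 1) ?_)))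
    exact D0.dvd (Tm.el (Tm.const m) (Tm.var 0)) (Tm.var 1)
  · exact ⟨1, zero_lt_one, fun i hi => absurd hi (not_lt_of_ge (zero_le' i))⟩
  · rintro k ⟨B, hB, h⟩
    refine ⟨B * el m k, mul_pos hB (el_pos _ _), fun i hi => ?_⟩
    rcases lt_or_eq_of_le (lt_add_one_iff'.1 hi) with hi | rfl
    · exact Dvd.dvd.mul_right (h i hi) _
    · exact dvd_mul_left _ _

theorem cop_identity (i d e : N.M) :
    1 + e * (i + 1) * (i + d + 1) * el (d * e) i
      = el (d * e) i + e * (i + 1) * (i + 1) * el (d * e) (i + d) := by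
  unfold el; ring

theorem cop_lt {k m i j x : N.M} (hb : Base k m) (hj : j < k) (hij : i < j) :
    (el m i ∣ el m j * x → el m i ∣ x) ∧ (el m j ∣ el m i * x → el m j ∣ x) := by
  obtain ⟨c, rfl⟩ := (lt_iff_add'' _ _).1 hij
  have hc : c < k := by
    refine lt_of_le_of_lt ?_ hj
    calc c ≤ i + c := le_add_of_nonneg_left (zero_le' _)
      _ ≤ i + c + 1 := le_add_of_nonneg_right (zero_le' _)
  obtain ⟨e, he⟩ := hb.2 c hc
  have hid := cop_identity i (c + 1) e
  rw [← he, ← add_assoc i c 1] at hid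
  have hx : x + (e * (i + 1) * (i + c + 1 + 1) * el m i) * x
      = el m i * x + (e * (i + 1) * (i + 1)) * (el m (i + c + 1) * x) := by
    calc x + (e * (i + 1) * (i + c + 1 + 1) * el m i) * x
        = (1 + e * (i + 1) * (i + c + 1 + 1) * el m i) * x := by ring
      _ = (el m i + e * (i + 1) * (i + 1) * el m (i + c + 1)) * x := by rw [hid]
      _ = _ := by ring
  constructor
  · intro h
    refine dvd_of_dvd_add (y := (e * (i + 1) * (i + c + 1 + 1) * el m i) * x) ?_ ?_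
    · rw [hx]
      exact dvd_add (dvd_mul_right _ _) (Dvd.dvd.mul_left h _)
    · exact Dvd.dvd.mul_right (dvd_mul_left _ _) _
  · intro h
    refine dvd_of_dvd_add (y := (e * (i + 1) * (i + c + 1 + 1) * el m i) * x) ?_ ?_
    · rw [hx]
      exact dvd_add h (Dvd.dvd.mul_left (dvd_mul_right _ _) _)
    · rw [mul_assoc]
      exact Dvd.dvd.mul_left h _

theorem cop {k m i j x : N.M} (hb : Base k m) (hi : i < k) (hj : j < k) (hij : i ≠ j)
    (h : el m i ∣ el m j * x) : el m i ∣ x := by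
  rcases lt_or_gt_of_ne hij with h1 | h1
  · exact (cop_lt hb hj h1).1 h
  · exact (cop_lt hb hi h1).2 h

/-- codes of bounded `Σ⁰₁` sets; the code is the least multiple of all moduli of members -/
theorem exists_code {P : N.M → Prop} (hP : S1 (fun v => P (v 0))) {k m B : N.M}
    (hb : Base k m) (hB : 0 < B) (hB2 : ∀ i, i < k → el m i ∣ B) :
    ∃ n, n ≤ B ∧ 0 < n ∧ (∀ i, i < k → (el m i ∣ n ↔ P i)) ∧
      ∀ n', 0 < n' → (∀ i, i < k → P i → el m i ∣ n') → n ≤ n' := by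
  have hdef : S1 (fun v : Ctx N => ¬ (0 < v 0 ∧ ∀ i, i < k → P i → el m i ∣ v 0)) := by
    refine S1.congr (R := fun v => (¬ 0 < v 0) ∨ ∃ i, i < k ∧ (P i ∧ ¬ el m i ∣ v 0)) ?_
      fun v => ?_
    · refine S1.or (D0.lt Tm.zero (Tm.var 0)).not.S1 (S1.bex (Tm.const k) (S1.and ?_ ?_))
      · exact hP.pred (Tm.var 0)
      · exact (D0.dvd (Tm.el (Tm.const m) (Tm.var 0)) (Tm.var 1)).not.S1
    · rw [not_and_or]
      push Not
      rfl
  obtain ⟨n, hnB, ⟨hn, hn1⟩, hmin⟩ := lnp_P1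
    (P := fun n => 0 < n ∧ ∀ i, i < k → P i → el m i ∣ n) hdef B
    ⟨hB, fun i hi _ => hB2 i hi⟩
  refine ⟨n, hnB, hn, fun i hi => ⟨fun h => ?_, fun h => hn1 i hi h⟩, fun n' hn' h' => ?_⟩
  · by_contra hPi
    obtain ⟨q, rfl⟩ := h
    have hq : 0 < q := by
      refine pos_of_ne_zero fun h0 => ?_
      rw [h0, mul_zero] at hn
      exact absurd hn (lt_irrefl _)
    refine hmin q ?_ ⟨hq, fun j hj hPj => ?_⟩
    · calc q = 1 * q := by ring
        _ < el m i * q := by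
          rw [mul_comm 1 q, mul_comm _ q]
          exact mul_lt_mul_aux hq (one_lt_el hb.1)
    · exact cop hb hj hi (fun e => hPi (e ▸ hPj)) (hn1 j hj hPj)
  · by_contra hcon
    push Not at hcon
    exact hmin n' hcon ⟨hn', h'⟩

/-- bounded `Σ⁰₁` comprehension -/
theorem bdd_comp {P : N.M → Prop} (hP : S1 (fun v => P (v 0))) (k : N.M) :
    {i | i < k ∧ P i} ∈ N.Sets := by
  obtain ⟨m, hm⟩ := exists_base k
  obtain ⟨B, hB, hB2⟩ := exists_top k m
  obtain ⟨n, _, _, hn, _⟩ := exists_code hP hm hB hB2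
  have : {i | i < k ∧ P i} = {i | i < k ∧ el m i ∣ n} := by
    ext i
    constructor
    · rintro ⟨h1, h2⟩; exact ⟨h1, (hn i h1).2 h2⟩
    · rintro ⟨h1, h2⟩; exact ⟨h1, (hn i h1).1 h2⟩
  rw [this]
  exact comp_D0 (P := fun i => i < k ∧ el m i ∣ n)
    (D0.and (D0.lt (Tm.var 0) (Tm.const k)) (D0.dvd (Tm.el (Tm.const m) (Tm.var 0)) (Tm.const n)))

/-- strong `Σ⁰₁` bounding -/
theorem strong_bounding {Q : N.M → N.M → Prop} (hQ : D0 (fun v => Q (v 0) (v 1))) (a : N.M) :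
    ∃ b, ∀ x, x < a → (∃ k, Q x k) → ∃ k, k < b ∧ Q x k := by
  have hX : {x | x < a ∧ ∃ k, Q x k} ∈ N.Sets :=
    bdd_comp (P := fun x => ∃ k, Q x k) (S1.ex (hQ.rel (Tm.var 1) (Tm.var 0)).S1) a
  obtain ⟨b, hb⟩ := bounding
    (Q := fun x k => x ∈ {x | x < a ∧ ∃ k, Q x k} → Q x k)
    (D0.imp (D0.mem (Tm.var 1) hX) (hQ.rel (Tm.var 1) (Tm.var 0))) a (fun x hx => by
      by_cases h : ∃ k, Q x k
      · obtain ⟨k, hk⟩ := h; exact ⟨k, fun _ => hk⟩
      · exact ⟨0, fun h' => absurd h'.2 h⟩)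
  refine ⟨b, fun x hx hk => ?_⟩
  obtain ⟨k, hk1, hk2⟩ := hb x hx
  exact ⟨k, hk1, hk2 ⟨hx, hk⟩⟩

end Pool.Agent.Helper617.RM
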