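import Mathlib
import Pool.Agent.Helper617.RM.Coding
import Pool.Agent.Helper617.RM.Orders

namespace Pool.Agent.Helper617.RM

universe u

set_option linter.unusedSectionVars false
set_option linter.unusedVariables false

variable {N : L2Structure.{u}} [IsModelRCA0 N]

open IsModelRCA0

theorem not_isFin_iff {X : Set N.M} : ¬ IsFin N X ↔ ∀ b, ∃ x ∈ X, b ≤ x := by
  unfold IsFin
  push Not
  refine forall_congr' fun b => ?_
  constructor
  · rintro ⟨x, hx, h⟩; exact ⟨x, hx, not_lt.1 h⟩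
  · rintro ⟨x, hx, h⟩; exact ⟨x, hx, not_lt.2 h⟩

theorem almostAll_iff {X : Set N.M} {p : N.M → Prop} :
    AlmostAll N X p ↔ ∃ b, ∀ y ∈ X, b ≤ y → p y := by
  unfold AlmostAll IsFin
  refine exists_congr fun b => ?_
  constructor
  · intro h y hy hby
    by_contra hp
    exact absurd (h y ⟨hy, hp⟩) (not_lt.2 hby)
  · rintro h y ⟨hy, hp⟩
    by_contra hby
    exact hp (h y hy (not_lt.1 hby))

theorem isFin_iff {X : Set N.M} : IsFin N X ↔ ∃ b, ∀ y ∈ X, y < b := Iff.rfl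

theorem relIn_iff {R : N.M → N.M → Prop} : RelIn N R ↔ codeRel R ∈ N.Sets := Iff.rfl

/-- `A` comes before `B`: at the first difference `A` is true -/
def Lex (A B : N.M → Prop) : Prop := ∃ z, A z ∧ ¬ B z ∧ ∀ w, w < z → (A w ↔ B w)

theorem Lex.irrefl {A : N.M → Prop} : ¬ Lex A A := fun ⟨_, h1, h2, _⟩ => h2 h1

theorem Lex.trans {A B C : N.M → Prop} (h1 : Lex A B) (h2 : Lex B C) : Lex A C := by
  obtain ⟨z1, ha, hb, h⟩ := h1
  obtain ⟨z2, hb', hc, h'⟩ := h2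
  rcases lt_trichotomy z1 z2 with hlt | rfl | hlt
  · exact ⟨z1, ha, fun hc1 => hb ((h' z1 hlt).2 hc1), fun w hw =>
      (h w hw).trans (h' w (hw.trans hlt))⟩
  · exact absurd hb' hb
  · exact ⟨z2, (h z2 hlt).2 hb', hc, fun w hw => (h w (hw.trans hlt)).trans (h' w hw)⟩

theorem Lex.congr {A B A' B' : N.M → Prop} (hA : ∀ z, A z ↔ A' z) (hB : ∀ z, B z ↔ B' z)
    (h : Lex A B) : Lex A' B' := by
  obtain ⟨z, h1, h2, h3⟩ := h
  exact ⟨z, (hA z).1 h1, fun h => h2 ((hB z).2 h), fun w hw =>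
    (hA w).symm.trans ((h3 w hw).trans (hB w))⟩

theorem Lex.not_equiv {A B : N.M → Prop} (h : Lex A B) (h' : ∀ z, A z ↔ B z) : False := by
  obtain ⟨z, h1, h2, _⟩ := h
  exact h2 ((h' z).1 h1)

theorem Lex.asymm {A B : N.M → Prop} (h : Lex A B) (h' : Lex B A) : False :=
  Lex.irrefl (h.trans h')

theorem Lex.tri {F : N.M → N.M → Prop} (hF : D0 (fun v => F (v 0) (v 1))) (x y : N.M) {z : N.M}
    (h : ¬ (F x z ↔ F y z)) :
    ∃ w, w ≤ z ∧ ¬ (F x w ↔ F y w) ∧ ∀ u, u < w → (F x u ↔ F y u) := by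
  obtain ⟨n, h1, h2, h3⟩ := lnp_D0 (P := fun z => ¬ (F x z ↔ F y z))
    (D0.not (D0.iff (hF.rel (Tm.const x) (Tm.var 0)) (hF.rel (Tm.const y) (Tm.var 0)))) z h
  exact ⟨n, h1, h2, fun u hu => not_not.1 (h3 u hu)⟩

/-- strict order of a family -/
def FLt (F : N.M → N.M → Prop) (x y : N.M) : Prop :=
  Lex (F x) (F y) ∨ ((∀ z, F x z ↔ F y z) ∧ x < y)

/-- order of a family, on a domain -/
def FOrd (D : Set N.M) (F : N.M → N.M → Prop) (x y : N.M) : Prop :=
  x ∈ D ∧ y ∈ D ∧ (x = y ∨ FLt F x y)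

theorem FLt.irrefl {F : N.M → N.M → Prop} {x : N.M} : ¬ FLt F x x := by
  rintro (h | ⟨_, h⟩)
  · exact h.irrefl
  · exact lt_irrefl _ h

theorem FLt.trans {F : N.M → N.M → Prop} {x y z : N.M} (h1 : FLt F x y) (h2 : FLt F y z) :
    FLt F x z := by
  rcases h1 with h1 | ⟨e1, h1⟩
  · rcases h2 with h2 | ⟨e2, h2⟩
    · exact Or.inl (h1.trans h2)
    · exact Or.inl (h1.congr (fun _ => Iff.rfl) e2)
  · rcases h2 with h2 | ⟨e2, h2⟩
    · exact Or.inl (h2.congr (fun z => (e1 z).symm) (fun _ => Iff.rfl))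
    · exact Or.inr ⟨fun z => (e1 z).trans (e2 z), h1.trans h2⟩

theorem FLt.asymm {F : N.M → N.M → Prop} {x y : N.M} (h1 : FLt F x y) (h2 : FLt F y x) :
    False := FLt.irrefl (h1.trans h2)

theorem FLt.tri {F : N.M → N.M → Prop} (hF : D0 (fun v => F (v 0) (v 1))) (x y : N.M) :
    x = y ∨ FLt F x y ∨ FLt F y x := by
  by_cases h : ∀ z, F x z ↔ F y z
  · rcases lt_trichotomy x y with h1 | h1 | h1
    · exact Or.inr (Or.inl (Or.inr ⟨h, h1⟩))
    · exact Or.inl h1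
    · exact Or.inr (Or.inr (Or.inr ⟨fun z => (h z).symm, h1⟩))
  · push Not at h
    obtain ⟨z, hz⟩ := h
    have hz' : ¬ (F x z ↔ F y z) := by
      intro h; rcases hz with ⟨h1, h2⟩ | ⟨h1, h2⟩
      · exact h2 (h.1 h1)
      · exact h1 (h.2 h2)
    obtain ⟨w, _, h2, h3⟩ := Lex.tri hF x y hz'
    by_cases hx : F x w
    · exact Or.inr (Or.inl (Or.inl ⟨w, hx, fun hy => h2 ⟨fun _ => hy, fun _ => hx⟩, h3⟩))
    · refine Or.inr (Or.inr (Or.inl ⟨w, ?_, hx, fun u hu => (h3 u hu).symm⟩))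
      by_contra hy
      exact h2 ⟨fun h => absurd h hx, fun h => absurd h hy⟩

theorem FOrd.isLinearOrd (D : Set N.M) {F : N.M → N.M → Prop}
    (hF : D0 (fun v => F (v 0) (v 1))) : IsLinearOrd N D (FOrd D F) where
  dom x y h := ⟨h.1, h.2.1⟩
  refl x hx := ⟨hx, hx, Or.inl rfl⟩
  antisymm x y h1 h2 := by
    rcases h1.2.2 with h | h
    · exact h
    · rcases h2.2.2 with h' | h'
      · exact h'.symm
      · exact (h.asymm h').elim
  trans x y z h1 h2 := by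
    refine ⟨h1.1, h2.2.1, ?_⟩
    rcases h1.2.2 with rfl | h
    · exact h2.2.2
    · rcases h2.2.2 with rfl | h'
      · exact Or.inr h
      · exact Or.inr (h.trans h')
  total x hx y hy := by
    rcases FLt.tri hF x y with h | h | h
    · exact Or.inl ⟨hx, hy, Or.inl h⟩
    · exact Or.inl ⟨hx, hy, Or.inr h⟩
    · exact Or.inr ⟨hy, hx, Or.inr h⟩

/-- differences of members of the family occur below `x + y + c` -/
def BddDiff (F : N.M → N.M → Prop) (c : N.M) : Prop :=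
  ∀ x y, (∃ z, ¬ (F x z ↔ F y z)) → ∃ z, z ≤ x + y + c ∧ ¬ (F x z ↔ F y z)

theorem FLt.D0 {F : N.M → N.M → Prop} (hF : RM.D0 (fun v => F (v 0) (v 1))) {c : N.M}
    (hc : BddDiff F c) : RM.D0 (fun v => FLt F (v 0) (v 1)) := by
  have e1 : ∀ x y, Lex (F x) (F y) ↔
      ∃ z, z ≤ x + y + c ∧ (F x z ∧ ¬ F y z ∧ ∀ w, w < z → (F x w ↔ F y w)) := by
    intro x y
    constructor
    · rintro ⟨z, h1, h2, h3⟩
      obtain ⟨z', hz', hd⟩ := hc x y ⟨z, fun h => h2 (h.1 h1)⟩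
      refine ⟨z, le_trans ?_ hz', h1, h2, h3⟩
      by_contra hcon
      exact hd (h3 z' (not_le.1 hcon))
    · rintro ⟨z, _, h⟩
      exact ⟨z, h⟩
  have e2 : ∀ x y, (∀ z, F x z ↔ F y z) ↔ ∀ z, z ≤ x + y + c → (F x z ↔ F y z) := by
    intro x y
    constructor
    · intro h z _; exact h z
    · intro h
      by_contra hcon
      push Not at hcon
      obtain ⟨z, hz⟩ := hcon
      obtain ⟨z', hz', hd⟩ := hc x y ⟨z, fun h => by
        rcases hz with ⟨h1, h2⟩ | ⟨h1, h2⟩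
        · exact h2 (h.1 h1)
        · exact h1 (h.2 h2)⟩
      exact hd (h z' hz')
  have hb : Tm (fun v : Ctx N => v 0 + v 1 + c) := ((Tm.var 0).add (Tm.var 1)).add (Tm.const c)
  refine RM.D0.congr (R := fun v => (∃ z, z ≤ v 0 + v 1 + c ∧ (F (v 0) z ∧ ¬ F (v 1) z ∧
    ∀ w, w < z → (F (v 0) w ↔ F (v 1) w))) ∨
    ((∀ z, z ≤ v 0 + v 1 + c → (F (v 0) z ↔ F (v 1) z)) ∧ v 0 < v 1)) ?_ fun v => ?_
  · refine D0.or (D0.bexLe hb (D0.and ?_ (D0.and ?_ ?_))) (D0.and (D0.ballLe hb ?_) ?_)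
    · exact hF.rel (Tm.var 1) (Tm.var 0)
    · exact (hF.rel (Tm.var 2) (Tm.var 0)).not
    · exact D0.ball (Tm.var 0) (D0.iff (hF.rel (Tm.var 2) (Tm.var 0))
        (hF.rel (Tm.var 3) (Tm.var 0)))
    · exact D0.iff (hF.rel (Tm.var 1) (Tm.var 0)) (hF.rel (Tm.var 2) (Tm.var 0))
    · exact D0.lt (Tm.var 0) (Tm.var 1)
  · unfold FLt
    rw [← e1, ← e2]

/-- SADS for the order of a family -/
theorem sads_family (hS : PrincipleSADS N) {D : Set N.M} (hD : D ∈ N.Sets)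
    (hinf : ∀ b, ∃ x ∈ D, b ≤ x) {F : N.M → N.M → Prop} (hF : D0 (fun v => F (v 0) (v 1)))
    {c : N.M} (hc : BddDiff F c)
    (hstab : ∀ x ∈ D, ∃ b, (∀ y ∈ D, b ≤ y → FLt F x y) ∨ (∀ y ∈ D, b ≤ y → FLt F y x)) :
    ∃ f : N.M → N.M, D0 (fun v => v 1 = f (v 0)) ∧ (∀ i, f i ∈ D) ∧ (∀ i j, f i = f j → i = j) ∧
      ((∀ i j, i < j → FLt F (f i) (f j)) ∨ (∀ i j, i < j → FLt F (f j) (f i))) := by
  have hrel : RelIn N (FOrd D F) := by
    rw [relIn_iff]
    refine codeRel_mem_D0 (D0.and (D0.mem (Tm.var 0) hD) (D0.and (D0.mem (Tm.var 1) hD)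
      (D0.or (D0.eq (Tm.var 0) (Tm.var 1)) (FLt.D0 hF hc))))
  obtain ⟨f, hf, hfD, hmon⟩ := hS D hD (FOrd D F) hrel (FOrd.isLinearOrd D hF)
    (not_isFin_iff.2 hinf) (fun x hx => by
      obtain ⟨b, h | h⟩ := hstab x hx
      · left
        refine ⟨b, fun y hy => ?_⟩
        by_contra hcon
        have h1 := h y hy.1.1 (not_lt.1 hcon)
        rcases hy.1.2.2 with h2 | h2
        · exact hy.2 h2
        · exact h1.asymm h2
      · right
        refine ⟨b, fun y hy => ?_⟩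
        by_contra hcon
        have h1 := h y hy.1.2.1 (not_lt.1 hcon)
        rcases hy.1.2.2 with h2 | h2
        · exact hy.2 h2.symm
        · exact h1.asymm h2)
  refine ⟨f, ?_, hfD, ?_, ?_⟩
  · exact (D0.of_codeRel (R := fun x y => y = f x) hf)
  · intro i j hij
    rcases lt_trichotomy i j with h | h | h
    · rcases hmon with hmon | hmon
      · exact absurd hij (hmon i j h).2
      · exact absurd hij (hmon i j h).2
    · exact h
    · rcases hmon with hmon | hmon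
      · exact absurd hij.symm (hmon j i h).2
      · exact absurd hij.symm (hmon j i h).2
  · rcases hmon with hmon | hmon
    · left
      intro i j h
      rcases (hmon i j h).1.2.2 with h1 | h1
      · exact absurd h1 (hmon i j h).2
      · exact h1
    · right
      intro i j h
      rcases (hmon i j h).1.2.2 with h1 | h1
      · exact absurd h1.symm (hmon i j h).2
      · exact h1

/-- the values of an injective function of the model are unbounded -/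
theorem unbounded_of_injective {f : N.M → N.M} (hf : D0 (fun v => v 1 = f (v 0)))
    (hinj : ∀ i j, f i = f j → i = j) (K b : N.M) : ∃ k, K ≤ k ∧ b ≤ f k := by
  by_contra hcon
  push Not at hcon
  obtain ⟨K', hK'⟩ := strong_bounding (Q := fun x k => x = f k)
    (D0.rel (R := fun k x => x = f k) hf (Tm.var 1) (Tm.var 0)) b
  obtain ⟨k, hk, hfk⟩ := hK' (f (max K K')) (hcon _ (le_max_left _ _)) ⟨_, rfl⟩
  have := hinj _ _ hfk
  rw [← this] at hk
  exact absurd hk (not_lt_of_ge (le_max_right _ _))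

/-- a monotone sequence of subsets of a bounded interval is eventually constant -/
theorem eventually_const {Y : N.M → N.M → Prop} (hY : D0 (fun v => Y (v 0) (v 1))) {c : N.M}
    (hc : ∀ k k', (∃ z, ¬ (Y k z ↔ Y k' z)) → ∃ z, z ≤ c ∧ ¬ (Y k z ↔ Y k' z))
    (hconv : ∀ k k' k'', k < k' → k' < k'' → (∀ z, Y k z ↔ Y k'' z) → ∀ z, Y k z ↔ Y k' z) :
    ∃ K, ∀ k, K ≤ k → ∀ z, Y k z ↔ Y K z := by
  obtain ⟨m, hm⟩ := exists_base (c + 1)
  obtain ⟨B, hB, hB2⟩ := exists_top (c + 1) m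
  obtain ⟨K, hK⟩ := strong_bounding (Q := fun w k => ∀ i, i < c + 1 → (el m i ∣ w ↔ Y k i)) (by
    refine D0.ball (Tm.const _) (D0.iff (D0.dvd (Tm.el (Tm.const m) (Tm.var 0)) (Tm.var 1)) ?_)
    exact hY.rel (Tm.var 2) (Tm.var 0)) (B + 1)
  have heq : ∀ k k', (∀ z, z ≤ c → (Y k z ↔ Y k' z)) → ∀ z, Y k z ↔ Y k' z := by
    intro k k' h
    by_contra hcon
    push Not at hcon
    obtain ⟨z, hz⟩ := hcon
    obtain ⟨z', hz', hd⟩ := hc k k' ⟨z, fun h => by
      rcases hz with ⟨h1, h2⟩ | ⟨h1, h2⟩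
      · exact h2 (h.1 h1)
      · exact h1 (h.2 h2)⟩
    exact hd (h z' hz')
  refine ⟨K, fun k hk => ?_⟩
  obtain ⟨w, hwB, _, hw, _⟩ := exists_code (P := fun i => Y k i)
    (hY.rel (Tm.const k) (Tm.var 0)).S1 hm hB hB2
  obtain ⟨k', hk', hk'2⟩ := hK w (lt_add_one_iff'.2 hwB) ⟨k, hw⟩
  have hkk' : ∀ z, Y k' z ↔ Y k z := heq k' k fun z hz =>
    ((hk'2 z (lt_add_one_iff'.2 hz)).symm.trans (hw z (lt_add_one_iff'.2 hz)))
  rcases lt_or_eq_of_le hk with h | h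
  · have := hconv k' K k hk' h hkk'
    exact fun z => (hkk' z).symm.trans (this z)
  · subst h
    exact fun z => Iff.rfl

end Pool.Agent.Helper617.RM
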