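import Mathlib
import Pool.Agent.Helper617.RM.Lex

namespace Pool.Agent.Helper617.RM

universe u

set_option linter.unusedSectionVars false
set_option linter.unusedVariables false

variable {N : L2Structure.{u}} [IsModelRCA0 N]

open IsModelRCA0

/-- a relation whose both sides are `Σ⁰₁` is given by a set of the model, hence `Δ⁰₀` -/
theorem d0_of_D1 {R : N.M → N.M → Prop} (h1 : S1 (fun v => R (v 0) (v 1)))
    (h2 : S1 (fun v => ¬ R (v 0) (v 1))) : D0 (fun v => R (v 0) (v 1)) :=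
  D0.of_codeRel (codeRel_mem h1 h2)

theorem d0_of_D1_pred {P : N.M → Prop} (h1 : S1 (fun v => P (v 0)))
    (h2 : S1 (fun v => ¬ P (v 0))) : D0 (fun v => P (v 0)) :=
  D0.mem (Tm.var 0) (comp_D1 h1 h2)

/-- composing a family with a function of the model -/
theorem d0_comp_fun {F : N.M → N.M → Prop} (hF : D0 (fun v => F (v 0) (v 1)))
    {f : N.M → N.M} (hf : D0 (fun v => v 1 = f (v 0))) : D0 (fun v => F (f (v 0)) (v 1)) := by
  have hf' : ∀ {s t : Ctx N → N.M}, Tm s → Tm t → D0 (fun v => t v = f (s v)) :=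
    fun hs ht => D0.rel (R := fun k x => x = f k) hf hs ht
  refine d0_of_D1 (R := fun k n => F (f k) n) ?_ ?_
  · refine S1.congr (R := fun v => ∃ u, u = f (v 0) ∧ F u (v 1)) ?_ fun v => by simp
    exact S1.ex (S1.and (hf' (Tm.var 1) (Tm.var 0)).S1 (hF.rel (Tm.var 0) (Tm.var 2)).S1)
  · refine S1.congr (R := fun v => ∃ u, u = f (v 0) ∧ ¬ F u (v 1)) ?_ fun v => by simp
    exact S1.ex (S1.and (hf' (Tm.var 1) (Tm.var 0)).S1 (hF.rel (Tm.var 0) (Tm.var 2)).not.S1)

/-- the canonical codes -/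
def Canon (a m n : N.M) : Prop :=
  0 < n ∧ ∀ n', n' < n → 0 < n' → ∃ i, i < a ∧ (el m i ∣ n ∧ ¬ el m i ∣ n')

/-- `j` does not occur in `[u, t]` -/
def NoOcc (C : N.M → N.M → Prop) (u t j : N.M) : Prop := ∀ v, v ≤ t → u ≤ v → ¬ C j v

/-- the family used for bounding -/
def Fam (C : N.M → N.M → Prop) (a m B t n : N.M) : Prop :=
  n ≤ B ∧ Canon a m n ∧ ∃ u, u ≤ t + 1 ∧ ∀ j, j < a → (el m j ∣ n ↔ NoOcc C u t j)

theorem fam_D0 {C : N.M → N.M → Prop} (hC : RM.D0 (fun v => C (v 0) (v 1))) (a m B : N.M) :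
    RM.D0 (fun v => Fam C a m B (v 0) (v 1)) := by
  refine RM.D0.and (D0.le (Tm.var 1) (Tm.const B)) (RM.D0.and (RM.D0.and ?_ ?_) ?_)
  · exact D0.lt Tm.zero (Tm.var 1)
  · refine D0.ball (Tm.var 1) (D0.imp (D0.lt Tm.zero (Tm.var 0)) (D0.bex (Tm.const a) ?_))
    exact D0.and (D0.dvd (Tm.el (Tm.const m) (Tm.var 0)) (Tm.var 3))
      (D0.dvd (Tm.el (Tm.const m) (Tm.var 0)) (Tm.var 1)).not
  · refine D0.bexLe ((Tm.var 0).add Tm.one) (D0.ball (Tm.const a) (D0.iff ?_ ?_))
    · exact D0.dvd (Tm.el (Tm.const m) (Tm.var 0)) (Tm.var 3)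
    · refine D0.ballLe (Tm.var 2) (D0.imp (D0.le (Tm.var 2) (Tm.var 0)) ?_)
      exact (hC.rel (Tm.var 1) (Tm.var 0)).not

/-- `SADS` implies: if each of boundedly many classes is finite, their union is finite -/
theorem sads_bounding (hS : PrincipleSADS N) {C : N.M → N.M → Prop}
    (hC : D0 (fun v => C (v 0) (v 1))) (a : N.M)
    (hfin : ∀ j, j < a → ∃ b, ∀ t, b ≤ t → ¬ C j t) :
    ∃ b, ∀ t, b ≤ t → ∀ j, j < a → ¬ C j t := by
  by_contra hcon
  push Not at hcon
  have hE : {t | ∃ j, j < a ∧ C j t} ∈ N.Sets :=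
    comp_D0 (P := fun t => ∃ j, j < a ∧ C j t)
      (D0.bex (Tm.const a) (hC.rel (Tm.var 0) (Tm.var 1)))
  obtain ⟨m, hm⟩ := exists_base a
  obtain ⟨B, hB, hB2⟩ := exists_top a m
  have hF := fam_D0 hC a m B
  have hdiff : ∀ x y, (∃ z, ¬ (Fam C a m B x z ↔ Fam C a m B y z)) →
      ∃ z, z ≤ B ∧ ¬ (Fam C a m B x z ↔ Fam C a m B y z) := by
    rintro x y ⟨z, hz⟩
    refine ⟨z, ?_, hz⟩
    by_contra hzB
    exact hz ⟨fun h => absurd h.1 hzB, fun h => absurd h.1 hzB⟩
  have hbd : BddDiff (Fam C a m B) B := by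
    intro x y h
    obtain ⟨z, h1, h2⟩ := hdiff x y h
    exact ⟨z, h1.trans (le_add_of_nonneg_left (zero_le' _)), h2⟩
  have hle : ∀ x : N.M, x ≤ x + 1 := fun x => (lt_add_one_iff'.2 le_rfl).le
  -- stability
  have hstab : ∀ x ∈ {t | ∃ j, j < a ∧ C j t}, ∃ b,
      (∀ y ∈ {t | ∃ j, j < a ∧ C j t}, b ≤ y → FLt (Fam C a m B) x y) ∨
      (∀ y ∈ {t | ∃ j, j < a ∧ C j t}, b ≤ y → FLt (Fam C a m B) y x) := by
    rintro s ⟨j, hja, hjs⟩
    obtain ⟨uj, huj⟩ := hfin j hja
    have hs_lt : s < uj := by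
      by_contra h
      exact huj s (not_lt.1 h) hjs
    obtain ⟨t0, ht0⟩ := strong_bounding (Q := fun i v => uj ≤ v ∧ C i v)
      (D0.and (D0.le (Tm.const uj) (Tm.var 1)) (hC.rel (Tm.var 0) (Tm.var 1))) a
    -- the limit set
    set t1 := max t0 uj with ht1def
    have ht1 : ∀ i, i < a → ∀ v, uj ≤ v → C i v → ∃ v', v' < t1 ∧ uj ≤ v' ∧ C i v' := by
      intro i hi v hv hCv
      obtain ⟨v', h1, h2, h3⟩ := ht0 i hi ⟨v, hv, hCv⟩
      exact ⟨v', lt_of_lt_of_le h1 (le_max_left _ _), h2, h3⟩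
    have hujt1 : uj ≤ t1 := le_max_right _ _
    obtain ⟨p, hpB, hp0, hpcode, hpmin⟩ := exists_code
      (P := fun i => ∀ v, v < t1 → uj ≤ v → ¬ C i v)
      (D0.ball (Tm.const t1) (D0.imp (D0.le (Tm.const uj) (Tm.var 0))
        (hC.rel (Tm.var 1) (Tm.var 0)).not)).S1 hm hB hB2
    have hpcanon : Canon a m p := by
      refine ⟨hp0, fun n' hn' h0 => ?_⟩
      by_contra hno
      push Not at hno
      exact absurd (hpmin n' h0 fun i hi hPi => hno i hi ((hpcode i hi).2 hPi))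
        (not_le.2 hn')
    -- `Fam y p` for large `y`
    have hyp : ∀ y, t1 ≤ y → Fam C a m B y p := by
      intro y hy
      refine ⟨hpB, hpcanon, uj, (hujt1.trans hy).trans (hle y), fun i hi => ?_⟩
      rw [hpcode i hi]
      constructor
      · intro h v hvy huv hCv
        obtain ⟨v', h1, h2, h3⟩ := ht1 i hi v huv hCv
        exact h v' h1 h2 h3
      · intro h v hv huv hCv
        exact h v (hv.le.trans hy) huv hCv
    -- `¬ Fam s p`
    have hsp : ¬ Fam C a m B s p := by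
      rintro ⟨_, _, u, hu, hcode⟩
      have hj1 : el m j ∣ p := (hpcode j hja).2 fun v _ huv => huj v huv
      have hj2 := (hcode j hja).1 hj1
      have hus : ¬ u ≤ s := fun h => hj2 s le_rfl h hjs
      -- all classes avoid `[uj, ∞)`
      obtain ⟨t, ht, i, hi, hCt⟩ := hcon t1
      have hi1 : el m i ∣ p := (hcode i hi).2 fun v hv huv =>
        absurd (huv.trans hv) hus
      have hi2 := (hpcode i hi).1 hi1
      obtain ⟨v', h1, h2, h3⟩ := ht1 i hi t (hujt1.trans ht) hCt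
      exact hi2 v' h1 h2 h3
    -- occurrences between u ≤ uj and large t
    have hocc : ∀ u, u ≤ uj → ∀ y, t1 ≤ y → ∀ i, i < a →
        (NoOcc C u y i ↔ ∀ v, v < t1 → u ≤ v → ¬ C i v) := by
      intro u hu y hy i hi
      constructor
      · intro h v hv huv
        exact h v (hv.le.trans hy) huv
      · intro h v hvy huv hCv
        by_cases hvt : v < t1
        · exact h v hvt huv hCv
        · obtain ⟨v', h1, h2, h3⟩ := ht1 i hi v (hujt1.trans (not_lt.1 hvt)) hCv
          exact h v' h1 (hu.trans h2) h3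
    have hconst : ∀ y y', t1 ≤ y → t1 ≤ y' → ∀ z, z ≤ p → Fam C a m B y z →
        Fam C a m B y' z := by
      rintro y y' hy hy' z hz ⟨hzB, hzc, u, hu, hcode⟩
      by_cases huu : u ≤ uj
      · refine ⟨hzB, hzc, u, (huu.trans (hujt1.trans hy')).trans (hle y'), fun i hi => ?_⟩
        rw [hcode i hi, hocc u huu y hy i hi, hocc u huu y' hy' i hi]
      · have huu' := (not_le.1 huu).le
        have hpz : p ≤ z := by
          refine hpmin z hzc.1 fun i hi hPi => (hcode i hi).2 ?_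
          intro v hvy huv
          exact ((hocc uj le_rfl y hy i hi).2 hPi) v hvy (huu'.trans huv)
        have : z = p := le_antisymm hz hpz
        subst this
        exact hyp y' hy'
    -- conclusion
    obtain ⟨t2, ht2, i2, hi2, hCt2⟩ := hcon t1
    obtain ⟨w, hwp, hwd, hwmin⟩ := Lex.tri hF s t2 (z := p)
      (fun h => hsp (h.2 (hyp t2 ht2)))
    have heq : ∀ y, t1 ≤ y → ∀ z, z ≤ w → (Fam C a m B y z ↔ Fam C a m B t2 z) :=
      fun y hy z hz => ⟨hconst y t2 hy ht2 z (hz.trans hwp), hconst t2 y ht2 hy z (hz.trans hwp)⟩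
    by_cases hsw : Fam C a m B s w
    · refine ⟨t1, Or.inl fun y _ hy => Or.inl ⟨w, hsw, fun h => ?_, fun x hx => ?_⟩⟩
      · exact hwd ⟨fun _ => (heq y hy w le_rfl).1 h, fun _ => hsw⟩
      · rw [hwmin x hx, heq y hy x hx.le]
    · refine ⟨t1, Or.inr fun y _ hy => Or.inl ⟨w, ?_, hsw, fun x hx => ?_⟩⟩
      · by_contra h
        exact hwd ⟨fun h' => absurd h' hsw, fun h' => absurd ((heq y hy w le_rfl).2 h') h⟩
      · rw [hwmin x hx, heq y hy x hx.le]
  obtain ⟨f, hf, hfE, hinj, hmon⟩ := sads_family hS hE (fun b => by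
    obtain ⟨t, ht, j, hj, h⟩ := hcon b
    exact ⟨t, ⟨j, hj, h⟩, ht⟩) hF hbd hstab
  -- eventually constant
  obtain ⟨K, hK⟩ := eventually_const (Y := fun k n => Fam C a m B (f k) n) (d0_comp_fun hF hf)
    (c := B) (fun k k' h => hdiff _ _ h) (by
      intro k k' k'' h1 h2 heq z
      by_contra hz
      rcases hmon with hmon | hmon
      · have a1 : Lex (Fam C a m B (f k)) (Fam C a m B (f k')) := by
          rcases hmon k k' h1 with h | h
          · exact h
          · exact absurd (h.1 z) hz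
        rcases hmon k' k'' h2 with h | h
        · exact (a1.trans h).not_equiv heq
        · exact a1.not_equiv (fun z => (heq z).trans (h.1 z).symm)
      · have a1 : Lex (Fam C a m B (f k')) (Fam C a m B (f k)) := by
          rcases hmon k k' h1 with h | h
          · exact h
          · exact absurd (h.1 z).symm hz
        rcases hmon k' k'' h2 with h | h
        · exact (h.trans a1).not_equiv (fun z => (heq z).symm)
        · exact a1.not_equiv (fun z => (h.1 z).symm.trans (heq z).symm))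
  obtain ⟨j, hja, hjK⟩ := hfE K
  obtain ⟨bj, hbj⟩ := hfin j hja
  obtain ⟨k, hKk, hk⟩ := unbounded_of_injective hf hinj K bj
  refine hbj (f k) hk ?_
  -- the code of the complement of the colours at `f k`
  obtain ⟨n0, hn0B, hn00, hn0, hn0min⟩ := exists_code (P := fun i => ¬ C i (f k))
    (hC.rel (Tm.var 0) (Tm.const (f k))).not.S1 hm hB hB2
  have hcanon : Canon a m n0 := by
    refine ⟨hn00, fun n' hn' h0 => ?_⟩
    by_contra hno
    push Not at hno
    exact absurd (hn0min n' h0 fun i hi hPi => hno i hi ((hn0 i hi).2 hPi)) (not_le.2 hn')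
  have h1 : Fam C a m B (f k) n0 := by
    refine ⟨hn0B, hcanon, f k, hle _, fun i hi => ?_⟩
    rw [hn0 i hi]
    constructor
    · intro h v hv huv
      rw [le_antisymm hv huv]
      exact h
    · intro h
      exact h (f k) le_rfl le_rfl
  obtain ⟨_, _, u, hu, hcode⟩ := (hK k hKk n0).1 h1
  obtain ⟨i, hi, hCi⟩ := hfE k
  have hnot : ¬ el m i ∣ n0 := fun h => (hn0 i hi).1 h hCi
  have huK : u ≤ f K := by
    by_contra h
    exact hnot ((hcode i hi).2 fun v hv huv => absurd (huv.trans hv) h)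
  have hnj : ¬ el m j ∣ n0 := fun h => (hcode j hja).1 h (f K) le_rfl huK hjK
  by_contra hC'
  exact hnj ((hn0 j hja).2 hC')

/-- the pigeonhole principle from `SADS` -/
theorem sads_php (hS : PrincipleSADS N) {C : N.M → N.M → Prop}
    (hC : D0 (fun v => C (v 0) (v 1))) (a : N.M)
    (hinf : ∀ b, ∃ t, b ≤ t ∧ ∃ j, j < a ∧ C j t) :
    ∃ j, j < a ∧ ∀ b, ∃ t, b ≤ t ∧ C j t := by
  by_contra hcon
  push Not at hcon
  obtain ⟨b, hb⟩ := sads_bounding hS hC a hcon
  obtain ⟨t, ht, j, hj, h⟩ := hinf b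
  exact hb t ht j hj h

end Pool.Agent.Helper617.RM
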