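import Mathlib
import Pool.Agent.Helper617.RM.SadsBounding

namespace Pool.Agent.Helper617.RM

universe u

set_option linter.unusedSectionVars false
set_option linter.unusedVariables false

variable {N : L2Structure.{u}} [IsModelRCA0 N]

open IsModelRCA0

/-- `(m, c, b)` codes a set of pairs which is closed backwards under the recursion -/
def Good (G : N.M → N.M) (a m c b : N.M) : Prop :=
  ∀ i, i < b → ∀ w, w < b → el m (pr i w) ∣ c →
    (i = 0 → w = a) ∧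
      ∀ i', i' < i → i = i' + 1 → ∃ w', w' < b ∧ (el m (pr i' w') ∣ c ∧ w = G w')

theorem good_D0 {G : N.M → N.M} (hG : D0 (fun v => v 1 = G (v 0))) (a : N.M)
    {sm sc sb : Ctx N → N.M} (hm : Tm sm) (hc : Tm sc) (hb : Tm sb) :
    D0 (fun v => Good G a (sm v) (sc v) (sb v)) := by
  have hG' : ∀ {s t : Ctx N → N.M}, Tm s → Tm t → D0 (fun v => t v = G (s v)) :=
    fun hs ht => D0.rel (R := fun k x => x = G k) hG hs ht
  refine D0.ball hb (D0.ball hb.tail (D0.imp ?_ (D0.and (D0.imp ?_ ?_) (D0.ball (Tm.var 1)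
    (D0.imp ?_ (D0.bex hb.tail.tail.tail (D0.and ?_ ?_)))))))
  · exact D0.dvd (Tm.el hm.tail.tail ((Tm.var 1).pr (Tm.var 0))) hc.tail.tail
  · exact D0.eq (Tm.var 1) Tm.zero
  · exact D0.eq (Tm.var 0) (Tm.const a)
  · exact D0.eq (Tm.var 2) ((Tm.var 0).add Tm.one)
  · exact D0.dvd (Tm.el hm.tail.tail.tail.tail ((Tm.var 1).pr (Tm.var 0))) hc.tail.tail.tail.tail
  · exact hG' (Tm.var 0) (Tm.var 2)

/-- the `n`-th value is `y` -/
def Gam (G : N.M → N.M) (a n y : N.M) : Prop :=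
  ∃ m c b, Good G a m c b ∧ n < b ∧ y < b ∧ el m (pr n y) ∣ c

theorem gam_S1 {G : N.M → N.M} (hG : D0 (fun v => v 1 = G (v 0))) (a : N.M) :
    S1 (fun v => Gam G a (v 0) (v 1)) := by
  refine S1.ex (S1.ex (S1.ex (D0.S1 (D0.and (good_D0 hG a (Tm.var 2) (Tm.var 1) (Tm.var 0))
    (D0.and (D0.lt (Tm.var 3) (Tm.var 0)) (D0.and (D0.lt (Tm.var 4) (Tm.var 0)) ?_))))))
  exact D0.dvd (Tm.el (Tm.var 2) ((Tm.var 3).pr (Tm.var 4))) (Tm.var 1)

theorem good_unique {G : N.M → N.M} (hG : D0 (fun v => v 1 = G (v 0))) {a m c b m' c' b' : N.M}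
    (h : Good G a m c b) (h' : Good G a m' c' b') (i : N.M) :
    ∀ w, w < b → ∀ w', w' < b' → i < b → i < b' → el m (pr i w) ∣ c → el m' (pr i w') ∣ c' →
      w = w' := by
  refine ind_D0 (P := fun i => ∀ w, w < b → ∀ w', w' < b' → i < b → i < b' →
    el m (pr i w) ∣ c → el m' (pr i w') ∣ c' → w = w') ?_ ?_ ?_ i
  · refine D0.ball (Tm.const b) (D0.ball (Tm.const b') (D0.imp (D0.lt (Tm.var 2) (Tm.const b))
      (D0.imp (D0.lt (Tm.var 2) (Tm.const b')) (D0.imp ?_ (D0.imp ?_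
        (D0.eq (Tm.var 1) (Tm.var 0)))))))
    · exact D0.dvd (Tm.el (Tm.const m) ((Tm.var 2).pr (Tm.var 1))) (Tm.const c)
    · exact D0.dvd (Tm.el (Tm.const m') ((Tm.var 2).pr (Tm.var 0))) (Tm.const c')
  · intro w hw w' hw' h0 h0' h1 h2
    rw [(h 0 h0 w hw h1).1 rfl, (h' 0 h0' w' hw' h2).1 rfl]
  · intro i ih w hw w' hw' hi hi' h1 h2
    have hlt : i < i + 1 := lt_add_one_iff'.2 le_rfl
    obtain ⟨x, hx, hx1, hx2⟩ := (h (i + 1) hi w hw h1).2 i hlt rfl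
    obtain ⟨x', hx', hx1', hx2'⟩ := (h' (i + 1) hi' w' hw' h2).2 i hlt rfl
    rw [hx2, hx2', ih x hx x' hx' (hlt.trans hi) (hlt.trans hi') hx1 hx1']

theorem gam_unique {G : N.M → N.M} (hG : D0 (fun v => v 1 = G (v 0))) {a n y y' : N.M}
    (h : Gam G a n y) (h' : Gam G a n y') : y = y' := by
  obtain ⟨m, c, b, h1, h2, h3, h4⟩ := h
  obtain ⟨m', c', b', h1', h2', h3', h4'⟩ := h'
  exact good_unique hG h1 h1' n y h3 y' h3' h2 h2' h4 h4'

theorem pr_lt_of_lt {i w b : N.M} (hi : i < b) (hw : w < b) : pr i w < pr b b :=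
  pr_lt_pr (add_lt_add hi hw)

theorem gam_zero {G : N.M → N.M} (a : N.M) : Gam G a 0 a := by
  obtain ⟨m, hm⟩ := exists_base (pr (a + 1) (a + 1))
  obtain ⟨B, hB, hB2⟩ := exists_top (pr (a + 1) (a + 1)) m
  obtain ⟨c, _, _, hc, _⟩ := exists_code (P := fun p => p = pr 0 a)
    (D0.eq (Tm.var 0) (Tm.const (pr 0 a))).S1 hm hB hB2
  have h0 : (0 : N.M) < a + 1 := lt_add_one_iff'.2 (zero_le' a)
  have ha : a < a + 1 := lt_add_one_iff'.2 le_rfl
  refine ⟨m, c, a + 1, fun i hi w hw hd => ?_, h0, ha, (hc _ (pr_lt_of_lt h0 ha)).2 rfl⟩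
  obtain ⟨rfl, rfl⟩ := pr_inj ((hc _ (pr_lt_of_lt hi hw)).1 hd)
  exact ⟨fun _ => rfl, fun i' hi' => absurd hi' (not_lt_of_ge (zero_le' i'))⟩

theorem gam_succ {G : N.M → N.M} {a n y : N.M} (h : Gam G a n y) : Gam G a (n + 1) (G y) := by
  obtain ⟨m, c, b, hg, hn, hy, hd⟩ := h
  set b' := max b (max (n + 1 + 1) (G y + 1)) with hb'
  have hbb' : b ≤ b' := le_max_left _ _
  have hnb' : n + 1 < b' := lt_of_lt_of_le (lt_add_one_iff'.2 le_rfl)
    ((le_max_left _ _).trans (le_max_right _ _))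
  have hyb' : G y < b' := lt_of_lt_of_le (lt_add_one_iff'.2 le_rfl)
    ((le_max_right _ _).trans (le_max_right _ _))
  obtain ⟨m', hm'⟩ := exists_base (pr b' b')
  obtain ⟨B, hB, hB2⟩ := exists_top (pr b' b') m'
  obtain ⟨c', _, _, hc', _⟩ := exists_code
    (P := fun p => (∃ i, i < b ∧ ∃ w, w < b ∧ (p = pr i w ∧ el m p ∣ c)) ∨ p = pr (n + 1) (G y))
    (D0.or (D0.bex (Tm.const b) (D0.bex (Tm.const b) (D0.and
      (D0.eq (Tm.var 2) ((Tm.var 1).pr (Tm.var 0)))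
      (D0.dvd (Tm.el (Tm.const m) (Tm.var 2)) (Tm.const c)))))
      (D0.eq (Tm.var 0) (Tm.const _))).S1 hm' hB hB2
  refine ⟨m', c', b', ?_, hnb', hyb', (hc' _ (pr_lt_of_lt hnb' hyb')).2 (Or.inr rfl)⟩
  intro i hi w hw hdiv
  rcases (hc' _ (pr_lt_of_lt hi hw)).1 hdiv with ⟨i1, hi1, w1, hw1, he, hd1⟩ | he
  · obtain ⟨rfl, rfl⟩ := pr_inj he
    obtain ⟨g1, g2⟩ := hg i hi1 w hw1 hd1
    refine ⟨g1, fun i' hi' hii' => ?_⟩
    obtain ⟨w', hw', hd', hww'⟩ := g2 i' hi' hii'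
    refine ⟨w', lt_of_lt_of_le hw' hbb', (hc' _ (pr_lt_of_lt (hi'.trans hi)
      (lt_of_lt_of_le hw' hbb'))).2 (Or.inl ⟨i', hi'.trans hi1, w', hw', rfl, hd'⟩), hww'⟩
  · obtain ⟨rfl, rfl⟩ := pr_inj he
    refine ⟨fun h0 => absurd h0 (succ_ne_zero' n), fun i' hi' hii' => ?_⟩
    have : n = i' := add_cancel' hii'
    subst this
    exact ⟨y, lt_of_lt_of_le hy hbb', (hc' _ (pr_lt_of_lt (lt_of_lt_of_le hn hbb')
      (lt_of_lt_of_le hy hbb'))).2 (Or.inl ⟨n, hn, y, hy, rfl, hd⟩), rfl⟩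

theorem gam_exists {G : N.M → N.M} (hG : D0 (fun v => v 1 = G (v 0))) (a n : N.M) :
    ∃ y, Gam G a n y := by
  refine ind_S1 (P := fun n => ∃ y, Gam G a n y) ?_ ⟨a, gam_zero a⟩
    (fun n ⟨y, hy⟩ => ⟨G y, gam_succ hy⟩) n
  exact S1.ex (S1.rel (gam_S1 hG a) (Tm.var 1) (Tm.var 0))

/-- definition by primitive recursion in a model of `RCA₀` -/
theorem exists_recursion {G : N.M → N.M} (hG : D0 (fun v => v 1 = G (v 0))) (a : N.M) :
    ∃ f : N.M → N.M, D0 (fun v => v 1 = f (v 0)) ∧ f 0 = a ∧ ∀ n, f (n + 1) = G (f n) := by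
  choose f hf using gam_exists hG a
  have key : ∀ n y, y = f n ↔ Gam G a n y := fun n y =>
    ⟨fun h => h ▸ hf n, fun h => gam_unique hG h (hf n)⟩
  refine ⟨f, ?_, gam_unique hG (hf 0) (gam_zero a), fun n =>
    gam_unique hG (hf (n + 1)) (gam_succ (hf n))⟩
  refine d0_of_D1 (R := fun n y => y = f n) ?_ ?_
  · exact (gam_S1 hG a).congr fun v => (key _ _).symm
  · refine S1.congr (R := fun v => ∃ z, Gam G a (v 0) z ∧ ¬ v 1 = z) ?_ fun v => ?_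
    · exact S1.ex (S1.and (S1.rel (gam_S1 hG a) (Tm.var 1) (Tm.var 0))
        (D0.eq (Tm.var 2) (Tm.var 0)).not.S1)
    · constructor
      · rintro ⟨z, hz, hne⟩ h
        exact hne (h.trans ((key _ _).2 hz).symm)
      · intro h
        exact ⟨f (v 0), hf _, h⟩

end Pool.Agent.Helper617.RM
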