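import Mathlib
import Pool.Agent.Helper617.RM.Recursion
import Pool.Agent.Helper617.RM.RadoDefs

namespace Pool.Agent.Helper617.RM

universe u

set_option linter.unusedSectionVars false
set_option linter.unusedVariables false

variable {N : L2Structure.{u}} [IsModelRCA0 N]

open IsModelRCA0

/-- membership in the set coded by `p` -/
def MemC (i p : N.M) : Prop :=
  ∃ k, k ≤ p ∧ ∃ m, m ≤ p ∧ ∃ n, n ≤ p ∧ (p = pr k (pr m n) ∧ (i < k ∧ el m i ∣ n))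

/-- `p` is of the shape of a code -/
def Shape (p : N.M) : Prop := ∃ k, k ≤ p ∧ ∃ m, m ≤ p ∧ ∃ n, n ≤ p ∧ p = pr k (pr m n)

theorem MemC_D0 {s t : Ctx N → N.M} (hs : Tm s) (ht : Tm t) : D0 (fun v => MemC (s v) (t v)) := by
  refine D0.bexLe ht (D0.bexLe ht.tail (D0.bexLe ht.tail.tail (D0.and ?_ (D0.and ?_ ?_))))
  · exact D0.eq ht.tail.tail.tail ((Tm.var 2).pr ((Tm.var 1).pr (Tm.var 0)))
  · exact D0.lt hs.tail.tail.tail (Tm.var 2)
  · exact D0.dvd (Tm.el (Tm.var 1) hs.tail.tail.tail) (Tm.var 0)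

theorem Shape_D0 {t : Ctx N → N.M} (ht : Tm t) : D0 (fun v => Shape (t v)) := by
  refine D0.bexLe ht (D0.bexLe ht.tail (D0.bexLe ht.tail.tail ?_))
  exact D0.eq ht.tail.tail.tail ((Tm.var 2).pr ((Tm.var 1).pr (Tm.var 0)))

theorem MemC_pr {i k m n : N.M} : MemC i (pr k (pr m n)) ↔ i < k ∧ el m i ∣ n := by
  constructor
  · rintro ⟨k', _, m', _, n', _, he, h⟩
    obtain ⟨h1, he⟩ := pr_inj he
    obtain ⟨h2, h3⟩ := pr_inj he
    rw [h1, h2, h3]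
    exact h
  · intro h
    exact ⟨k, fst_le_pr _ _, m, (fst_le_pr _ _).trans (snd_le_pr _ _), n,
      (snd_le_pr _ _).trans (snd_le_pr _ _), rfl, h⟩

theorem Shape_pr (k m n : N.M) : Shape (pr k (pr m n)) :=
  ⟨k, fst_le_pr _ _, m, (fst_le_pr _ _).trans (snd_le_pr _ _), n,
      (snd_le_pr _ _).trans (snd_le_pr _ _), rfl⟩

theorem MemC.lt {i p : N.M} (h : MemC i p) : i < p := by
  obtain ⟨k, hk, m, _, n, _, he, hi, _⟩ := h
  exact lt_of_lt_of_le hi hk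

theorem codes_iff {p : N.M} {F : Set N.M} : Codes N p F ↔ Shape p ∧ ∀ i, i ∈ F ↔ MemC i p := by
  constructor
  · rintro ⟨k, m, n, he, h⟩
    have he' : p = pr k (pr m n) := he
    subst he'
    refine ⟨Shape_pr _ _ _, fun i => ?_⟩
    rw [MemC_pr]
    exact h i
  · rintro ⟨⟨k, _, m, _, n, _, he⟩, h⟩
    subst he
    refine ⟨k, m, n, rfl, fun i => ?_⟩
    rw [h i, MemC_pr]
    exact Iff.rfl

/-- `p` is the least code of the set that it codes -/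
def IsC (p : N.M) : Prop :=
  Shape p ∧ ∀ p', p' < p → Shape p' → ∃ i, i < p ∧ ¬ (MemC i p ↔ MemC i p')

theorem IsC_D0 {t : Ctx N → N.M} (ht : Tm t) : D0 (fun v => IsC (t v)) := by
  refine D0.and (Shape_D0 ht) (D0.ball ht (D0.imp (Shape_D0 (Tm.var 0)) (D0.bex ht.tail
    (D0.not (D0.iff (MemC_D0 (Tm.var 0) ht.tail.tail) (MemC_D0 (Tm.var 0) (Tm.var 1)))))))

theorem isCode_iff {p : N.M} {F : Set N.M} :
    IsCode N p F ↔ IsC p ∧ ∀ i, i ∈ F ↔ MemC i p := by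
  unfold IsCode IsC
  rw [codes_iff]
  constructor
  · rintro ⟨⟨h1, h2⟩, h3⟩
    refine ⟨⟨h1, fun p' hp' hs => ?_⟩, h2⟩
    by_contra hcon
    push Not at hcon
    refine h3 p' hp' (codes_iff.2 ⟨hs, fun i => ?_⟩)
    rw [h2 i]
    by_cases hi : i < p
    · exact hcon i hi
    · exact ⟨fun h => absurd h.lt hi, fun h => absurd (h.lt.trans hp') hi⟩
  · rintro ⟨⟨h1, h2⟩, h3⟩
    refine ⟨⟨h1, h3⟩, fun p' hp' hc => ?_⟩
    obtain ⟨hs, hc⟩ := codes_iff.1 hc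
    obtain ⟨i, _, hi⟩ := h2 p' hp' hs
    exact hi ((h3 i).symm.trans (hc i))

theorem IsCode.unique {p p' : N.M} {F : Set N.M} (h : IsCode N p F) (h' : IsCode N p' F) :
    p = p' := by
  rcases lt_trichotomy p p' with h1 | h1 | h1
  · exact absurd h.1 (h'.2 p h1)
  · exact h1
  · exact absurd h'.1 (h.2 p' h1)

theorem IsCode.set_unique {p : N.M} {F F' : Set N.M} (h : IsCode N p F) (h' : IsCode N p F') :
    F = F' := by
  ext i
  rw [(isCode_iff.1 h).2 i, (isCode_iff.1 h').2 i]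

/-- every finite set of the model has a code -/
theorem exists_isCode {F : Set N.M} (hF : F ∈ N.Sets) (hfin : IsFin N F) :
    ∃ p, IsCode N p F := by
  obtain ⟨b, hb⟩ := hfin
  obtain ⟨m, hm⟩ := exists_base b
  obtain ⟨B, hB, hB2⟩ := exists_top b m
  obtain ⟨n, _, _, hn, _⟩ := exists_code (P := fun i => i ∈ F) (D0.mem (Tm.var 0) hF).S1 hm hB hB2
  have h1 : Shape (pr b (pr m n)) ∧ ∀ i, i < b + 1 + pr b (pr m n) →
      (i ∈ F ↔ MemC i (pr b (pr m n))) := by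
    refine ⟨Shape_pr _ _ _, fun i _ => ?_⟩
    rw [MemC_pr]
    exact ⟨fun h => ⟨hb i h, (hn i (hb i h)).2 h⟩, fun h => (hn i h.1).1 h.2⟩
  obtain ⟨p, _, ⟨hp1, hp2⟩, hmin⟩ := lnp_D0
    (P := fun p => Shape p ∧ ∀ i, i < b + 1 + p → (i ∈ F ↔ MemC i p))
    (D0.and (Shape_D0 (Tm.var 0)) (D0.ball ((Tm.const (b + 1)).add (Tm.var 0)) (D0.iff
      (D0.mem (Tm.var 0) hF) (MemC_D0 (Tm.var 0) (Tm.var 1))))) _ h1
  have hext : ∀ p, (∀ i, i < b + 1 + p → (i ∈ F ↔ MemC i p)) → ∀ i, i ∈ F ↔ MemC i p := by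
    intro p h i
    by_cases hi : i < b + 1 + p
    · exact h i hi
    · refine ⟨fun hiF => absurd ?_ hi, fun h => absurd ?_ hi⟩
      · calc i < b := hb i hiF
          _ ≤ b + 1 := le_add_of_nonneg_right (zero_le' _)
          _ ≤ b + 1 + p := le_add_of_nonneg_right (zero_le' _)
      · exact lt_of_lt_of_le h.lt (le_add_of_nonneg_left (zero_le' _))
  refine ⟨p, codes_iff.2 ⟨hp1, hext p hp2⟩, fun p' hp' hc => ?_⟩
  obtain ⟨h3, h4⟩ := codes_iff.1 hc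
  exact hmin p' hp' ⟨h3, fun i _ => h4 i⟩

theorem isC_set {p : N.M} (h : IsC p) : {i | MemC i p} ∈ N.Sets ∧ IsFin N {i | MemC i p} ∧
    IsCode N p {i | MemC i p} :=
  ⟨comp_D0 (P := fun i => MemC i p) (MemC_D0 (Tm.var 0) (Tm.const p)),
    ⟨p, fun i hi => MemC.lt hi⟩, isCode_iff.2 ⟨h, fun i => Iff.rfl⟩⟩

end Pool.Agent.Helper617.RM
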