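import Mathlib
import Pool.Agent.Helper617.RM.FinCodes
import Pool.Agent.Helper617.RM.HLDefs

namespace Pool.Agent.Helper617.RM

universe u

set_option linter.unusedSectionVars false
set_option linter.unusedVariables false

variable {N : L2Structure.{u}} [IsModelRCA0 N]

open IsModelRCA0

/-- the code `u` codes a sequence of length `n` -/
def IsSq (u n : N.M) : Prop :=
  IsC u ∧ (∀ r, r < u → MemC r u → ∃ i, i < n ∧ ∃ z, z < u ∧ r = pr i z) ∧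
    (∀ i, i < n → ∃ z, z < u ∧ MemC (pr i z) u) ∧
    (∀ i, i < n → ∀ z, z < u → ∀ z', z' < u → MemC (pr i z) u → MemC (pr i z') u → z = z')

theorem IsSq_D0 {s t : Ctx N → N.M} (hs : Tm s) (ht : Tm t) :
    D0 (fun v => IsSq (s v) (t v)) := by
  refine D0.and (IsC_D0 hs) (D0.and (D0.ball hs (D0.imp ?_ (D0.bex ht.tail (D0.bex hs.tail.tail ?_))))
    (D0.and (D0.ball ht (D0.bex hs.tail ?_)) (D0.ball ht (D0.ball hs.tail (D0.ball hs.tail.tail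
      (D0.imp ?_ (D0.imp ?_ ?_)))))))
  · exact MemC_D0 (Tm.var 0) hs.tail
  · exact D0.eq (Tm.var 2) ((Tm.var 1).pr (Tm.var 0))
  · exact MemC_D0 ((Tm.var 1).pr (Tm.var 0)) hs.tail.tail
  · exact MemC_D0 ((Tm.var 2).pr (Tm.var 1)) hs.tail.tail.tail
  · exact MemC_D0 ((Tm.var 2).pr (Tm.var 0)) hs.tail.tail.tail
  · exact D0.eq (Tm.var 1) (Tm.var 0)

theorem MemC.snd_lt {i z u : N.M} (h : MemC (pr i z) u) : z < u :=
  lt_of_le_of_lt (snd_le_pr i z) h.lt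

theorem MemC.fst_lt {i z u : N.M} (h : MemC (pr i z) u) : i < u :=
  lt_of_le_of_lt (fst_le_pr i z) h.lt

theorem IsSq.ex {u n i : N.M} (h : IsSq u n) (hi : i < n) : ∃ z, MemC (pr i z) u := by
  obtain ⟨z, _, hz⟩ := h.2.2.1 i hi
  exact ⟨z, hz⟩

theorem IsSq.mem {u n r : N.M} (h : IsSq u n) (hr : MemC r u) : ∃ i z, i < n ∧ r = pr i z := by
  obtain ⟨i, hi, z, _, e⟩ := h.2.1 r hr.lt hr
  exact ⟨i, z, hi, e⟩

theorem IsSq.lt {u n i z : N.M} (h : IsSq u n) (hr : MemC (pr i z) u) : i < n := by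
  obtain ⟨i', z', hi, e⟩ := h.mem hr
  rw [(pr_inj e).1]
  exact hi

theorem IsSq.fn {u n i z z' : N.M} (h : IsSq u n) (h1 : MemC (pr i z) u)
    (h2 : MemC (pr i z') u) : z = z' :=
  h.2.2.2 i (h.lt h1) z h1.snd_lt z' h2.snd_lt h1 h2

theorem isSq_of {u n : N.M} (hc : IsC u) (h1 : ∀ r, MemC r u → ∃ i z, i < n ∧ r = pr i z)
    (h2 : ∀ i, i < n → ∃ z, MemC (pr i z) u)
    (h3 : ∀ i z z', MemC (pr i z) u → MemC (pr i z') u → z = z') : IsSq u n := by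
  refine ⟨hc, fun r _ hr => ?_, fun i hi => ?_, fun i _ z _ z' _ a b => h3 i z z' a b⟩
  · obtain ⟨i, z, hi, e⟩ := h1 r hr
    subst e
    exact ⟨i, hi, z, hr.snd_lt, rfl⟩
  · obtain ⟨z, hz⟩ := h2 i hi
    exact ⟨z, hz.snd_lt, hz⟩

/-- uniqueness of codes -/
theorem isC_ext {u u' : N.M} (h : IsC u) (h' : IsC u') (he : ∀ r, MemC r u ↔ MemC r u') :
    u = u' := by
  have h1 := (isC_set h).2.2
  have h2 := (isC_set h').2.2
  have h3 : {i | MemC i u} = {i | MemC i u'} := by ext i; exact he i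
  rw [h3] at h1
  exact h1.unique h2

theorem IsSq.len_le {u n : N.M} (h : IsSq u n) : n ≤ u := by
  rcases eq_zero_or_succ n with rfl | ⟨m, rfl⟩
  · exact zero_le' _
  · obtain ⟨z, hz⟩ := h.ex (lt_add_one_iff'.2 le_rfl)
    exact add_one_le_iff'.2 hz.fst_lt

theorem IsSq.len_unique {u n m : N.M} (h : IsSq u n) (h' : IsSq u m) : n = m := by
  rcases lt_trichotomy n m with hlt | rfl | hlt
  · obtain ⟨z, hz⟩ := h'.ex hlt
    exact absurd (h.lt hz) (lt_irrefl _)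
  · rfl
  · obtain ⟨z, hz⟩ := h.ex hlt
    exact absurd (h'.lt hz) (lt_irrefl _)

theorem isSeq_iff {u n : N.M} {f : N.M → N.M} :
    IsSeq N u n f ↔ IsSq u n ∧ ∀ i, i < n → MemC (pr i (f i)) u := by
  unfold IsSeq
  rw [isCode_iff]
  have e : ∀ r, r ∈ {r | ∃ i, N.lt i n ∧ r = N.pair i (f i)} ↔ ∃ i, i < n ∧ r = pr i (f i) :=
    fun r => Iff.rfl
  constructor
  · rintro ⟨h1, h2⟩
    refine ⟨isSq_of h1 (fun r hr => ?_) (fun i hi => ⟨f i, ?_⟩) fun i z z' a b => ?_,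
      fun i hi => ?_⟩
    · obtain ⟨i, hi, e⟩ := (e r).1 ((h2 r).2 hr)
      exact ⟨i, _, hi, e⟩
    · exact (h2 _).1 ⟨i, hi, rfl⟩
    · obtain ⟨i1, _, e1⟩ := (e _).1 ((h2 _).2 a)
      obtain ⟨i2, _, e2⟩ := (e _).1 ((h2 _).2 b)
      obtain ⟨a1, a2⟩ := pr_inj e1
      obtain ⟨b1, b2⟩ := pr_inj e2
      rw [a2, b2, ← a1, ← b1]
    · exact (h2 _).1 ⟨i, hi, rfl⟩
  · rintro ⟨h1, h2⟩
    refine ⟨h1.1, fun r => ?_⟩
    rw [e]
    constructor
    · rintro ⟨i, hi, rfl⟩; exact h2 i hi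
    · intro hr
      obtain ⟨i, z, hi, rfl⟩ := h1.mem hr
      exact ⟨i, hi, by rw [h1.fn hr (h2 i hi)]⟩

theorem hasLen_iff {u n : N.M} : HasLen N u n ↔ IsSq u n := by
  constructor
  · rintro ⟨f, hf⟩; exact (isSeq_iff.1 hf).1
  · intro h
    classical
    refine ⟨fun i => if hi : i < n then Classical.choose (h.ex hi) else 0, isSeq_iff.2 ⟨h, ?_⟩⟩
    intro i hi
    simp only [dif_pos hi]
    exact Classical.choose_spec (h.ex hi)

/-- `u` codes a sequence -/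
def Sq (u : N.M) : Prop := ∃ n, n ≤ u ∧ IsSq u n

theorem Sq_D0 {s : Ctx N → N.M} (hs : Tm s) : D0 (fun v => Sq (s v)) :=
  D0.bexLe hs (IsSq_D0 hs.tail (Tm.var 0))

theorem IsSq.sq {u n : N.M} (h : IsSq u n) : Sq u := ⟨n, h.len_le, h⟩

/-- initial segments -/
def Ini (s t : N.M) : Prop := Sq s ∧ Sq t ∧ ∀ r, r < s → MemC r s → MemC r t

theorem Ini_D0 {s t : Ctx N → N.M} (hs : Tm s) (ht : Tm t) : D0 (fun v => Ini (s v) (t v)) :=
  D0.and (Sq_D0 hs) (D0.and (Sq_D0 ht) (D0.ball hs (D0.imp (MemC_D0 (Tm.var 0) hs.tail)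
    (MemC_D0 (Tm.var 0) ht.tail))))

theorem Ini.mem {s t r : N.M} (h : Ini s t) (hr : MemC r s) : MemC r t := h.2.2 r hr.lt hr

theorem ini_of {s t : N.M} (hs : Sq s) (ht : Sq t) (h : ∀ r, MemC r s → MemC r t) : Ini s t :=
  ⟨hs, ht, fun r _ => h r⟩

theorem Ini.refl {s : N.M} (hs : Sq s) : Ini s s := ini_of hs hs fun _ h => h

theorem Ini.trans {s t u : N.M} (h : Ini s t) (h' : Ini t u) : Ini s u :=
  ini_of h.1 h'.2.1 fun _ hr => h'.mem (h.mem hr)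

theorem Ini.len_le {s t n m : N.M} (h : Ini s t) (hs : IsSq s n) (ht : IsSq t m) : n ≤ m := by
  by_contra hcon
  push Not at hcon
  obtain ⟨z, hz⟩ := hs.ex hcon
  exact absurd (ht.lt (h.mem hz)) (lt_irrefl _)

theorem Ini.eq {s t n : N.M} (h : Ini s t) (hs : IsSq s n) (ht : IsSq t n) : s = t := by
  refine isC_ext hs.1 ht.1 fun r => ⟨h.mem, fun hr => ?_⟩
  obtain ⟨i, z, hi, rfl⟩ := ht.mem hr
  obtain ⟨z', hz'⟩ := hs.ex hi
  rw [ht.fn hr (h.mem hz')]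
  exact hz'

/-- two initial segments of the same sequence -/
theorem Ini.comp {s s' t n m : N.M} (h : Ini s t) (h' : Ini s' t) (hs : IsSq s n)
    (hs' : IsSq s' m) (hnm : n ≤ m) : Ini s s' := by
  obtain ⟨k, _, ht⟩ := h.2.1
  refine ini_of hs.sq hs'.sq fun r hr => ?_
  obtain ⟨i, z, hi, rfl⟩ := hs.mem hr
  obtain ⟨z', hz'⟩ := hs'.ex (lt_of_lt_of_le hi hnm)
  rw [ht.fn (h.mem hr) (h'.mem hz')]
  exact hz'

theorem exists_isC {P : N.M → Prop} (hP : D0 (fun v => P (v 0))) {b : N.M}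
    (hb : ∀ r, P r → r < b) : ∃ u, IsC u ∧ ∀ r, MemC r u ↔ P r := by
  obtain ⟨u, hu⟩ := exists_isCode (comp_D0 hP) ⟨b, hb⟩
  obtain ⟨h1, h2⟩ := isCode_iff.1 hu
  exact ⟨u, h1, fun r => (h2 r).symm⟩

/-- restriction -/
theorem exists_res {t m n : N.M} (ht : IsSq t m) (hn : n ≤ m) : ∃ s, IsSq s n ∧ Ini s t := by
  obtain ⟨s, h1, h2⟩ := exists_isC
    (P := fun r => MemC r t ∧ ∃ i, i < n ∧ ∃ z, z < t ∧ r = pr i z) (by
      refine D0.and (MemC_D0 (Tm.var 0) (Tm.const t)) (D0.bex (Tm.const n) (D0.bex (Tm.const t) ?_))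
      exact D0.eq (Tm.var 2) ((Tm.var 1).pr (Tm.var 0))) (b := t) (fun r hr => hr.1.lt)
  have hs : IsSq s n := by
    refine isSq_of h1 (fun r hr => ?_) (fun i hi => ?_) fun i z z' a b => ?_
    · obtain ⟨_, i, hi, z, _, e⟩ := (h2 r).1 hr
      exact ⟨i, z, hi, e⟩
    · obtain ⟨z, hz⟩ := ht.ex (lt_of_lt_of_le hi hn)
      exact ⟨z, (h2 _).2 ⟨hz, i, hi, z, hz.snd_lt, rfl⟩⟩
    · exact ht.fn ((h2 _).1 a).1 ((h2 _).1 b).1
  exact ⟨s, hs, ini_of hs.sq ht.sq fun r hr => ((h2 r).1 hr).1⟩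

theorem res_unique {t n s s' : N.M} (hs : IsSq s n) (hs' : IsSq s' n) (h : Ini s t)
    (h' : Ini s' t) : s = s' := (h.comp h' hs hs' le_rfl).eq hs hs'

/-- appending an entry -/
theorem exists_app {s n : N.M} (hs : IsSq s n) (z : N.M) :
    ∃ t, IsSq t (n + 1) ∧ Ini s t ∧ MemC (pr n z) t := by
  obtain ⟨t, h1, h2⟩ := exists_isC
    (P := fun r => MemC r s ∨ r = pr n z) (by
      exact D0.or (MemC_D0 (Tm.var 0) (Tm.const s)) (D0.eq (Tm.var 0) (Tm.const _)))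
    (b := s + (pr n z + 1)) (fun r hr => by
      rcases hr with hr | rfl
      · exact lt_of_lt_of_le hr.lt (le_add_of_nonneg_right (zero_le' _))
      · exact lt_of_lt_of_le (lt_add_one_iff'.2 le_rfl) (le_add_of_nonneg_left (zero_le' _)))
  have ht : IsSq t (n + 1) := by
    refine isSq_of h1 (fun r hr => ?_) (fun i hi => ?_) fun i y y' a b => ?_
    · rcases (h2 r).1 hr with h | rfl
      · obtain ⟨i, y, hi, e⟩ := hs.mem h
        exact ⟨i, y, hi.trans (lt_add_one_iff'.2 le_rfl), e⟩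
      · exact ⟨n, z, lt_add_one_iff'.2 le_rfl, rfl⟩
    · rcases lt_or_eq_of_le (lt_add_one_iff'.1 hi) with hi | rfl
      · obtain ⟨y, hy⟩ := hs.ex hi
        exact ⟨y, (h2 _).2 (Or.inl hy)⟩
      · exact ⟨z, (h2 _).2 (Or.inr rfl)⟩
    · rcases (h2 _).1 a with a | a <;> rcases (h2 _).1 b with b | b
      · exact hs.fn a b
      · obtain ⟨rfl, _⟩ := pr_inj b
        exact absurd (hs.lt a) (lt_irrefl _)
      · obtain ⟨rfl, _⟩ := pr_inj a
        exact absurd (hs.lt b) (lt_irrefl _)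
      · rw [(pr_inj a).2, (pr_inj b).2]
  exact ⟨t, ht, ini_of hs.sq ht.sq fun r hr => (h2 r).2 (Or.inl hr), (h2 _).2 (Or.inr rfl)⟩

theorem app_unique {s n z t t' : N.M} (hs : IsSq s n) (ht : IsSq t (n + 1))
    (ht' : IsSq t' (n + 1)) (h : Ini s t) (h' : Ini s t') (hz : MemC (pr n z) t)
    (hz' : MemC (pr n z) t') : t = t' := by
  have key : ∀ {t t'}, IsSq t (n + 1) → Ini s t → MemC (pr n z) t → Ini s t' →
      MemC (pr n z) t' → ∀ r, MemC r t → MemC r t' := by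
    intro t t' ht h hz h' hz' r hr
    obtain ⟨i, y, hi, rfl⟩ := ht.mem hr
    rcases lt_or_eq_of_le (lt_add_one_iff'.1 hi) with hi | rfl
    · obtain ⟨y', hy'⟩ := hs.ex hi
      rw [ht.fn hr (h.mem hy')]
      exact h'.mem hy'
    · rw [ht.fn hr hz]
      exact hz'
  exact isC_ext ht.1 ht'.1 fun r => ⟨key ht h hz h' hz' r, key ht' h' hz' h hz r⟩

/-- the empty sequence -/
theorem exists_empty : ∃ s : N.M, IsSq s 0 := by
  obtain ⟨s, h1, h2⟩ := exists_isC (N := N) (P := fun _ => False) D0.false (b := 0)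
    (fun r hr => hr.elim)
  exact ⟨s, isSq_of h1 (fun r hr => ((h2 r).1 hr).elim)
    (fun i hi => absurd hi (not_lt_of_ge (zero_le' i))) fun i z z' a => ((h2 _).1 a).elim⟩

theorem ini_iff {s t : N.M} : IsInit N s t ↔ Ini s t := by
  constructor
  · rintro ⟨n, m, f, h1, h2, h3⟩
    obtain ⟨a1, a2⟩ := isSeq_iff.1 h1
    obtain ⟨b1, b2⟩ := isSeq_iff.1 h2
    have hnm : n ≤ m := by
      rcases h3 with h3 | h3
      · exact le_of_lt h3
      · exact le_of_eq h3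
    refine ini_of a1.sq b1.sq fun r hr => ?_
    obtain ⟨i, z, hi, rfl⟩ := a1.mem hr
    rw [a1.fn hr (a2 i hi)]
    exact b2 i (lt_of_lt_of_le hi hnm)
  · intro h
    obtain ⟨n, _, hn⟩ := h.1
    obtain ⟨m, _, hm⟩ := h.2.1
    obtain ⟨f, hf⟩ := hasLen_iff.2 hm
    refine ⟨n, m, f, ?_, hf, lt_or_eq_of_le (h.len_le hn hm)⟩
    refine isSeq_iff.2 ⟨hn, fun i hi => ?_⟩
    obtain ⟨z, hz⟩ := hn.ex hi
    rw [hm.fn ((isSeq_iff.1 hf).2 i (lt_of_lt_of_le hi (h.len_le hn hm))) (h.mem hz)]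
    exact hz

theorem immSucc_iff {s t : N.M} :
    IsImmSucc N s t ↔ Ini s t ∧ ∃ n, IsSq s n ∧ IsSq t (n + 1) := by
  constructor
  · rintro ⟨n, f, h1, h2⟩
    refine ⟨ini_iff.1 ⟨n, n + 1, f, h1, h2, Or.inl (lt_add_one_iff'.2 le_rfl)⟩, n,
      (isSeq_iff.1 h1).1, (isSeq_iff.1 h2).1⟩
  · rintro ⟨h, n, h1, h2⟩
    obtain ⟨f, hf⟩ := hasLen_iff.2 h2
    refine ⟨n, f, isSeq_iff.2 ⟨h1, fun i hi => ?_⟩, hf⟩
    obtain ⟨z, hz⟩ := h1.ex hi
    rw [h2.fn ((isSeq_iff.1 hf).2 i (hi.trans (lt_add_one_iff'.2 le_rfl))) (h.mem hz)]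
    exact hz

end Pool.Agent.Helper617.RM
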