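import Mathlib
import Pool.Agent.Helper617.RM.SadsBounding
import Pool.Agent.Helper617.RM.SeqCodes

namespace Pool.Agent.Helper617.RM

universe u

set_option linter.unusedSectionVars false
set_option linter.unusedVariables false

variable {N : L2Structure.{u}}

open IsModelRCA0

theorem Term.dep (t : Term N) : ∃ K : ℕ, ∀ v v' : Ctx N, (∀ i, i < K → v i = v' i) →
    t.val v = t.val v' := by
  induction t with
  | var i => exact ⟨i + 1, fun v v' h => h i (Nat.lt_succ_self i)⟩
  | const a => exact ⟨0, fun _ _ _ => rfl⟩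
  | zero => exact ⟨0, fun _ _ _ => rfl⟩
  | one => exact ⟨0, fun _ _ _ => rfl⟩
  | add s t hs ht =>
    obtain ⟨K, hK⟩ := hs
    obtain ⟨L, hL⟩ := ht
    refine ⟨max K L, fun v v' h => ?_⟩
    simp only [Term.val]
    rw [hK v v' (fun i hi => h i (lt_of_lt_of_le hi (le_max_left _ _))),
      hL v v' (fun i hi => h i (lt_of_lt_of_le hi (le_max_right _ _)))]
  | mul s t hs ht =>
    obtain ⟨K, hK⟩ := hs
    obtain ⟨L, hL⟩ := ht
    refine ⟨max K L, fun v v' h => ?_⟩
    simp only [Term.val]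
    rw [hK v v' (fun i hi => h i (lt_of_lt_of_le hi (le_max_left _ _))),
      hL v v' (fun i hi => h i (lt_of_lt_of_le hi (le_max_right _ _)))]

theorem Delta0.dep (φ : Delta0 N) : ∃ K : ℕ, ∀ v v' : Ctx N, (∀ i, i < K → v i = v' i) →
    (φ.Holds v ↔ φ.Holds v') := by
  induction φ with
  | eq s t =>
    obtain ⟨K, hK⟩ := s.dep
    obtain ⟨L, hL⟩ := t.dep
    refine ⟨max K L, fun v v' h => ?_⟩
    simp only [Delta0.Holds]
    rw [hK v v' (fun i hi => h i (lt_of_lt_of_le hi (le_max_left _ _))),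
      hL v v' (fun i hi => h i (lt_of_lt_of_le hi (le_max_right _ _)))]
  | lt s t =>
    obtain ⟨K, hK⟩ := s.dep
    obtain ⟨L, hL⟩ := t.dep
    refine ⟨max K L, fun v v' h => ?_⟩
    simp only [Delta0.Holds]
    rw [hK v v' (fun i hi => h i (lt_of_lt_of_le hi (le_max_left _ _))),
      hL v v' (fun i hi => h i (lt_of_lt_of_le hi (le_max_right _ _)))]
  | mem t X =>
    obtain ⟨K, hK⟩ := t.dep
    refine ⟨K, fun v v' h => ?_⟩
    simp only [Delta0.Holds]
    rw [hK v v' h]
  | neg φ ih =>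
    obtain ⟨K, hK⟩ := ih
    exact ⟨K, fun v v' h => not_congr (hK v v' h)⟩
  | and φ ψ ih1 ih2 =>
    obtain ⟨K, hK⟩ := ih1
    obtain ⟨L, hL⟩ := ih2
    refine ⟨max K L, fun v v' h => and_congr
      (hK v v' (fun i hi => h i (lt_of_lt_of_le hi (le_max_left _ _))))
      (hL v v' (fun i hi => h i (lt_of_lt_of_le hi (le_max_right _ _))))⟩
  | ball t φ ih =>
    obtain ⟨K, hK⟩ := t.dep
    obtain ⟨L, hL⟩ := ih
    refine ⟨max K L, fun v v' h => ?_⟩
    simp only [Delta0.Holds]
    rw [hK v v' (fun i hi => h i (lt_of_lt_of_le hi (le_max_left _ _)))]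
    refine forall_congr' fun a => imp_congr Iff.rfl (hL _ _ fun i hi => ?_)
    cases i with
    | zero => rfl
    | succ i => exact h i (lt_of_lt_of_le (Nat.lt_of_succ_lt hi) (le_max_right _ _))

/-- `Σ⁰₁` comprehension -/
class Sig1 (N : L2Structure.{u}) [IsModelRCA0 N] : Prop where
  comp : ∀ P : N.M → Prop, S1 (fun v => P (v 0)) → {k | P k} ∈ N.Sets

section aca

variable [IsModelRCA0 N] [Sig1 N]

theorem S1.toD0_aux (K : ℕ) : ∀ R : Ctx N → Prop, S1 R →
    (∀ v v' : Ctx N, (∀ i, i < K → v i = v' i) → (R v ↔ R v')) → D0 R := by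
  induction K using Nat.strong_induction_on with
  | _ K ih =>
    intro R hR hdep
    match K, ih, hdep with
    | 0, _, hdep =>
      exact (D0.const (R fun _ => 0)).congr fun v => hdep _ _ fun i hi =>
        absurd hi (Nat.not_lt_zero i)
    | 1, _, hdep =>
      have h1 : {k | R (cons k (fun _ => 0))} ∈ N.Sets := Sig1.comp _
        (hR.comp (g := fun v => cons (v 0) (fun _ => 0)) (CM.cons (Tm.var 0) fun _ => Tm.zero))
      refine (D0.mem (Tm.var 0) h1).congr fun v => hdep _ _ fun i hi => ?_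
      obtain rfl : i = 0 := by omega
      rfl
    | K + 2, ih, hdep =>
      have hR' : S1 (fun v => ∃ a, ∃ b, v 0 = pr a b ∧ R (cons a (cons b (tail v)))) := by
        refine S1.ex (S1.ex (S1.and (D0.eq (Tm.var 2) ((Tm.var 1).pr (Tm.var 0))).S1 ?_))
        exact hR.comp (g := fun v => cons (v 1) (cons (v 0) (tail (tail (tail v)))))
          (CM.cons (Tm.var 1) (CM.cons (Tm.var 0) CM.tail.tail'.tail'))
      have hD := ih (K + 1) (Nat.lt_succ_self _) _ hR' (fun v v' h => by
        refine exists_congr fun a => exists_congr fun b => and_congr ?_ ?_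
        · rw [h 0 (Nat.succ_pos K)]
        · refine hdep _ _ fun i hi => ?_
          match i, hi with
          | 0, _ => rfl
          | 1, _ => rfl
          | i + 2, hi => exact h (i + 1) (by omega))
      refine (hD.comp (g := fun v => cons (pr (v 0) (v 1)) (tail (tail v)))
        (CM.cons ((Tm.var 0).pr (Tm.var 1)) CM.tail.tail')).congr fun v => ?_
      constructor
      · rintro ⟨a, b, he, hR⟩
        obtain ⟨h1, h2⟩ := pr_inj he
        rw [← h1, ← h2] at hR
        exact (hdep _ _ fun i hi => by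
          match i with
          | 0 => rfl
          | 1 => rfl
          | i + 2 => rfl).1 hR
      · intro h
        refine ⟨v 0, v 1, rfl, (hdep _ _ fun i hi => ?_).1 h⟩
        match i with
        | 0 => rfl
        | 1 => rfl
        | i + 2 => rfl

/-- in a model of `ACA₀`, `Σ⁰₁` relations are `Δ⁰₀` in set parameters -/
theorem S1.toD0 {R : Ctx N → Prop} (hR : S1 R) : D0 R := by
  obtain ⟨Q, ⟨φ, hφ⟩, hRQ⟩ := hR
  obtain ⟨K, hK⟩ := φ.dep
  refine S1.toD0_aux K R ⟨Q, ⟨φ, hφ⟩, hRQ⟩ fun v v' h => ?_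
  rw [hRQ, hRQ]
  refine exists_congr fun k => ?_
  rw [show Q v k ↔ φ.Holds (cons k v) from (hφ (cons k v)).symm,
    show Q v' k ↔ φ.Holds (cons k v') from (hφ (cons k v')).symm]
  refine hK _ _ fun i hi => ?_
  cases i with
  | zero => rfl
  | succ i => exact h i (Nat.lt_of_succ_lt hi)

theorem D0.ex {P : Ctx N → N.M → Prop} (hP : D0 (fun w => P (RM.tail w) (w 0))) :
    D0 (fun v => ∃ x, P v x) := (S1.ex hP.S1).toD0

theorem D0.all {P : Ctx N → N.M → Prop} (hP : D0 (fun w => P (RM.tail w) (w 0))) :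
    D0 (fun v => ∀ x, P v x) :=
  (D0.ex (P := fun v x => ¬ P v x) hP.not).not.congr fun v => by push Not; rfl

theorem AForm.d0 (φ : AForm N) : D0 (fun v => φ.Holds v) := by
  induction φ with
  | eq s t => exact D0.eq ⟨s, fun _ => rfl⟩ ⟨t, fun _ => rfl⟩
  | lt s t => exact D0.lt ⟨s, fun _ => rfl⟩ ⟨t, fun _ => rfl⟩
  | mem t X => exact D0.mem ⟨t, fun _ => rfl⟩ X.2
  | neg φ ih => exact ih.not
  | and φ ψ ih1 ih2 => exact ih1.and ih2
  | all φ ih =>
    refine D0.all (P := fun v a => φ.Holds (cons a v)) ?_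
    refine ih.congr fun w => ?_
    rw [cons_tail]

theorem arithComp_of_sig1 : ArithComp N := by
  intro φ v
  refine comp_D0 (P := fun n => φ.Holds (cons n v)) ?_
  exact φ.d0.comp (g := fun w => cons (w 0) v) (CM.cons (Tm.var 0) fun i => Tm.const (v i))

end aca

/-- arithmetical relations -/
def AD (R : Ctx N → Prop) : Prop := ∃ φ : AForm N, ∀ v, φ.Holds v ↔ R v

theorem AD.of_Delta0 [IsModelRCA0 N] (φ : Delta0 N) : AD (fun v => φ.Holds v) := by
  induction φ with
  | eq s t => exact ⟨.eq s t, fun _ => Iff.rfl⟩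
  | lt s t => exact ⟨.lt s t, fun _ => Iff.rfl⟩
  | mem t X => exact ⟨.mem t X, fun _ => Iff.rfl⟩
  | neg φ ih =>
    obtain ⟨ψ, hψ⟩ := ih
    exact ⟨.neg ψ, fun v => not_congr (hψ v)⟩
  | and φ ψ ih1 ih2 =>
    obtain ⟨φ', h1⟩ := ih1
    obtain ⟨ψ', h2⟩ := ih2
    exact ⟨.and φ' ψ', fun v => and_congr (h1 v) (h2 v)⟩
  | ball t φ ih =>
    obtain ⟨ψ, hψ⟩ := ih
    refine ⟨.all (.neg (.and (.lt (.var 0) (t.subst fun i => .var (i + 1))) (.neg ψ))),
      fun v => ?_⟩
    simp only [AForm.Holds, Delta0.Holds, Term.val_subst]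
    refine forall_congr' fun a => ?_
    rw [not_and, not_not]
    exact imp_congr Iff.rfl (hψ _)

theorem sig1_of_arithComp [IsModelRCA0 N] (h : ArithComp N) : Sig1 N := by
  refine ⟨fun P hP => ?_⟩
  obtain ⟨Q, ⟨φ, hφ⟩, hPQ⟩ := hP
  obtain ⟨ψ, hψ⟩ := AD.of_Delta0 φ
  have := h (.neg (.all (.neg ψ))) (fun _ => 0)
  convert this using 1
  ext k
  simp only [AForm.Holds, hψ, hφ, not_forall, not_not]
  exact hPQ (cons k fun _ => 0)

end Pool.Agent.Helper617.RM
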