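import Mathlib
import Pool.Agent.Helper617.RM.ACA
import Pool.Agent.Helper617.RM.Recursion

namespace Pool.Agent.Helper617.RM

universe u

set_option linter.unusedSectionVars false
set_option linter.unusedVariables false

variable {N : L2Structure.{u}} [IsModelRCA0 N]

open IsModelRCA0

/-! ### substitution lemmas for more variables -/

theorem D0.rel3 {R : N.M → N.M → N.M → Prop} (h : D0 (fun v => R (v 0) (v 1) (v 2)))
    {s t u : Ctx N → N.M} (hs : Tm s) (ht : Tm t) (hu : Tm u) :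
    D0 (fun v => R (s v) (t v) (u v)) :=
  h.comp (g := fun v => cons (s v) (cons (t v) (cons (u v) v)))
    (CM.cons hs (CM.cons ht (CM.cons hu CM.id)))

theorem D0.rel4 {R : N.M → N.M → N.M → N.M → Prop}
    (h : D0 (fun v => R (v 0) (v 1) (v 2) (v 3)))
    {s t u w : Ctx N → N.M} (hs : Tm s) (ht : Tm t) (hu : Tm u) (hw : Tm w) :
    D0 (fun v => R (s v) (t v) (u v) (w v)) :=
  h.comp (g := fun v => cons (s v) (cons (t v) (cons (u v) (cons (w v) v))))
    (CM.cons hs (CM.cons ht (CM.cons hu (CM.cons hw CM.id))))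

theorem pr3_inj {a b c a' b' c' : N.M} (h : pr a (pr b c) = pr a' (pr b' c')) :
    a = a' ∧ b = b' ∧ c = c' := by
  obtain ⟨h1, h2⟩ := pr_inj h
  exact ⟨h1, pr_inj h2⟩

theorem lt_succ_self' (a : N.M) : a < a + 1 := lt_add_one_iff'.2 le_rfl

theorem add_one_inj' {a b : N.M} (h : a + 1 = b + 1) : a = b := add_cancel' h

/-! ### tree lemmas that hold over `RCA₀` -/

/-- `t` is a node of `T` of level `n` -/
def Lv (T : Set N.M) (t n : N.M) : Prop := t ∈ T ∧ IsSq t n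

theorem lv_iff {T : Set N.M} {t n : N.M} : t ∈ Level N T n ↔ Lv T t n :=
  and_congr_right fun _ => hasLen_iff

theorem Lv_D0 {T : Set N.M} (hT : T ∈ N.Sets) {s t : Ctx N → N.M} (hs : Tm s) (ht : Tm t) :
    D0 (fun v => Lv T (s v) (t v)) := D0.and (D0.mem hs hT) (IsSq_D0 hs ht)

section tree

variable {T : Set N.M} (hT : IsTree N T)

include hT

theorem IsTree.sq {t : N.M} (ht : t ∈ T) : Sq t := by
  obtain ⟨n, hn⟩ := hT.seq t ht
  exact (hasLen_iff.1 hn).sq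

theorem IsTree.lv {t : N.M} (ht : t ∈ T) : ∃ n, Lv T t n := by
  obtain ⟨n, hn⟩ := hT.seq t ht
  exact ⟨n, ht, hasLen_iff.1 hn⟩

theorem IsTree.res {t n m : N.M} (ht : Lv T t n) (hm : m ≤ n) : ∃ s, Lv T s m ∧ Ini s t := by
  obtain ⟨s, h1, h2⟩ := exists_res ht.2 hm
  exact ⟨s, ⟨hT.closed t ht.1 s (ini_iff.2 h2), h1⟩, h2⟩

theorem IsTree.root : ∃ t, Lv T t 0 := by
  obtain ⟨t, ht⟩ := hT.nonempty
  obtain ⟨n, hn⟩ := hT.lv ht
  obtain ⟨s, hs, _⟩ := hT.res hn (zero_le' n)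
  exact ⟨s, hs⟩

theorem IsTree.succ {t n : N.M} (ht : Lv T t n) : ∃ t', Lv T t' (n + 1) ∧ Ini t t' := by
  obtain ⟨t', h1, h2⟩ := hT.noTerminal t ht.1
  obtain ⟨h3, n', h4, h5⟩ := immSucc_iff.1 h2
  obtain rfl := h4.len_unique ht.2
  exact ⟨t', ⟨h1, h5⟩, h3⟩

theorem IsTree.up {t n : N.M} (ht : Lv T t n) (d : N.M) :
    ∃ t', Lv T t' (n + d) ∧ Ini t t' := by
  refine ind_S1 (P := fun d => ∃ t', Lv T t' (n + d) ∧ Ini t t') ?_ ?_ ?_ d
  · exact S1.ex (D0.S1 (D0.and (Lv_D0 hT.mem (Tm.var 0) ((Tm.const n).add (Tm.var 1)))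
      (Ini_D0 (Tm.const t) (Tm.var 0))))
  · exact ⟨t, by rw [add_zero]; exact ht, Ini.refl ht.2.sq⟩
  · rintro d ⟨t', h1, h2⟩
    obtain ⟨t'', h3, h4⟩ := hT.succ h1
    exact ⟨t'', by rw [← add_assoc]; exact h3, h2.trans h4⟩

theorem IsTree.up' {t n m : N.M} (ht : Lv T t n) (hm : n ≤ m) :
    ∃ t', Lv T t' m ∧ Ini t t' := by
  obtain ⟨d, rfl⟩ := exists_sub hm
  exact hT.up ht d

end tree

/-! ### tools for models of `ACA₀` -/

section aca

variable [Sig1 N]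

/-- levels of finitely branching trees are finite -/
theorem IsTree.finLevel {T : Set N.M} (hT : IsTree N T) (n : N.M) :
    ∃ b, ∀ t, Lv T t n → t < b := by
  refine ind_D0 (P := fun n => ∃ b, ∀ t, Lv T t n → t < b) ?_ ?_ ?_ n
  · refine D0.ex (D0.all (D0.imp ?_ ?_))
    · exact Lv_D0 hT.mem (Tm.var 0) (Tm.var 2)
    · exact D0.lt (Tm.var 0) (Tm.var 1)
  · obtain ⟨s, hs⟩ := exists_empty (N := N)
    refine ⟨s + 1, fun t ht => ?_⟩
    have : t = s := by
      refine isC_ext ht.2.1 hs.1 fun r => ⟨fun hr => ?_, fun hr => ?_⟩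
      · obtain ⟨i, z, hi, _⟩ := ht.2.mem hr
        exact absurd hi (not_lt_of_ge (zero_le' i))
      · obtain ⟨i, z, hi, _⟩ := hs.mem hr
        exact absurd hi (not_lt_of_ge (zero_le' i))
    rw [this]; exact lt_succ_self' s
  · rintro n ⟨b, hb⟩
    obtain ⟨B, hB⟩ := bounding (Q := fun s c => s ∈ T → ∀ t, (t ∈ T ∧ (Ini s t ∧
        ∃ n, IsSq s n ∧ IsSq t (n + 1))) → t < c) (by
      refine D0.imp (D0.mem (Tm.var 1) hT.mem) (D0.all (D0.imp (D0.and (D0.mem (Tm.var 0) hT.mem)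
        (D0.and (Ini_D0 (Tm.var 2) (Tm.var 0)) (D0.ex (D0.and ?_ ?_)))) ?_))
      · exact IsSq_D0 (Tm.var 3) (Tm.var 0)
      · exact IsSq_D0 (Tm.var 1) ((Tm.var 0).add Tm.one)
      · exact D0.lt (Tm.var 0) (Tm.var 1)) b (fun s _ => by
        by_cases hs : s ∈ T
        · obtain ⟨c, hc⟩ := hT.finBranch s hs
          exact ⟨c, fun _ t ht => hc t ⟨ht.1, immSucc_iff.2 ht.2⟩⟩
        · exact ⟨0, fun h => absurd h hs⟩)
    refine ⟨B, fun t ht => ?_⟩
    obtain ⟨s, hs, hst⟩ := hT.res ht (lt_succ_self' n).le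
    obtain ⟨c, hcB, hc⟩ := hB s (hb s hs)
    exact (hc hs.1 t ⟨ht.1, hst, n, hs.2, ht.2⟩).trans hcB

/-- dependent choice -/
theorem dc {Inv : N.M → Prop} (hInv : D0 (fun v => Inv (v 0))) {St : N.M → N.M → Prop}
    (hSt : D0 (fun v => St (v 0) (v 1))) (h : ∀ e, Inv e → ∃ e', St e e' ∧ Inv e') {a : N.M}
    (ha : Inv a) : ∃ f : N.M → N.M, D0 (fun v => v 1 = f (v 0)) ∧ f 0 = a ∧
      (∀ n, Inv (f n)) ∧ ∀ n, St (f n) (f (n + 1)) := by
  classical
  have hbody : ∀ {s t : Ctx N → N.M}, Tm s → Tm t → D0 (fun v => St (s v) (t v) ∧ Inv (t v)) :=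
    fun hs ht => D0.and (hSt.rel hs ht) (hInv.pred ht)
  have hleast : ∀ e, Inv e → ∃ e', (St e e' ∧ Inv e') ∧ ∀ x, x < e' → ¬ (St e x ∧ Inv x) := by
    intro e he
    obtain ⟨e', he'⟩ := h e he
    obtain ⟨m, _, h1, h2⟩ := lnp_D0 (P := fun x => St e x ∧ Inv x)
      (hbody (Tm.const e) (Tm.var 0)) e' he'
    exact ⟨m, h1, h2⟩
  let G : N.M → N.M := fun e => if he : Inv e then Classical.choose (hleast e he) else 0
  have hG1 : ∀ e, Inv e → (St e (G e) ∧ Inv (G e)) ∧ ∀ x, x < G e → ¬ (St e x ∧ Inv x) := by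
    intro e he
    have : G e = Classical.choose (hleast e he) := by simp only [G, dif_pos he]
    rw [this]
    exact Classical.choose_spec (hleast e he)
  have hG2 : ∀ e, ¬ Inv e → G e = 0 := fun e he => by simp only [G, dif_neg he]
  have hG : D0 (fun v => v 1 = G (v 0)) := by
    refine D0.congr (R := fun v => (Inv (v 0) ∧ ((St (v 0) (v 1) ∧ Inv (v 1)) ∧
      ∀ x, x < v 1 → ¬ (St (v 0) x ∧ Inv x))) ∨ (¬ Inv (v 0) ∧ v 1 = 0)) ?_ fun v => ?_
    · refine D0.or (D0.and hInv (D0.and (hbody (Tm.var 0) (Tm.var 1)) (D0.ball (Tm.var 1) ?_)))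
        (D0.and hInv.not (D0.eq (Tm.var 1) Tm.zero))
      exact (hbody (Tm.var 1) (Tm.var 0)).not
    · by_cases hv : Inv (v 0)
      · simp only [hv, true_and, not_true_eq_false, false_and, or_false]
        obtain ⟨h1, h2⟩ := hG1 (v 0) hv
        constructor
        · rintro ⟨h3, h4⟩
          rcases lt_trichotomy (v 1) (G (v 0)) with h | h | h
          · exact absurd h3 (h2 _ h)
          · exact h
          · exact absurd h1 (h4 _ h)
        · intro h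
          rw [h]
          exact ⟨h1, h2⟩
      · simp only [hv, false_and, not_false_eq_true, true_and, false_or, hG2 _ hv]
  obtain ⟨f, hf, hf0, hfs⟩ := exists_recursion hG a
  have hInvf : ∀ n, Inv (f n) := by
    intro n
    refine ind_D0 (P := fun n => Inv (f n)) ?_ (by rw [hf0]; exact ha) (fun n hn => by
      rw [hfs]; exact (hG1 _ hn).1.2) n
    refine D0.congr (R := fun v => ∃ w, w = f (v 0) ∧ Inv w) ?_ fun v => by simp
    exact D0.ex (D0.and (D0.rel (R := fun k x => x = f k) hf (Tm.var 1) (Tm.var 0))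
      (hInv.pred (Tm.var 0)))
  exact ⟨f, hf, hf0, hInvf, fun n => by rw [hfs]; exact (hG1 _ (hInvf n)).1.1⟩

/-- substitution of a function of the model into a relation -/
theorem D0.subst_fun {f : N.M → N.M} (hf : D0 (fun v => v 1 = f (v 0)))
    {P : Ctx N → N.M → Prop} (hP : D0 (fun w => P (RM.tail w) (w 0))) {s : Ctx N → N.M}
    (hs : Tm s) : D0 (fun v => P v (f (s v))) := by
  refine D0.congr (R := fun v => ∃ w, w = f (s v) ∧ P v w) ?_ fun v => by simp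
  exact D0.ex (D0.and (D0.rel (R := fun k x => x = f k) hf hs.tail (Tm.var 0)) hP)

/-- bounding in models of `ACA₀`, for a relation -/
theorem bound_rel {Q : N.M → N.M → Prop} (hQ : D0 (fun v => Q (v 0) (v 1))) (a : N.M) :
    ∃ b, ∀ x, x < a → (∃ k, Q x k) → ∃ k, k < b ∧ Q x k := strong_bounding hQ a

/-- pigeonhole for a tree: a dense set that is divided into boundedly many pieces has a piece
that is somewhere dense -/
theorem pht {W : Set N.M} (hW : W ∈ N.Sets) {y : N.M} (hy : y ∈ W) (hyy : Ini y y)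
    {E : N.M → Prop} (hE : D0 (fun v => E (v 0)))
    (hd : ∀ y', y' ∈ W → Ini y y' → ∃ w, w ∈ W ∧ (Ini y' w ∧ E w))
    {R : N.M → N.M → Prop} (hR : D0 (fun v => R (v 0) (v 1))) (r : N.M)
    (hcov : ∀ w, w ∈ W → Ini y w → E w → ∃ i, i < r ∧ R w i) :
    ∃ i, i < r ∧ ∃ y'', y'' ∈ W ∧ Ini y y'' ∧
      ∀ y', y' ∈ W → Ini y'' y' → ∃ w, w ∈ W ∧ (Ini y' w ∧ (E w ∧ R w i)) := by
  by_contra hcon
  push Not at hcon
  have key : ∀ l, l ≤ r → ∃ z, z ∈ W ∧ (Ini y z ∧ ∀ w, w ∈ W → Ini z w → E w →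
      ∀ i, i < l → ¬ R w i) := by
    intro l
    refine ind_D0 (P := fun l => l ≤ r → ∃ z, z ∈ W ∧ (Ini y z ∧ ∀ w, w ∈ W → Ini z w → E w →
      ∀ i, i < l → ¬ R w i)) ?_ ?_ ?_ l
    · refine D0.imp (D0.le (Tm.var 0) (Tm.const r)) (D0.ex (D0.and (D0.mem (Tm.var 0) hW)
        (D0.and (Ini_D0 (Tm.const y) (Tm.var 0)) (D0.all (D0.imp (D0.mem (Tm.var 0) hW)
          (D0.imp (Ini_D0 (Tm.var 1) (Tm.var 0)) (D0.imp (hE.pred (Tm.var 0))
            (D0.ball (Tm.var 2) ?_))))))))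
      exact (hR.rel (Tm.var 1) (Tm.var 0)).not
    · intro _
      exact ⟨y, hy, hyy, fun w _ _ _ i hi => absurd hi (not_lt_of_ge (zero_le' i))⟩
    · intro l ih hl
      obtain ⟨z, hz, hyz, hzw⟩ := ih ((lt_succ_self' l).le.trans hl)
      obtain ⟨y', hy', hzy', hno⟩ := hcon l (add_one_le_iff'.1 hl) z hz hyz
      refine ⟨y', hy', hyz.trans hzy', fun w hw hyw hEw i hi => ?_⟩
      rcases lt_or_eq_of_le (lt_add_one_iff'.1 hi) with hi | rfl
      · exact hzw w hw (hzy'.trans hyw) hEw i hi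
      · exact hno w hw hyw hEw
  obtain ⟨z, hz, hyz, hzw⟩ := key r le_rfl
  obtain ⟨w, hw, hzw', hEw⟩ := hd z hz hyz
  obtain ⟨i, hi, hRi⟩ := hcov w hw (hyz.trans hzw') hEw
  exact hzw w hw hzw' hEw i hi hRi

end aca

end Pool.Agent.Helper617.RM
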