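import Mathlib
import Pool.Agent.Helper617.RM.Orders

namespace Pool.Agent.Helper617.RM

/-- the standard structure with all sets of natural numbers -/
def fullModel : L2Structure.{0} where
  M := ℕ
  zero := 0
  one := 1
  add := (· + ·)
  mul := (· * ·)
  lt := (· < ·)
  Sets := Set.univ

/-- the axioms are consistent: the standard structure is a model -/
theorem fullModel_isModel : IsModelRCA0 fullModel where
  ax_succ_ne_zero n := Nat.succ_ne_zero n
  ax_succ_inj m n h := Nat.succ.inj h
  ax_add_zero m := rfl
  ax_add_succ m n := rfl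
  ax_mul_zero m := rfl
  ax_mul_succ m n := rfl
  ax_not_lt_zero m := Nat.not_lt_zero m
  ax_lt_succ m n := Nat.lt_succ_iff_lt_or_eq
  sigma1_induction θ v h0 hs n := Nat.rec h0 hs n
  delta1_comprehension θ ψ v h := Set.mem_univ _

end Pool.Agent.Helper617.RM
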