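import Mathlib
import Pool.Agent.Helper617.RM.Recursion

namespace Pool.Agent.Helper617.RM

universe u

set_option linter.unusedSectionVars false
set_option linter.unusedVariables false

variable {N : L2Structure.{u}} [IsModelRCA0 N]

open IsModelRCA0

/-- an infinite set in which every element is related to almost all others contains an
increasing sequence -/
theorem exists_seq {S : Set N.M} (hS : S ∈ N.Sets) (hinf : ∀ b, ∃ x ∈ S, b ≤ x)
    {R : N.M → N.M → Prop} (hR : D0 (fun v => R (v 0) (v 1)))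
    (htr : ∀ x y z, R x y → R y z → R x z)
    (hsm : ∀ x ∈ S, ∃ b, ∀ y ∈ S, b ≤ y → R x y) :
    ∃ f : N.M → N.M, D0 (fun v => v 1 = f (v 0)) ∧ (∀ i, f i ∈ S) ∧
      ∀ i j, i < j → R (f i) (f j) ∧ f i ≠ f j := by
  classical
  have hdef : D0 (fun v => v 1 ∈ S ∧ v 0 < v 1 ∧ R (v 0) (v 1)) :=
    D0.and (D0.mem (Tm.var 1) hS) (D0.and (D0.lt (Tm.var 0) (Tm.var 1)) hR)
  have hdef' : ∀ {s t : Ctx N → N.M}, Tm s → Tm t →
      D0 (fun v => t v ∈ S ∧ s v < t v ∧ R (s v) (t v)) := fun hs ht =>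
    D0.rel (R := fun x y => y ∈ S ∧ x < y ∧ R x y) hdef hs ht
  have hnext : ∀ x, x ∈ S → ∃ y, (y ∈ S ∧ x < y ∧ R x y) ∧
      ∀ z, z < y → ¬ (z ∈ S ∧ x < z ∧ R x z) := by
    intro x hx
    obtain ⟨b, hb⟩ := hsm x hx
    obtain ⟨y, hy, hby⟩ := hinf (max b (x + 1))
    obtain ⟨n, _, h1, h2⟩ := lnp_D0 (P := fun y => y ∈ S ∧ x < y ∧ R x y)
      (hdef' (Tm.const x) (Tm.var 0)) y
      ⟨hy, add_one_le_iff'.1 ((le_max_right _ _).trans hby),
        hb y hy ((le_max_left _ _).trans hby)⟩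
    exact ⟨n, h1, h2⟩
  let G : N.M → N.M := fun x => if h : x ∈ S then Classical.choose (hnext x h) else 0
  have hG1 : ∀ x, x ∈ S → (G x ∈ S ∧ x < G x ∧ R x (G x)) ∧
      ∀ z, z < G x → ¬ (z ∈ S ∧ x < z ∧ R x z) := by
    intro x hx
    have : G x = Classical.choose (hnext x hx) := by simp only [G, dif_pos hx]
    rw [this]
    exact Classical.choose_spec (hnext x hx)
  have hG2 : ∀ x, x ∉ S → G x = 0 := fun x hx => by simp only [G, dif_neg hx]
  have hG : D0 (fun v => v 1 = G (v 0)) := by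
    refine D0.congr (R := fun v => (v 0 ∈ S ∧ ((v 1 ∈ S ∧ v 0 < v 1 ∧ R (v 0) (v 1)) ∧
      ∀ z, z < v 1 → ¬ (z ∈ S ∧ v 0 < z ∧ R (v 0) z))) ∨ (¬ v 0 ∈ S ∧ v 1 = 0)) ?_ fun v => ?_
    · refine D0.or (D0.and (D0.mem (Tm.var 0) hS) (D0.and hdef (D0.ball (Tm.var 1) ?_)))
        (D0.and (D0.mem (Tm.var 0) hS).not (D0.eq (Tm.var 1) Tm.zero))
      exact (hdef' (Tm.var 1) (Tm.var 0)).not
    · by_cases hv : v 0 ∈ S
      · simp only [hv, true_and, not_true_eq_false, false_and, or_false]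
        obtain ⟨h1, h2⟩ := hG1 (v 0) hv
        constructor
        · rintro ⟨h3, h4⟩
          rcases lt_trichotomy (v 1) (G (v 0)) with h | h | h
          · exact absurd h3 (h2 _ h)
          · exact h
          · exact absurd h1 (h4 _ h)
        · intro h
          rw [h]
          exact ⟨h1, h2⟩
      · simp only [hv, false_and, not_false_eq_true, true_and, false_or, hG2 _ hv]
  obtain ⟨s0, hs0, _⟩ := hinf 0
  obtain ⟨f, hf, hf0, hfs⟩ := exists_recursion hG s0
  have hf' : ∀ {s t : Ctx N → N.M}, Tm s → Tm t → D0 (fun v => t v = f (s v)) :=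
    fun hs ht => D0.rel (R := fun k x => x = f k) hf hs ht
  have hfS : ∀ i, f i ∈ S := by
    intro i
    refine ind_S1 (P := fun i => f i ∈ S) ?_ (by rw [hf0]; exact hs0) (fun n hn => by
      rw [hfs]; exact (hG1 _ hn).1.1) i
    refine S1.congr (R := fun v => ∃ w, w = f (v 0) ∧ w ∈ S) ?_ fun v => by simp
    exact S1.ex (D0.S1 (D0.and (hf' (Tm.var 1) (Tm.var 0)) (D0.mem (Tm.var 0) hS)))
  refine ⟨f, hf, hfS, fun i j hij => ?_⟩
  have key : ∀ i d, R (f i) (f (i + d + 1)) ∧ f i < f (i + d + 1) := by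
    intro i d
    refine ind_S1 (P := fun d => R (f i) (f (i + d + 1)) ∧ f i < f (i + d + 1)) ?_ ?_ ?_ d
    · refine S1.congr (R := fun v => ∃ w, w = f (i + v 0 + 1) ∧ (R (f i) w ∧ f i < w)) ?_
        fun v => by simp
      refine S1.ex (D0.S1 (D0.and ?_ (D0.and ?_ ?_)))
      · exact hf' (((Tm.const i).add (Tm.var 1)).add Tm.one) (Tm.var 0)
      · exact hR.rel (Tm.const _) (Tm.var 0)
      · exact D0.lt (Tm.const _) (Tm.var 0)
    · rw [add_zero, hfs]
      obtain ⟨⟨_, h2, h3⟩, _⟩ := hG1 _ (hfS i)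
      exact ⟨h3, h2⟩
    · rintro d ⟨h1, h2⟩
      have : i + (d + 1) + 1 = (i + d + 1) + 1 := by ring
      rw [this, hfs]
      obtain ⟨⟨_, h4, h5⟩, _⟩ := hG1 _ (hfS (i + d + 1))
      exact ⟨htr _ _ _ h1 h5, h2.trans h4⟩
  obtain ⟨d, rfl⟩ := (lt_iff_add'' _ _).1 hij
  exact ⟨(key i d).1, (key i d).2.ne⟩

/-- the principle `P` implies `SADS` -/
theorem SADS_of_P (hP : PrincipleP N) : PrincipleSADS N := by
  intro D hD R hR hlin hinf hfin
  have hRD : D0 (fun v => R (v 0) (v 1)) := D0.of_codeRel hR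
  have hne : ∀ x y : N.M, x + 1 ≤ y → y ≠ x := fun x y h => (add_one_le_iff'.1 h).ne'
  obtain ⟨S, hS, hSD, hSinf, hst⟩ := hP D hD R hR hlin.toIsPartialOrd hinf (fun x hx => by
    rcases hfin x hx with ⟨b, hb⟩ | ⟨b, hb⟩
    · left
      refine almostAll_iff.2 ⟨max b (x + 1), fun y hy hby => ?_⟩
      rcases hlin.total x hx y hy with h | h
      · exact h
      · exact absurd (hb y ⟨h, hne x y ((le_max_right _ _).trans hby)⟩)
          (not_lt_of_ge ((le_max_left _ _).trans hby))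
    · right; left
      refine almostAll_iff.2 ⟨max b (x + 1), fun y hy hby => ?_⟩
      rcases hlin.total x hx y hy with h | h
      · exact absurd (hb y ⟨h, hne x y ((le_max_right _ _).trans hby)⟩)
          (not_lt_of_ge ((le_max_left _ _).trans hby))
      · exact h)
  rw [not_isFin_iff] at hSinf
  have hiso : ∀ x ∈ S, ¬ IsIsolated N S R x := by
    intro x hx h
    obtain ⟨b, hb⟩ := almostAll_iff.1 h
    obtain ⟨y, hy, hby⟩ := hSinf b
    rcases hlin.total x (hSD hx) y (hSD hy) with h' | h'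
    · exact (hb y hy hby).1 h'
    · exact (hb y hy hby).2 h'
  rcases hst with hst | hst
  · obtain ⟨f, hf, hfS, hmon⟩ := exists_seq hS hSinf hRD hlin.trans (fun x hx => by
      rcases hst x hx with h | h
      · exact almostAll_iff.1 h
      · exact absurd h (hiso x hx))
    exact ⟨f, codeRel_mem_D0 hf, fun i => hSD (hfS i), Or.inl hmon⟩
  · obtain ⟨f, hf, hfS, hmon⟩ := exists_seq hS hSinf (R := fun x y => R y x)
      (hRD.rel (Tm.var 1) (Tm.var 0)) (fun x y z h1 h2 => hlin.trans _ _ _ h2 h1) (fun x hx => by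
      rcases hst x hx with h | h
      · exact almostAll_iff.1 h
      · exact absurd h (hiso x hx))
    exact ⟨f, codeRel_mem_D0 hf, fun i => hSD (hfS i), Or.inr hmon⟩

end Pool.Agent.Helper617.RM
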