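import Mathlib
import Pool.Agent.Helper617.RM.SadsBounding

namespace Pool.Agent.Helper617.RM

universe u

set_option linter.unusedSectionVars false
set_option linter.unusedVariables false

variable {N : L2Structure.{u}} [IsModelRCA0 N]

open IsModelRCA0

/-- the set of record values of a function -/
def Rec (f : N.M → N.M) (y : N.M) : Prop := ∃ i, y = f i ∧ ∀ j, j < i → f j < y

theorem rec_mem {f : N.M → N.M} (hf : D0 (fun v => v 1 = f (v 0)))
    (hinj : ∀ i j, f i = f j → i = j) : {y | Rec f y} ∈ N.Sets := by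
  have hlt : D0 (fun v => f (v 0) < v 1) := by
    refine D0.congr (R := fun v => ∃ u, u < v 1 ∧ u = f (v 0)) ?_ fun v => ?_
    · exact D0.bex (Tm.var 1) (D0.rel (R := fun k x => x = f k) hf (Tm.var 1) (Tm.var 0))
    · constructor
      · rintro ⟨u, h1, rfl⟩; exact h1
      · intro h; exact ⟨_, h, rfl⟩
  have heq : ∀ {s t : Ctx N → N.M}, Tm s → Tm t → D0 (fun v => t v = f (s v)) :=
    fun hs ht => D0.rel (R := fun k x => x = f k) hf hs ht
  have hlt' : ∀ {s t : Ctx N → N.M}, Tm s → Tm t → D0 (fun v => f (s v) < t v) :=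
    fun hs ht => D0.rel (R := fun k x => f k < x) hlt hs ht
  refine comp_D1 (P := Rec f) ?_ ?_
  · refine S1.ex (D0.S1 (D0.and (heq (Tm.var 0) (Tm.var 1)) (D0.ball (Tm.var 0) ?_)))
    exact hlt' (Tm.var 0) (Tm.var 2)
  · refine S1.congr (R := fun v => ∃ i, (¬ f i < v 0) ∧ ((∀ j, j < i → f j < v 0) ∧
      ¬ v 0 = f i)) ?_ fun v => ?_
    · refine S1.ex (D0.S1 (D0.and (hlt' (Tm.var 0) (Tm.var 1)).not (D0.and
        (D0.ball (Tm.var 0) ?_) (heq (Tm.var 0) (Tm.var 1)).not)))
      exact hlt' (Tm.var 0) (Tm.var 2)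
    · constructor
      · rintro ⟨i, h1, h2, h3⟩ ⟨i', h4, h5⟩
        rcases lt_trichotomy i i' with h | h | h
        · exact h1 (h5 i h)
        · subst h; exact h3 h4
        · exact absurd (h2 i' h) (by rw [h4]; exact lt_irrefl _)
      · intro h
        obtain ⟨k, _, hk⟩ := unbounded_of_injective hf hinj 0 (v 0)
        obtain ⟨i, _, h1, h2⟩ := lnp_D0 (P := fun i => ¬ f i < v 0)
          (hlt' (Tm.var 0) (Tm.const (v 0))).not k (not_lt.2 hk)
        refine ⟨i, h1, fun j hj => not_not.1 (h2 j hj), fun he => h ⟨i, he, fun j hj =>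
          not_not.1 (h2 j hj)⟩⟩

theorem rec_unbounded {f : N.M → N.M} (hf : D0 (fun v => v 1 = f (v 0)))
    (hinj : ∀ i j, f i = f j → i = j) (b : N.M) : ∃ y, Rec f y ∧ b ≤ y := by
  have hlt : D0 (fun v => f (v 0) < v 1) := by
    refine D0.congr (R := fun v => ∃ u, u < v 1 ∧ u = f (v 0)) ?_ fun v => ?_
    · exact D0.bex (Tm.var 1) (D0.rel (R := fun k x => x = f k) hf (Tm.var 1) (Tm.var 0))
    · constructor
      · rintro ⟨u, h1, rfl⟩; exact h1
      · intro h; exact ⟨_, h, rfl⟩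
  have hlt' : ∀ {s t : Ctx N → N.M}, Tm s → Tm t → D0 (fun v => f (s v) < t v) :=
    fun hs ht => D0.rel (R := fun k x => f k < x) hlt hs ht
  obtain ⟨k, _, hk⟩ := unbounded_of_injective hf hinj 0 b
  obtain ⟨i, _, h1, h2⟩ := lnp_D0 (P := fun i => ¬ f i < b)
    (hlt' (Tm.var 0) (Tm.const b)).not k (not_lt.2 hk)
  exact ⟨f i, ⟨i, rfl, fun j hj => lt_of_lt_of_le (not_not.1 (h2 j hj)) (not_lt.1 h1)⟩,
    not_lt.1 h1⟩

theorem almostAll_mono {X Y : Set N.M} (h : Y ⊆ X) {p : N.M → Prop} (hp : AlmostAll N X p) :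
    AlmostAll N Y p := by
  rw [almostAll_iff] at hp ⊢
  obtain ⟨b, hb⟩ := hp
  exact ⟨b, fun y hy => hb y (h hy)⟩

/-- `SADS` implies the principle `P` -/
theorem P_of_SADS (hS : PrincipleSADS N) : PrincipleP N := by
  intro D hD R hR hpo hinf hws
  have hRD : D0 (fun v => R (v 0) (v 1)) := D0.of_codeRel hR
  have hinf' := not_isFin_iff.1 hinf
  -- the family of upper sets
  have hbd : BddDiff R 0 := by
    rintro x y ⟨z, hz⟩
    have hxy : x ≠ y := by rintro rfl; exact hz Iff.rfl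
    by_cases hx : x ∈ D
    · by_cases hy : y ∈ D
      · by_contra hcon
        push Not at hcon
        have h1 := (hcon x (by rw [add_zero]; exact le_add_of_nonneg_right (zero_le' _)))
        have h2 := (hcon y (by rw [add_zero]; exact le_add_of_nonneg_left (zero_le' _)))
        have h3 : R y x := by
          by_contra h
          rcases h1 with h1
          exact h (h1.1 (hpo.refl x hx))
        have h4 : R x y := by
          exact h2.2 (hpo.refl y hy)
        exact hxy (hpo.antisymm _ _ h4 h3)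
      · refine ⟨x, by rw [add_zero]; exact le_add_of_nonneg_right (zero_le' _), fun h => ?_⟩
        exact hy (hpo.dom _ _ (h.1 (hpo.refl x hx))).1
    · by_cases hy : y ∈ D
      · refine ⟨y, by rw [add_zero]; exact le_add_of_nonneg_left (zero_le' _), fun h => ?_⟩
        exact hx (hpo.dom _ _ (h.2 (hpo.refl y hy))).1
      · exact absurd ⟨fun h => absurd (hpo.dom _ _ h).1 hx,
          fun h => absurd (hpo.dom _ _ h).1 hy⟩ hz
  -- the order extends `R`
  have hext : ∀ x y, R x y → x ≠ y → FLt R x y := by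
    intro x y hxy hne
    obtain ⟨hx, hy⟩ := hpo.dom _ _ hxy
    obtain ⟨w, _, h2, h3⟩ := Lex.tri hRD x y (z := x) (fun h =>
      hne (hpo.antisymm _ _ hxy (h.1 (hpo.refl x hx))))
    have hw : R x w := by
      by_contra h
      refine h2 ⟨fun h' => absurd h' h, fun h' => hpo.trans _ _ _ hxy h'⟩
    exact Or.inl ⟨w, hw, fun h => h2 ⟨fun _ => h, fun _ => hw⟩, h3⟩
  have hsmall : ∀ x, IsSmall N D R x → ∃ b, ∀ y ∈ D, b ≤ y → R x y := fun x h =>
    almostAll_iff.1 h
  have hlarge : ∀ x, IsLarge N D R x → ∃ b, ∀ y ∈ D, b ≤ y → R y x := fun x h =>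
    almostAll_iff.1 h
  have hisol : ∀ x, IsIsolated N D R x → ∃ b, ∀ y ∈ D, b ≤ y → ¬ R x y ∧ ¬ R y x :=
    fun x h => almostAll_iff.1 h
  have hlt1 : ∀ x y : N.M, x + 1 ≤ y → x ≠ y := fun x y h => (add_one_le_iff'.1 h).ne
  have hstab : ∀ x ∈ D, ∃ b, (∀ y ∈ D, b ≤ y → FLt R x y) ∨ (∀ y ∈ D, b ≤ y → FLt R y x) := by
    intro x hx
    rcases hws x hx with h | h | h
    · obtain ⟨b, hb⟩ := hsmall x h
      exact ⟨max b (x + 1), Or.inl fun y hy hby => hext x y
        (hb y hy ((le_max_left _ _).trans hby)) (hlt1 x y ((le_max_right _ _).trans hby))⟩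
    · obtain ⟨b, hb⟩ := hlarge x h
      exact ⟨max b (x + 1), Or.inr fun y hy hby => hext y x
        (hb y hy ((le_max_left _ _).trans hby)) (hlt1 x y ((le_max_right _ _).trans hby)).symm⟩
    · obtain ⟨bx, hbx⟩ := hisol x h
      -- first difference with `x`
      have hfirst : ∀ y ∈ D, bx ≤ y → ∃ w, w ≤ x ∧ ¬ (R x w ↔ R y w) ∧
          ∀ u, u < w → (R x u ↔ R y u) := by
        intro y hy hby
        exact Lex.tri hRD x y (z := x) (fun h => (hbx y hy hby).2 (h.1 (hpo.refl x hx)))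
      by_cases hplus : ∃ b, ∀ t, b ≤ t → ∀ w, w ≤ x →
          ¬ (t ∈ D ∧ R x w ∧ ¬ R t w ∧ ∀ u, u < w → (R x u ↔ R t u))
      · obtain ⟨b, hb⟩ := hplus
        refine ⟨max b bx, Or.inr fun y hy hby => ?_⟩
        obtain ⟨w, h1, h2, h3⟩ := hfirst y hy ((le_max_right _ _).trans hby)
        have hxw : ¬ R x w := fun h => hb y ((le_max_left _ _).trans hby) w h1
          ⟨hy, h, fun h' => h2 ⟨fun _ => h', fun _ => h⟩, h3⟩
        refine Or.inl ⟨w, ?_, hxw, fun u hu => (h3 u hu).symm⟩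
        by_contra h
        exact h2 ⟨fun h' => absurd h' hxw, fun h' => absurd h' h⟩
      by_cases hminus : ∃ b, ∀ t, b ≤ t → ∀ w, w ≤ x →
          ¬ (t ∈ D ∧ ¬ R x w ∧ R t w ∧ ∀ u, u < w → (R x u ↔ R t u))
      · obtain ⟨b, hb⟩ := hminus
        refine ⟨max b bx, Or.inl fun y hy hby => ?_⟩
        obtain ⟨w, h1, h2, h3⟩ := hfirst y hy ((le_max_right _ _).trans hby)
        have hyw : ¬ R y w := fun h => hb y ((le_max_left _ _).trans hby) w h1
          ⟨hy, fun h' => h2 ⟨fun _ => h, fun _ => h'⟩, h, h3⟩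
        refine Or.inl ⟨w, ?_, hyw, h3⟩
        by_contra h
        exact h2 ⟨fun h' => absurd h' h, fun h' => absurd h' hyw⟩
      exfalso
      push Not at hplus hminus
      have hagree : D0 (fun v => ∀ u, u < v 0 → (R x u ↔ R (v 1) u)) :=
        D0.ball (Tm.var 0) (D0.iff (hRD.rel (Tm.const x) (Tm.var 0))
          (hRD.rel (Tm.var 2) (Tm.var 0)))
      obtain ⟨w, hw, hwinf⟩ := sads_php hS
        (C := fun w t => t ∈ D ∧ R x w ∧ ¬ R t w ∧ ∀ u, u < w → (R x u ↔ R t u))
        (D0.and (D0.mem (Tm.var 1) hD) (D0.and (hRD.rel (Tm.const x) (Tm.var 0))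
          (D0.and (hRD.rel (Tm.var 1) (Tm.var 0)).not hagree))) (x + 1) (fun b => by
          obtain ⟨t, ht, w, hw, h⟩ := hplus b
          exact ⟨t, ht, w, lt_add_one_iff'.2 hw, h⟩)
      obtain ⟨w', hw', hwinf'⟩ := sads_php hS
        (C := fun w t => t ∈ D ∧ ¬ R x w ∧ R t w ∧ ∀ u, u < w → (R x u ↔ R t u))
        (D0.and (D0.mem (Tm.var 1) hD) (D0.and (hRD.rel (Tm.const x) (Tm.var 0)).not
          (D0.and (hRD.rel (Tm.var 1) (Tm.var 0)) hagree))) (x + 1) (fun b => by
          obtain ⟨t, ht, w, hw, h⟩ := hminus b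
          exact ⟨t, ht, w, lt_add_one_iff'.2 hw, h⟩)
      -- `w` is eventually not above
      have hwlim : ∃ b, ∀ t ∈ D, b ≤ t → ¬ R t w := by
        obtain ⟨t, _, _, hxw, _⟩ := hwinf 0
        rcases hws w (hpo.dom _ _ hxw).2 with h' | h' | h'
        · obtain ⟨b, hb⟩ := hsmall w h'
          refine ⟨max b (w + 1), fun t ht hbt htw => ?_⟩
          exact hlt1 w t ((le_max_right _ _).trans hbt)
            (hpo.antisymm _ _ (hb t ht ((le_max_left _ _).trans hbt)) htw)
        · obtain ⟨b, hb⟩ := hlarge w h'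
          obtain ⟨t, hbt, ht, _, htw, _⟩ := hwinf b
          exact absurd (hb t ht hbt) htw
        · obtain ⟨b, hb⟩ := hisol w h'
          exact ⟨b, fun t ht hbt => (hb t ht hbt).2⟩
      -- `w'` is eventually above
      have hwlim' : ∃ b, ∀ t ∈ D, b ≤ t → R t w' := by
        obtain ⟨t, _, _, _, htw, _⟩ := hwinf' 0
        rcases hws w' (hpo.dom _ _ htw).2 with h' | h' | h'
        · obtain ⟨b, hb⟩ := hsmall w' h'
          obtain ⟨t, hbt, ht, _, htw, _⟩ := hwinf' (max b (w' + 1))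
          exact absurd (hpo.antisymm _ _ (hb t ht ((le_max_left _ _).trans hbt)) htw)
            (hlt1 w' t ((le_max_right _ _).trans hbt))
        · exact hlarge w' h'
        · obtain ⟨b, hb⟩ := hisol w' h'
          obtain ⟨t, hbt, ht, _, htw, _⟩ := hwinf' b
          exact absurd htw (hb t ht hbt).2
      obtain ⟨b, hb⟩ := hwlim
      obtain ⟨b', hb'⟩ := hwlim'
      rcases lt_trichotomy w w' with hlt | heq | hlt
      · obtain ⟨t, hbt, ht, _, _, hag⟩ := hwinf' b
        obtain ⟨_, _, _, hxw, _⟩ := hwinf 0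
        exact hb t ht hbt ((hag w hlt).1 hxw)
      · subst heq
        obtain ⟨_, _, _, hxw, _⟩ := hwinf 0
        obtain ⟨_, _, _, hxw', _⟩ := hwinf' 0
        exact hxw' hxw
      · obtain ⟨t, hbt, ht, _, _, hag⟩ := hwinf b'
        obtain ⟨_, _, _, hxw', _⟩ := hwinf' 0
        exact hxw' ((hag w' hlt).2 (hb' t ht hbt))
  obtain ⟨f, hf, hfD, hinj, hmon⟩ := sads_family hS hD hinf' hRD hbd hstab
  refine ⟨{y | Rec f y}, rec_mem hf hinj, ?_, ?_, ?_⟩
  · rintro y ⟨i, rfl, _⟩; exact hfD i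
  · rw [not_isFin_iff]
    intro b
    obtain ⟨y, h1, h2⟩ := rec_unbounded hf hinj b
    exact ⟨y, h1, h2⟩
  · have hsub : {y | Rec f y} ⊆ D := by rintro y ⟨i, rfl, _⟩; exact hfD i
    have hmono : ∀ p, AlmostAll N D p → AlmostAll N {y | Rec f y} p := fun p =>
      almostAll_mono hsub
    rcases hmon with hmon | hmon
    · left
      rintro x ⟨i, rfl, _⟩
      rcases hws (f i) (hfD i) with h | h | h
      · exact Or.inl (hmono _ h)
      · exfalso
        obtain ⟨b, hb⟩ := hlarge _ h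
        obtain ⟨k, hk1, hk2⟩ := unbounded_of_injective hf hinj (i + 1) b
        have hik : i < k := add_one_le_iff'.1 hk1
        have h1 := hext (f k) (f i) (hb _ (hfD k) hk2) (fun h => hik.ne (hinj _ _ h).symm)
        exact h1.asymm (hmon i k hik)
      · exact Or.inr (hmono _ h)
    · right
      rintro x ⟨i, rfl, _⟩
      rcases hws (f i) (hfD i) with h | h | h
      · exfalso
        obtain ⟨b, hb⟩ := hsmall _ h
        obtain ⟨k, hk1, hk2⟩ := unbounded_of_injective hf hinj (i + 1) b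
        have hik : i < k := add_one_le_iff'.1 hk1
        have h1 := hext (f i) (f k) (hb _ (hfD k) hk2) (fun h => hik.ne (hinj _ _ h))
        exact h1.asymm (hmon i k hik)
      · exact Or.inl (hmono _ h)
      · exact Or.inr (hmono _ h)

end Pool.Agent.Helper617.RM
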