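import Mathlib
import Pool.Agent.Helper617.RM.PToSads
import Pool.Agent.Helper617.RM.SadsToP

/-!
Descending sequences and unbounded descending sets in models of `RCA₀`.
-/

namespace Pool.Agent.Helper617.RM

universe u

set_option linter.unusedSectionVars false
set_option linter.unusedVariables false

variable {N : L2Structure.{u}} [IsModelRCA0 N]

open IsModelRCA0

/-- a descending sequence of a linear order gives an unbounded descending set -/
theorem desc_set {X : Set N.M} {S : N.M → N.M → Prop} (hS : RelIn N S)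
    (hlin : IsLinearOrd N X S) {f : N.M → N.M} (hf : FunIn N f)
    (hd : ∀ i, f i ∈ X ∧ S (f (N.add i N.one)) (f i) ∧ f (N.add i N.one) ≠ f i) :
    ∃ A ∈ N.Sets, (∀ b, ∃ y ∈ A, ¬ N.lt y b) ∧ ∀ x ∈ A, ∀ y ∈ A, N.lt x y → S y x := by
  have hSD : D0 (fun v => S (v 0) (v 1)) := D0.of_codeRel hS
  have hfD : D0 (fun v => v 1 = f (v 0)) := D0.of_codeRel hf
  have hf' : ∀ {s t : Ctx N → N.M}, Tm s → Tm t → D0 (fun v => t v = f (s v)) :=
    fun hs ht => D0.rel (R := fun k x => x = f k) hfD hs ht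
  have hd' : ∀ i, S (f (i + 1)) (f i) ∧ f (i + 1) ≠ f i := fun i => (hd i).2
  have key : ∀ i d, S (f (i + d + 1)) (f i) ∧ f (i + d + 1) ≠ f i := by
    intro i d
    refine ind_S1 (P := fun d => S (f (i + d + 1)) (f i) ∧ f (i + d + 1) ≠ f i) ?_ ?_ ?_ d
    · refine S1.congr (R := fun v => ∃ w, w = f (i + v 0 + 1) ∧ (S w (f i) ∧ ¬ w = f i)) ?_
        fun v => by simp
      refine S1.ex (D0.S1 (D0.and ?_ (D0.and ?_ ?_)))
      · exact hf' (((Tm.const i).add (Tm.var 1)).add Tm.one) (Tm.var 0)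
      · exact hSD.rel (Tm.var 0) (Tm.const _)
      · exact (D0.eq (Tm.var 0) (Tm.const _)).not
    · rw [add_zero]
      exact hd' i
    · rintro d ⟨h1, h2⟩
      have e : i + (d + 1) + 1 = (i + d + 1) + 1 := by ring
      rw [e]
      obtain ⟨h3, h4⟩ := hd' (i + d + 1)
      refine ⟨hlin.trans _ _ _ h3 h1, fun h5 => ?_⟩
      rw [h5] at h3
      exact h2 (hlin.antisymm _ _ h1 h3)
  have hlt : ∀ i j, i < j → S (f j) (f i) ∧ f j ≠ f i := by
    intro i j hij
    obtain ⟨d, rfl⟩ := (lt_iff_add'' _ _).1 hij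
    exact key i d
  have hinj : ∀ i j, f i = f j → i = j := by
    intro i j hij
    rcases lt_trichotomy i j with h | h | h
    · exact absurd hij.symm (hlt i j h).2
    · exact h
    · exact absurd hij (hlt j i h).2
  refine ⟨{y | Rec f y}, rec_mem hfD hinj, ?_, ?_⟩
  · intro b
    obtain ⟨y, h1, h2⟩ := rec_unbounded hfD hinj b
    exact ⟨y, h1, not_lt.2 h2⟩
  · rintro x ⟨i, rfl, hi⟩ y ⟨j, rfl, hj⟩ hxy
    rcases lt_trichotomy i j with h | h | h
    · exact (hlt i j h).1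
    · subst h
      exact absurd hxy (lt_irrefl' _)
    · exact absurd (lt_trans' hxy (hi j h)) (lt_irrefl' _)

/-- an unbounded descending set of a partial order gives a descending sequence -/
theorem seq_of_set {X : Set N.M} {R : N.M → N.M → Prop} (hR : RelIn N R)
    (hpo : IsPartialOrd N X R) {A : Set N.M} (hA : A ∈ N.Sets)
    (hinf : ∀ b, ∃ y ∈ A, ¬ N.lt y b) (hd : ∀ x ∈ A, ∀ y ∈ A, N.lt x y → R y x) :
    ∃ f : N.M → N.M, FunIn N f ∧
      ∀ i, f i ∈ X ∧ R (f (N.add i N.one)) (f i) ∧ f (N.add i N.one) ≠ f i := by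
  have hRD : D0 (fun v => R (v 0) (v 1)) := D0.of_codeRel hR
  obtain ⟨f, hf, hfA, hlt⟩ := exists_seq hA (fun b => by
      obtain ⟨y, hy, hyb⟩ := hinf b
      exact ⟨y, hy, not_lt.1 hyb⟩) (R := fun x y => R y x ∧ x < y)
    (D0.and (hRD.rel (Tm.var 1) (Tm.var 0)) (D0.lt (Tm.var 0) (Tm.var 1)))
    (fun x y z h1 h2 => ⟨hpo.trans _ _ _ h2.1 h1.1, h1.2.trans h2.2⟩)
    (fun x hx => ⟨x + 1, fun y hy hxy => by
      have h1 : x < y := add_one_le_iff'.1 hxy
      exact ⟨hd x hx y hy h1, h1⟩⟩)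
  refine ⟨f, codeRel_mem_D0 hf, fun i => ?_⟩
  obtain ⟨⟨h1, _⟩, h2⟩ := hlt i (i + 1) (lt_add_one_iff'.2 le_rfl)
  exact ⟨(hpo.dom _ _ h1).2, h1, h2.symm⟩

end Pool.Agent.Helper617.RM
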