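import Mathlib
import Pool.Agent.Helper617.RM.FinCodes

namespace Pool.Agent.Helper617.RM

universe u

set_option linter.unusedSectionVars false
set_option linter.unusedVariables false

variable {N : L2Structure.{u}} [IsModelRCA0 N]

open IsModelRCA0

/-- `y` may be chosen as the value at `i` -/
def StepE (E : N.M → N.M → Prop) (X : Set N.M) (m c b i y : N.M) : Prop :=
  y ∈ X ∧ ∀ j, j < i → ∀ v, v < b → el m (pr j v) ∣ c → (v < y ∧ (E j i ↔ E v y))

def GoodE (E : N.M → N.M → Prop) (X : Set N.M) (m c b : N.M) : Prop :=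
  ∀ i, i < b → ∀ w, w < b → el m (pr i w) ∣ c →
    (StepE E X m c b i w ∧ (∀ y, y < w → ¬ StepE E X m c b i y) ∧
      ∀ j, j < i → ∃ v, v < b ∧ el m (pr j v) ∣ c)

def GamE (E : N.M → N.M → Prop) (X : Set N.M) (n w : N.M) : Prop :=
  ∃ m c b, GoodE E X m c b ∧ n < b ∧ w < b ∧ el m (pr n w) ∣ c

theorem stepE_D0 {E : N.M → N.M → Prop} (hE : D0 (fun v => E (v 0) (v 1))) {X : Set N.M}
    (hX : X ∈ N.Sets) {sm sc sb si sy : Ctx N → N.M} (hm : Tm sm) (hc : Tm sc) (hb : Tm sb)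
    (hi : Tm si) (hy : Tm sy) :
    D0 (fun v => StepE E X (sm v) (sc v) (sb v) (si v) (sy v)) := by
  refine D0.and (D0.mem hy hX) (D0.ball hi (D0.ball hb.tail (D0.imp ?_ (D0.and ?_ (D0.iff ?_ ?_)))))
  · exact D0.dvd (Tm.el hm.tail.tail ((Tm.var 1).pr (Tm.var 0))) hc.tail.tail
  · exact D0.lt (Tm.var 0) hy.tail.tail
  · exact hE.rel (Tm.var 1) hi.tail.tail
  · exact hE.rel (Tm.var 0) hy.tail.tail

theorem goodE_D0 {E : N.M → N.M → Prop} (hE : D0 (fun v => E (v 0) (v 1))) {X : Set N.M}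
    (hX : X ∈ N.Sets) {sm sc sb : Ctx N → N.M} (hm : Tm sm) (hc : Tm sc) (hb : Tm sb) :
    D0 (fun v => GoodE E X (sm v) (sc v) (sb v)) := by
  refine D0.ball hb (D0.ball hb.tail (D0.imp ?_ (D0.and ?_ (D0.and (D0.ball (Tm.var 0)
    (D0.not ?_)) (D0.ball (Tm.var 1) (D0.bex hb.tail.tail.tail ?_))))))
  · exact D0.dvd (Tm.el hm.tail.tail ((Tm.var 1).pr (Tm.var 0))) hc.tail.tail
  · exact stepE_D0 hE hX hm.tail.tail hc.tail.tail hb.tail.tail (Tm.var 1) (Tm.var 0)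
  · exact stepE_D0 hE hX hm.tail.tail.tail hc.tail.tail.tail hb.tail.tail.tail (Tm.var 2)
      (Tm.var 0)
  · exact D0.dvd (Tm.el hm.tail.tail.tail.tail ((Tm.var 1).pr (Tm.var 0))) hc.tail.tail.tail.tail

theorem gamE_S1 {E : N.M → N.M → Prop} (hE : D0 (fun v => E (v 0) (v 1))) {X : Set N.M}
    (hX : X ∈ N.Sets) : S1 (fun v => GamE E X (v 0) (v 1)) := by
  refine S1.ex (S1.ex (S1.ex (D0.S1 (D0.and (goodE_D0 hE hX (Tm.var 2) (Tm.var 1) (Tm.var 0))
    (D0.and (D0.lt (Tm.var 3) (Tm.var 0)) (D0.and (D0.lt (Tm.var 4) (Tm.var 0)) ?_))))))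
  exact D0.dvd (Tm.el (Tm.var 2) ((Tm.var 3).pr (Tm.var 4))) (Tm.var 1)

theorem stepE_congr {E : N.M → N.M → Prop} {X : Set N.M} {m c b m' c' b' i y : N.M}
    (h : ∀ j, j < i → ∀ v', v' < b' → el m' (pr j v') ∣ c' → v' < b ∧ el m (pr j v') ∣ c)
    (hs : StepE E X m c b i y) : StepE E X m' c' b' i y :=
  ⟨hs.1, fun j hj v hv hd => hs.2 j hj v (h j hj v hv hd).1 (h j hj v hv hd).2⟩

theorem goodE_unique {E : N.M → N.M → Prop} (hE : D0 (fun v => E (v 0) (v 1))) {X : Set N.M}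
    (hX : X ∈ N.Sets) {m c b m' c' b' : N.M}
    (h : GoodE E X m c b) (h' : GoodE E X m' c' b') (n : N.M) :
    ∀ i, i < n → ∀ w, w < b → ∀ w', w' < b' → i < b → i < b' → el m (pr i w) ∣ c →
      el m' (pr i w') ∣ c' → w = w' := by
  refine ind_D0 (P := fun n => ∀ i, i < n → ∀ w, w < b → ∀ w', w' < b' → i < b → i < b' →
    el m (pr i w) ∣ c → el m' (pr i w') ∣ c' → w = w') ?_ ?_ ?_ n
  · refine D0.ball (Tm.var 0) (D0.ball (Tm.const b) (D0.ball (Tm.const b')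
      (D0.imp (D0.lt (Tm.var 2) (Tm.const b))
      (D0.imp (D0.lt (Tm.var 2) (Tm.const b')) (D0.imp ?_ (D0.imp ?_
        (D0.eq (Tm.var 1) (Tm.var 0))))))))
    · exact D0.dvd (Tm.el (Tm.const m) ((Tm.var 2).pr (Tm.var 1))) (Tm.const c)
    · exact D0.dvd (Tm.el (Tm.const m') ((Tm.var 2).pr (Tm.var 0))) (Tm.const c')
  · intro i hi; exact absurd hi (not_lt_of_ge (zero_le' i))
  · intro n ih i hi
    rcases lt_or_eq_of_le (lt_add_one_iff'.1 hi) with hi | rfl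
    · exact ih i hi
    intro w hw w' hw' hib hib' hd hd'
    obtain ⟨g1, g2, g3⟩ := h i hib w hw hd
    obtain ⟨g1', g2', g3'⟩ := h' i hib' w' hw' hd'
    have hto : ∀ j, j < i → ∀ v', v' < b' → el m' (pr j v') ∣ c' → v' < b ∧
        el m (pr j v') ∣ c := by
      intro j hj v' hv' hdv'
      obtain ⟨v, hv, hdv⟩ := g3 j hj
      have := ih j hj v hv v' hv' (hj.trans hib) (hj.trans hib') hdv hdv'
      subst this
      exact ⟨hv, hdv⟩
    have hfrom : ∀ j, j < i → ∀ v, v < b → el m (pr j v) ∣ c → v < b' ∧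
        el m' (pr j v) ∣ c' := by
      intro j hj v hv hdv
      obtain ⟨v', hv', hdv'⟩ := g3' j hj
      have := ih j hj v hv v' hv' (hj.trans hib) (hj.trans hib') hdv hdv'
      subst this
      exact ⟨hv', hdv'⟩
    rcases lt_trichotomy w w' with hlt | heq | hlt
    · exact absurd (stepE_congr hto g1) (g2' w hlt)
    · exact heq
    · exact absurd (stepE_congr hfrom g1') (g2 w' hlt)

theorem gamE_unique {E : N.M → N.M → Prop} (hE : D0 (fun v => E (v 0) (v 1))) {X : Set N.M}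
    (hX : X ∈ N.Sets) {n w w' : N.M} (h : GamE E X n w) (h' : GamE E X n w') : w = w' := by
  obtain ⟨m, c, b, h1, h2, h3, h4⟩ := h
  obtain ⟨m', c', b', h1', h2', h3', h4'⟩ := h'
  exact goodE_unique hE hX h1 h1' (n + 1) n (lt_add_one_iff'.2 le_rfl) w h3 w' h3' h2 h2' h4 h4'

theorem exists_goodE {E : N.M → N.M → Prop} (hE : D0 (fun v => E (v 0) (v 1)))
    (hsymm : ∀ x y, E x y → E y x) {X : Set N.M}
    (hX : X ∈ N.Sets) (hR : IsRadoOn N X E) (n : N.M) :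
    ∃ m c b, GoodE E X m c b ∧ ∀ i, i < n → ∃ w, w < b ∧ (i < b ∧ el m (pr i w) ∣ c) := by
  refine ind_S1 (P := fun n => ∃ m c b, GoodE E X m c b ∧
    ∀ i, i < n → ∃ w, w < b ∧ (i < b ∧ el m (pr i w) ∣ c)) ?_ ?_ ?_ n
  · refine S1.ex (S1.ex (S1.ex (D0.S1 (D0.and (goodE_D0 hE hX (Tm.var 2) (Tm.var 1) (Tm.var 0))
      (D0.ball (Tm.var 3) (D0.bex (Tm.var 1) (D0.and (D0.lt (Tm.var 1) (Tm.var 2)) ?_)))))))
    exact D0.dvd (Tm.el (Tm.var 4) ((Tm.var 1).pr (Tm.var 0))) (Tm.var 3)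
  · exact ⟨0, 0, 0, fun i hi => absurd hi (not_lt_of_ge (zero_le' i)),
      fun i hi => absurd hi (not_lt_of_ge (zero_le' i))⟩
  · rintro n ⟨m, c, b, hg, hn⟩
    -- values for arguments below `n`
    have hval : ∀ j, j < n → ∀ v, v < b → el m (pr j v) ∣ c → v ∈ X := fun j hj v hv hd => by
      obtain ⟨_, _, hjb, _⟩ := hn j hj
      exact (hg j hjb v hv hd).1.1
    have hinc : ∀ j, j < n → ∀ v, v < b → el m (pr j v) ∣ c → ∀ j', j' < j → ∀ v', v' < b →
        el m (pr j' v') ∣ c → v' < v := fun j hj v hv hd j' hj' v' hv' hd' => by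
      obtain ⟨_, _, hjb, _⟩ := hn j hj
      exact ((hg j hjb v hv hd).1.2 j' hj' v' hv' hd').1
    obtain ⟨x, hxX, hxU, hxV, hEU, hEV⟩ := hR
      {v | v < b ∧ ∃ j, j < n ∧ (el m (pr j v) ∣ c ∧ E j n)}
      (comp_D0 (P := fun v => v < b ∧ ∃ j, j < n ∧ (el m (pr j v) ∣ c ∧ E j n))
        (D0.and (D0.lt (Tm.var 0) (Tm.const b)) (D0.bex (Tm.const n) (D0.and
          (D0.dvd (Tm.el (Tm.const m) ((Tm.var 0).pr (Tm.var 1))) (Tm.const c))
          (hE.rel (Tm.var 0) (Tm.const n))))))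
      {v | v ∈ X ∧ v < b ∧ ¬ ∃ j, j < n ∧ (el m (pr j v) ∣ c ∧ E j n)}
      (comp_D0 (P := fun v => v ∈ X ∧ v < b ∧ ¬ ∃ j, j < n ∧ (el m (pr j v) ∣ c ∧ E j n))
        (D0.and (D0.mem (Tm.var 0) hX) (D0.and (D0.lt (Tm.var 0) (Tm.const b)) (D0.not
          (D0.bex (Tm.const n) (D0.and
          (D0.dvd (Tm.el (Tm.const m) ((Tm.var 0).pr (Tm.var 1))) (Tm.const c))
          (hE.rel (Tm.var 0) (Tm.const n))))))))
      (by rintro v ⟨hvb, j, hj, hd, _⟩; exact hval j hj v hvb hd)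
      (fun v hv => hv.1) ⟨b, fun v hv => hv.1⟩ ⟨b, fun v hv => hv.2.1⟩
      (by
        rw [Set.disjoint_left]
        rintro v ⟨_, hv⟩ ⟨_, _, hv'⟩
        exact hv' hv)
    have hbx : b ≤ x := by
      by_contra hcon
      have hxb := not_le.1 hcon
      exact hxV ⟨hxX, hxb, fun h => hxU ⟨hxb, h⟩⟩
    have hstep : StepE E X m c b n x := by
      refine ⟨hxX, fun j hj v hv hd => ⟨lt_of_lt_of_le hv hbx, ?_, ?_⟩⟩
      · intro hjn
        exact hsymm _ _ (hEU v ⟨hv, j, hj, hd, hjn⟩)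
      · intro hvx
        by_contra hjn
        refine hEV v ⟨hval j hj v hv hd, hv, ?_⟩ (hsymm _ _ hvx)
        rintro ⟨j', hj', hd', hj'n⟩
        rcases lt_trichotomy j j' with h | h | h
        · exact lt_irrefl _ (hinc j' hj' v hv hd' j h v hv hd)
        · subst h; exact hjn hj'n
        · exact lt_irrefl _ (hinc j hj v hv hd j' h v hv hd')
    obtain ⟨y, _, hy, hymin⟩ := lnp_D0 (P := fun y => StepE E X m c b n y)
      (stepE_D0 hE hX (Tm.const m) (Tm.const c) (Tm.const b) (Tm.const n) (Tm.var 0)) x hstep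
    set b' := max b (max (n + 1) (y + 1)) with hb'
    have hbb' : b ≤ b' := le_max_left _ _
    have hnb' : n < b' := lt_of_lt_of_le (lt_add_one_iff'.2 le_rfl)
      ((le_max_left _ _).trans (le_max_right _ _))
    have hyb' : y < b' := lt_of_lt_of_le (lt_add_one_iff'.2 le_rfl)
      ((le_max_right _ _).trans (le_max_right _ _))
    obtain ⟨m', hm'⟩ := exists_base (pr b' b')
    obtain ⟨B, hB, hB2⟩ := exists_top (pr b' b') m'
    obtain ⟨c', _, _, hc', _⟩ := exists_code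
      (P := fun p => (∃ i, i < n ∧ ∃ w, w < b ∧ (p = pr i w ∧ el m p ∣ c)) ∨ p = pr n y)
      (D0.or (D0.bex (Tm.const n) (D0.bex (Tm.const b) (D0.and
        (D0.eq (Tm.var 2) ((Tm.var 1).pr (Tm.var 0)))
        (D0.dvd (Tm.el (Tm.const m) (Tm.var 2)) (Tm.const c)))))
        (D0.eq (Tm.var 0) (Tm.const _))).S1 hm' hB hB2
    have hchar : ∀ i w, i < b' → w < b' → (el m' (pr i w) ∣ c' ↔
        (i < n ∧ w < b ∧ el m (pr i w) ∣ c) ∨ (i = n ∧ w = y)) := by
      intro i w hi hw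
      rw [hc' _ (pr_lt_of_lt hi hw)]
      constructor
      · rintro (⟨i1, hi1, w1, hw1, he, hd1⟩ | he)
        · obtain ⟨h1, h2⟩ := pr_inj he
          subst h1; subst h2
          exact Or.inl ⟨hi1, hw1, hd1⟩
        · exact Or.inr (pr_inj he)
      · rintro (⟨h1, h2, h3⟩ | ⟨h1, h2⟩)
        · exact Or.inl ⟨i, h1, w, h2, rfl, h3⟩
        · exact Or.inr (by rw [h1, h2])
    -- comparison of the steps
    have hto : ∀ i, i ≤ n → ∀ z, StepE E X m c b i z → StepE E X m' c' b' i z := by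
      intro i hi z hs
      refine stepE_congr (fun j hj v hv hd => ?_) hs
      rcases (hchar j v (lt_of_lt_of_le hj (hi.trans hnb'.le)) hv).1 hd with h | h
      · exact ⟨h.2.1, h.2.2⟩
      · exact absurd (h.1 ▸ hj) (not_lt_of_ge hi)
    have hfrom : ∀ i, i ≤ n → ∀ z, StepE E X m' c' b' i z → StepE E X m c b i z := by
      intro i hi z hs
      refine stepE_congr (fun j hj v hv hd => ?_) hs
      have hvb' := lt_of_lt_of_le hv hbb'
      exact ⟨hvb', (hchar j v (lt_of_lt_of_le hj (hi.trans hnb'.le)) hvb').2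
        (Or.inl ⟨lt_of_lt_of_le hj hi, hv, hd⟩)⟩
    refine ⟨m', c', b', ?_, ?_⟩
    · intro i hi w hw hd
      rcases (hchar i w hi hw).1 hd with ⟨h1, h2, h3⟩ | ⟨h1, h2⟩
      · obtain ⟨_, _, hib, _⟩ := hn i h1
        obtain ⟨g1, g2, g3⟩ := hg i hib w h2 h3
        refine ⟨hto i h1.le w g1, fun z hz hs => g2 z hz (hfrom i h1.le z hs), fun j hj => ?_⟩
        obtain ⟨v, hv, hdv⟩ := g3 j hj
        have hvb' := lt_of_lt_of_le hv hbb'
        exact ⟨v, hvb', (hchar j v (hj.trans (h1.trans hnb')) hvb').2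
          (Or.inl ⟨hj.trans h1, hv, hdv⟩)⟩
      · subst h1; subst h2
        refine ⟨hto i le_rfl w hy, fun z hz hs => hymin z hz (hfrom i le_rfl z hs),
          fun j hj => ?_⟩
        obtain ⟨v, hv, hjb, hdv⟩ := hn j hj
        have hvb' := lt_of_lt_of_le hv hbb'
        exact ⟨v, hvb', (hchar j v (hj.trans hnb') hvb').2 (Or.inl ⟨hj, hv, hdv⟩)⟩
    · intro i hi
      rcases lt_or_eq_of_le (lt_add_one_iff'.1 hi) with h | h
      · obtain ⟨w, hw, hib, hd⟩ := hn i h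
        have hwb' := lt_of_lt_of_le hw hbb'
        exact ⟨w, hwb', h.trans hnb', (hchar i w (h.trans hnb') hwb').2
          (Or.inl ⟨h, hw, hd⟩)⟩
      · subst h
        exact ⟨y, hyb', hnb', (hchar i y hnb' hyb').2 (Or.inr ⟨rfl, rfl⟩)⟩

/-- In a model of `RCA₀`, a graph on all numbers embeds into every Rado graph by a strictly
increasing map. -/
theorem exists_embedding {E : N.M → N.M → Prop} (hE : D0 (fun v => E (v 0) (v 1)))
    (hsymm : ∀ x y, E x y → E y x) (hirr : ∀ x, ¬ E x x) {X : Set N.M}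
    (hX : X ∈ N.Sets) (hR : IsRadoOn N X E) :
    ∃ f : N.M → N.M, D0 (fun v => v 1 = f (v 0)) ∧ (∀ i, f i ∈ X) ∧ (∀ i j, i < j → f i < f j) ∧
      ∀ i j, E i j ↔ E (f i) (f j) := by
  have hex : ∀ n, ∃ w, GamE E X n w := by
    intro n
    obtain ⟨m, c, b, hg, h⟩ := exists_goodE hE hsymm hX hR (n + 1)
    obtain ⟨w, hw, hnb, hd⟩ := h n (lt_add_one_iff'.2 le_rfl)
    exact ⟨w, m, c, b, hg, hnb, hw, hd⟩
  choose f hf using hex
  have key : ∀ n y, y = f n ↔ GamE E X n y := fun n y =>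
    ⟨fun h => h ▸ hf n, fun h => gamE_unique hE hX h (hf n)⟩
  have hstep : ∀ n, f n ∈ X ∧ ∀ j, j < n → (f j < f n ∧ (E j n ↔ E (f j) (f n))) := by
    intro n
    obtain ⟨m, c, b, hg, hnb, hw, hd⟩ := hf n
    obtain ⟨g1, g2, g3⟩ := hg n hnb (f n) hw hd
    refine ⟨g1.1, fun j hj => ?_⟩
    obtain ⟨v, hv, hdv⟩ := g3 j hj
    have : v = f j := (key j v).2 ⟨m, c, b, hg, hj.trans hnb, hv, hdv⟩
    subst this
    exact g1.2 j hj _ hv hdv
  refine ⟨f, ?_, fun i => (hstep i).1, fun i j hij => ((hstep j).2 i hij).1, fun i j => ?_⟩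
  · refine d0_of_D1 (R := fun n y => y = f n) ?_ ?_
    · exact (gamE_S1 hE hX).congr fun v => (key _ _).symm
    · refine S1.congr (R := fun v => ∃ z, GamE E X (v 0) z ∧ ¬ v 1 = z) ?_ fun v => ?_
      · exact S1.ex (S1.and (S1.rel (gamE_S1 hE hX) (Tm.var 1) (Tm.var 0))
          (D0.eq (Tm.var 2) (Tm.var 0)).not.S1)
      · constructor
        · rintro ⟨z, hz, hne⟩ h
          exact hne (h.trans ((key _ _).2 hz).symm)
        · intro h
          exact ⟨f (v 0), hf _, h⟩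
  · rcases lt_trichotomy i j with h | h | h
    · exact ((hstep j).2 i h).2
    · subst h
      exact ⟨fun h => absurd h (hirr _), fun h => absurd h (hirr _)⟩
    · constructor
      · intro h1; exact hsymm _ _ (((hstep i).2 j h).2.1 (hsymm _ _ h1))
      · intro h1; exact hsymm _ _ (((hstep i).2 j h).2.2 (hsymm _ _ h1))

end Pool.Agent.Helper617.RM
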