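import Mathlib
import Pool.Agent.Helper617.RM.ACATools

namespace Pool.Agent.Helper617.RM

universe u

set_option linter.unusedSectionVars false
set_option linter.unusedVariables false

variable {N : L2Structure.{u}} [IsModelRCA0 N] [Sig1 N]

open IsModelRCA0

/-- choice of least values -/
theorem exists_fun {R : N.M → N.M → Prop} (hR : D0 (fun v => R (v 0) (v 1)))
    (h : ∀ m, ∃ z, R m z) : ∃ f : N.M → N.M, D0 (fun v => v 1 = f (v 0)) ∧ ∀ m, R m (f m) := by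
  have hleast : ∀ m, ∃ z, R m z ∧ ∀ x, x < z → ¬ R m x := by
    intro m
    obtain ⟨z, hz⟩ := h m
    obtain ⟨n, _, h1, h2⟩ := lnp_D0 (P := fun x => R m x) (hR.rel (Tm.const m) (Tm.var 0)) z hz
    exact ⟨n, h1, h2⟩
  choose f hf1 hf2 using hleast
  refine ⟨f, ?_, hf1⟩
  refine D0.congr (R := fun v => R (v 0) (v 1) ∧ ∀ x, x < v 1 → ¬ R (v 0) x) ?_ fun v => ?_
  · exact D0.and hR (D0.ball (Tm.var 1) (hR.rel (Tm.var 1) (Tm.var 0)).not)
  · constructor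
    · rintro ⟨h1, h2⟩
      rcases lt_trichotomy (v 1) (f (v 0)) with h | h | h
      · exact absurd h1 (hf2 _ _ h)
      · exact h
      · exact absurd (hf1 (v 0)) (h2 _ h)
    · intro h
      rw [h]
      exact ⟨hf1 _, hf2 _⟩

/-- two-variable version -/
theorem exists_fun2 {R : N.M → N.M → N.M → Prop} (hR : D0 (fun v => R (v 0) (v 1) (v 2)))
    (h : ∀ m n, ∃ z, R m n z) : ∃ f : N.M → N.M → N.M, D0 (fun v => v 2 = f (v 0) (v 1)) ∧
      ∀ m n, R m n (f m n) := by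
  have hleast : ∀ m n, ∃ z, R m n z ∧ ∀ x, x < z → ¬ R m n x := by
    intro m n
    obtain ⟨z, hz⟩ := h m n
    obtain ⟨z, _, h1, h2⟩ := lnp_D0 (P := fun x => R m n x)
      (hR.rel3 (Tm.const m) (Tm.const n) (Tm.var 0)) z hz
    exact ⟨z, h1, h2⟩
  choose f hf1 hf2 using hleast
  refine ⟨f, ?_, hf1⟩
  refine D0.congr (R := fun v => R (v 0) (v 1) (v 2) ∧ ∀ x, x < v 2 → ¬ R (v 0) (v 1) x) ?_
    fun v => ?_
  · exact D0.and hR (D0.ball (Tm.var 2) (hR.rel3 (Tm.var 1) (Tm.var 2) (Tm.var 0)).not)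
  · constructor
    · rintro ⟨h1, h2⟩
      rcases lt_trichotomy (v 2) (f (v 0) (v 1)) with h | h | h
      · exact absurd h1 (hf2 _ _ _ h)
      · exact h
      · exact absurd (hf1 (v 0) (v 1)) (h2 _ h)
    · intro h
      rw [h]
      exact ⟨hf1 _ _, hf2 _ _⟩

theorem lt_of_increasing' {f : N.M → N.M} (hf : D0 (fun v => v 1 = f (v 0)))
    (hinc : ∀ r, f r < f (r + 1)) {r r' : N.M} (h : r < r') : f r < f r' := by
  obtain ⟨d, rfl⟩ := (lt_iff_add'' _ _).1 h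
  refine ind_D0 (P := fun d => f r < f (r + d + 1)) ?_ ?_ ?_ d
  · refine D0.subst_fun hf (P := fun v x => f r < x) ?_ (((Tm.const r).add (Tm.var 0)).add Tm.one)
    exact D0.lt (Tm.const _) (Tm.var 0)
  · rw [add_zero]; exact hinc r
  · intro d ih
    rw [← add_assoc]
    exact ih.trans (hinc _)

theorem self_le_of_increasing' {f : N.M → N.M} (hf : D0 (fun v => v 1 = f (v 0)))
    (hinc : ∀ r, f r < f (r + 1)) (r : N.M) : r ≤ f r := by
  refine ind_D0 (P := fun r => r ≤ f r) ?_ (zero_le' _) ?_ r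
  · exact D0.subst_fun hf (P := fun v x => v 0 ≤ x) (D0.le (Tm.var 1) (Tm.var 0)) (Tm.var 0)
  · intro r ih
    exact add_one_le_iff'.2 (lt_of_le_of_lt ih (hinc r))

theorem inj_of_increasing' {f : N.M → N.M} (hf : D0 (fun v => v 1 = f (v 0)))
    (hinc : ∀ r, f r < f (r + 1)) {r r' : N.M} (h : f r = f r') : r = r' := by
  rcases lt_trichotomy r r' with h' | h' | h'
  · exact absurd h (lt_of_increasing' hf hinc h').ne
  · exact h'
  · exact absurd h (lt_of_increasing' hf hinc h').ne'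

/-- a subsequence along which boundedly coloured sequences converge -/
theorem bw {P : N.M → N.M → N.M} (hP : D0 (fun v => v 2 = P (v 0) (v 1))) {k : N.M}
    (hk : ∀ e n, P e n < k) : ∃ nn : N.M → N.M, D0 (fun v => v 1 = nn (v 0)) ∧
      (∀ l, nn l < nn (l + 1)) ∧ ∀ e l, e < l → P e (nn l) = P e (nn (e + 1)) := by
  let Yt : N.M → N.M → Prop := fun τ n => ∀ e, ∀ i, MemC (pr e i) τ → i = P e n
  have hYt : D0 (fun v => Yt (v 0) (v 1)) := by
    refine D0.all (D0.all (D0.imp (MemC_D0 ((Tm.var 1).pr (Tm.var 0)) (Tm.var 2)) ?_))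
    exact D0.rel3 (R := fun e n i => i = P e n) hP (Tm.var 1) (Tm.var 3) (Tm.var 0)
  let Big : N.M → Prop := fun τ => ∀ b, ∃ n, b ≤ n ∧ Yt τ n
  have hBig : D0 (fun v => Big (v 0)) :=
    D0.all (D0.ex (D0.and (D0.le (Tm.var 1) (Tm.var 0)) (hYt.rel (Tm.var 2) (Tm.var 0))))
  let Inv : N.M → Prop := fun x => ∃ l, ∃ τ, ∃ n, x = pr l (pr τ n) ∧ Big τ
  have hInv : D0 (fun v => Inv (v 0)) := by
    refine D0.ex (D0.ex (D0.ex (D0.and ?_ (hBig.pred (Tm.var 1)))))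
    exact D0.eq (Tm.var 3) ((Tm.var 2).pr ((Tm.var 1).pr (Tm.var 0)))
  let St : N.M → N.M → Prop := fun x x' => ∃ l, ∃ τ, ∃ n, ∃ τ', ∃ n', ∃ i,
    x = pr l (pr τ n) ∧ (x' = pr (l + 1) (pr τ' n') ∧
      ((∀ r, MemC r τ' ↔ (MemC r τ ∨ r = pr l i)) ∧ (n < n' ∧ Yt τ' n')))
  have hSt : D0 (fun v => St (v 0) (v 1)) := by
    refine D0.ex (D0.ex (D0.ex (D0.ex (D0.ex (D0.ex (D0.and ?_ (D0.and ?_ (D0.and ?_
      (D0.and ?_ ?_)))))))))
    · exact D0.eq (Tm.var 6) ((Tm.var 5).pr ((Tm.var 4).pr (Tm.var 3)))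
    · exact D0.eq (Tm.var 7) (((Tm.var 5).add Tm.one).pr ((Tm.var 2).pr (Tm.var 1)))
    · refine D0.all (D0.iff (MemC_D0 (Tm.var 0) (Tm.var 3)) (D0.or
        (MemC_D0 (Tm.var 0) (Tm.var 5)) (D0.eq (Tm.var 0) ((Tm.var 6).pr (Tm.var 1)))))
    · exact D0.lt (Tm.var 3) (Tm.var 1)
    · exact hYt.rel (Tm.var 2) (Tm.var 1)
  obtain ⟨v0, hv0⟩ := exists_isC (N := N) (P := fun _ => False) D0.false (b := 0)
    (fun r hr => hr.elim)
  obtain ⟨f, hf, hf0, hfI, hfS⟩ := dc hInv hSt (by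
    rintro x ⟨l, τ, n, rfl, hbig⟩
    -- a colour that occurs infinitely often
    have hex : ∃ i, i < k ∧ ∀ b, ∃ n, b ≤ n ∧ (Yt τ n ∧ i = P l n) := by
      by_contra hcon
      push Not at hcon
      obtain ⟨B, hB⟩ := bounding (Q := fun i b => ∀ n, b ≤ n → Yt τ n → ¬ i = P l n) (by
        refine D0.all (D0.imp (D0.le (Tm.var 1) (Tm.var 0)) (D0.imp
          (hYt.rel (Tm.const τ) (Tm.var 0)) (D0.not ?_)))
        exact D0.rel3 (R := fun e n i => i = P e n) hP (Tm.const l) (Tm.var 0) (Tm.var 2)) k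
        (fun i hi => hcon i hi)
      obtain ⟨n, hn, hY⟩ := hbig B
      obtain ⟨b, hb, hno⟩ := hB (P l n) (hk l n)
      exact hno n (hb.le.trans hn) hY rfl
    obtain ⟨i, _, hi⟩ := hex
    obtain ⟨τ', _, hτ'⟩ := exists_isC (P := fun r => MemC r τ ∨ r = pr l i)
      (D0.or (MemC_D0 (Tm.var 0) (Tm.const τ)) (D0.eq (Tm.var 0) (Tm.const _)))
      (b := τ + (pr l i + 1)) (fun r hr => by
        rcases hr with hr | rfl
        · exact lt_of_lt_of_le hr.lt (le_add_of_nonneg_right (zero_le' _))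
        · exact lt_of_lt_of_le (lt_succ_self' _) (le_add_of_nonneg_left (zero_le' _)))
    have hY : ∀ n, Yt τ n → i = P l n → Yt τ' n := by
      intro n h1 h2 e i' hm
      rcases (hτ' _).1 hm with hm | hm
      · exact h1 e i' hm
      · obtain ⟨rfl, rfl⟩ := pr_inj hm
        exact h2
    obtain ⟨n', hn', h1, h2⟩ := hi (n + 1)
    exact ⟨pr (l + 1) (pr τ' n'), ⟨l, τ, n, τ', n', i, rfl, rfl, hτ', add_one_le_iff'.1 hn',
      hY n' h1 h2⟩, l + 1, τ', n', rfl, fun b => by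
        obtain ⟨n, hn, h1, h2⟩ := hi b
        exact ⟨n, hn, hY n h1 h2⟩⟩) (a := pr 0 (pr v0 0)) ⟨0, v0, 0, rfl, fun b =>
      ⟨b, le_rfl, fun e i h => absurd ((hv0.2 _).1 h) id⟩⟩
  -- the components
  have hcomp : ∀ l, ∃ τ, ∃ n, f l = pr l (pr τ n) := by
    intro l
    refine ind_D0 (P := fun l => ∃ τ, ∃ n, f l = pr l (pr τ n)) ?_ ⟨v0, 0, hf0⟩ ?_ l
    · refine D0.subst_fun hf (P := fun v x => ∃ τ, ∃ n, x = pr (v 0) (pr τ n)) ?_ (Tm.var 0)
      exact D0.ex (D0.ex (D0.eq (Tm.var 2) ((Tm.var 3).pr ((Tm.var 1).pr (Tm.var 0)))))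
    · rintro l ⟨τ, n, h⟩
      obtain ⟨l', τ1, n1, τ', n', i, h1, h2, _⟩ := hfS l
      rw [h] at h1
      rw [← (pr_inj h1).1] at h2
      exact ⟨τ', n', h2⟩
  choose τf nn hcompf using hcomp
  have hnn : D0 (fun v => v 1 = nn (v 0)) := by
    refine D0.congr (R := fun v => ∃ x, x = f (v 0) ∧ ∃ τ, x = pr (v 0) (pr τ (v 1))) ?_
      fun v => ?_
    · refine D0.ex (D0.and (D0.rel (R := fun k x => x = f k) hf (Tm.var 1) (Tm.var 0))
        (D0.ex (D0.eq (Tm.var 1) ((Tm.var 2).pr ((Tm.var 0).pr (Tm.var 3))))))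
    · constructor
      · rintro ⟨x, rfl, τ, h⟩
        rw [hcompf] at h
        exact ((pr_inj (pr_inj h).2).2).symm
      · intro h
        exact ⟨_, rfl, τf (v 0), by rw [h]; exact hcompf _⟩
  have hτf : D0 (fun v => v 1 = τf (v 0)) := by
    refine D0.congr (R := fun v => ∃ x, x = f (v 0) ∧ ∃ n, x = pr (v 0) (pr (v 1) n)) ?_
      fun v => ?_
    · refine D0.ex (D0.and (D0.rel (R := fun k x => x = f k) hf (Tm.var 1) (Tm.var 0))
        (D0.ex (D0.eq (Tm.var 1) ((Tm.var 2).pr ((Tm.var 3).pr (Tm.var 0))))))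
    · constructor
      · rintro ⟨x, rfl, n, h⟩
        rw [hcompf] at h
        exact ((pr_inj (pr_inj h).2).1).symm
      · intro h
        exact ⟨_, rfl, nn (v 0), by rw [h]; exact hcompf _⟩
  have hstep : ∀ l, (∃ i, ∀ r, MemC r (τf (l + 1)) ↔ (MemC r (τf l) ∨ r = pr l i)) ∧
      (nn l < nn (l + 1) ∧ Yt (τf (l + 1)) (nn (l + 1))) := by
    intro l
    obtain ⟨l', τ1, n1, τ', n', i, h1, h2, h3, h4, h5⟩ := hfS l
    rw [hcompf] at h1 h2
    obtain ⟨rfl, rfl, rfl⟩ := pr3_inj h1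
    obtain ⟨_, rfl, rfl⟩ := pr3_inj h2
    exact ⟨⟨i, h3⟩, h4, h5⟩
  have hmono : ∀ l d r, MemC r (τf l) → MemC r (τf (l + d)) := by
    intro l d
    refine ind_D0 (P := fun d => ∀ r, MemC r (τf l) → MemC r (τf (l + d))) ?_ ?_ ?_ d
    · refine D0.subst_fun hτf (P := fun v x => ∀ r, MemC r (τf l) → MemC r x) ?_
        ((Tm.const l).add (Tm.var 0))
      exact D0.all (D0.imp (MemC_D0 (Tm.var 0) (Tm.const _)) (MemC_D0 (Tm.var 0) (Tm.var 1)))
    · intro r hr; rw [add_zero]; exact hr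
    · intro d ih r hr
      rw [← add_assoc]
      obtain ⟨⟨i, hi⟩, _⟩ := hstep (l + d)
      exact (hi r).2 (Or.inl (ih r hr))
  refine ⟨nn, hnn, fun l => (hstep l).2.1, fun e l hel => ?_⟩
  obtain ⟨⟨i, hi⟩, _, hY1⟩ := hstep e
  have hm : MemC (pr e i) (τf (e + 1)) := (hi _).2 (Or.inr rfl)
  obtain ⟨d, rfl⟩ := (lt_iff_add'' _ _).1 hel
  have hm' : MemC (pr e i) (τf (e + d + 1)) := by
    have := hmono (e + 1) d _ hm
    rwa [show e + 1 + d = e + d + 1 by ring] at this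
  have hY2 := (hstep (e + d)).2.2
  rw [← hY1 e i hm, ← hY2 e i hm']

end Pool.Agent.Helper617.RM
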