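import Mathlib
import Pool.Agent.Helper617.RM.HLLimit

namespace Pool.Agent.Helper617.RM

universe u

set_option linter.unusedSectionVars false
set_option linter.unusedVariables false

variable {N : L2Structure.{u}} [IsModelRCA0 N] [Sig1 N]

open IsModelRCA0

/-- the range of a sequence -/
def Rg (af : N.M → N.M) : Set N.M := {a | ∃ r, a = af r}

section strong

variable {af : N.M → N.M} (haf : D0 (fun v => v 1 = af (v 0))) (hinc : ∀ r, af r < af (r + 1))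

include haf

theorem Rg_mem : Rg af ∈ N.Sets :=
  comp_D0 (P := fun a => ∃ r, a = af r) (D0.ex (D0.rel (R := fun k x => x = af k) haf
    (Tm.var 0) (Tm.var 1)))

include hinc

theorem Rg_inf : ¬ IsFin N (Rg af) :=
  not_isFin_iff.2 fun b => ⟨af b, ⟨b, rfl⟩, self_le_of_increasing' haf hinc b⟩

theorem Rg_first {a : N.M} (h : IsFirst N (Rg af) a) : a = af 0 := by
  obtain ⟨⟨r, rfl⟩, h2⟩ := h
  rcases eq_zero_or_succ r with rfl | ⟨r', rfl⟩
  · rfl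
  · exact absurd (lt_of_increasing' haf hinc (lt_of_le_of_lt (zero_le' r') (lt_succ_self' r')))
      (h2 (af 0) ⟨0, rfl⟩)

theorem Rg_next {a b : N.M} (h : IsNext N (Rg af) a b) : ∃ r, a = af r ∧ b = af (r + 1) := by
  obtain ⟨⟨r, rfl⟩, ⟨r', rfl⟩, h1, h2⟩ := h
  refine ⟨r, rfl, ?_⟩
  have h1 : af r < af r' := h1
  have hrr : r < r' := by
    by_contra hcon
    push Not at hcon
    rcases lt_or_eq_of_le hcon with h | rfl
    · exact absurd (lt_of_increasing' haf hinc h) (not_lt_of_ge (le_of_lt h1))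
    · exact absurd h1 (lt_irrefl _)
  rcases lt_or_eq_of_le (add_one_le_iff'.2 hrr) with h | h
  · exact absurd ⟨hinc r, lt_of_increasing' haf hinc h⟩ (h2 (af (r + 1)) ⟨_, rfl⟩)
  · rw [h]

/-- construction of strong subtrees from selection functions -/
theorem exists_strong {T : Set N.M} (hT : IsTree N T) {x1 : N.M} (hx1 : Lv T x1 (af 0))
    {sel : N.M → N.M → N.M} (hsel : D0 (fun v => v 2 = sel (v 0) (v 1)))
    (hs : ∀ r t, Lv T t (af r + 1) → Ini x1 t →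
      Lv T (sel r t) (af (r + 1)) ∧ Ini t (sel r t)) :
    ∃ S, IsStrongSub N T (Rg af) S ∧ IsDownward N T (Rg af) S ∧
      (∀ u, u ∈ S → Lv T u (af 0) → u = x1) ∧
      ∀ r u, u ∈ S → Lv T u (af (r + 1)) → ∃ t, Lv T t (af r + 1) ∧ Ini x1 t ∧ u = sel r t := by
  have hTm := hT.mem
  let S : Set N.M := {u | ∃ r, (Lv T u (af r)) ∧ (Ini x1 u ∧ ∀ r', r' < r → ∀ t,
    Lv T t (af r' + 1) → Ini t u → ∀ z, Lv T z (af (r' + 1)) → Ini z u → z = sel r' t)}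
  have hSm : S ∈ N.Sets := by
    refine comp_D0 (P := fun u => ∃ r, (Lv T u (af r)) ∧ (Ini x1 u ∧ ∀ r', r' < r → ∀ t,
      Lv T t (af r' + 1) → Ini t u → ∀ z, Lv T z (af (r' + 1)) → Ini z u → z = sel r' t)) ?_
    refine D0.ex (D0.and ?_ (D0.and (Ini_D0 (Tm.const x1) (Tm.var 1)) (D0.ball (Tm.var 0)
      (D0.all (D0.imp ?_ (D0.imp (Ini_D0 (Tm.var 0) (Tm.var 3)) (D0.all (D0.imp ?_
        (D0.imp (Ini_D0 (Tm.var 0) (Tm.var 4)) ?_)))))))))
    · exact D0.subst_fun haf (P := fun v x => Lv T (v 1) x) (Lv_D0 hTm (Tm.var 2) (Tm.var 0))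
        (Tm.var 0)
    · exact D0.subst_fun haf (P := fun v x => Lv T (v 0) (x + 1))
        (Lv_D0 hTm (Tm.var 1) ((Tm.var 0).add Tm.one)) (Tm.var 1)
    · exact D0.subst_fun haf (P := fun v x => Lv T (v 0) x)
        (Lv_D0 hTm (Tm.var 1) (Tm.var 0)) ((Tm.var 2).add Tm.one)
    · exact D0.rel3 (R := fun r t z => z = sel r t) hsel (Tm.var 2) (Tm.var 1) (Tm.var 0)
  have hlen : ∀ {u r}, u ∈ S → Lv T u (af r) → Ini x1 u ∧ ∀ r', r' < r → ∀ t,
      Lv T t (af r' + 1) → Ini t u → ∀ z, Lv T z (af (r' + 1)) → Ini z u → z = sel r' t := by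
    rintro u r ⟨r1, h1, h2, h3⟩ hr
    obtain rfl := inj_of_increasing' haf hinc (h1.2.len_unique hr.2)
    exact ⟨h2, h3⟩
  have hmono : ∀ {r r'}, r < r' → af r < af r' := fun h => lt_of_increasing' haf hinc h
  have hmono' : ∀ {r r'}, r ≤ r' → af r ≤ af r' := by
    intro r r' h
    rcases lt_or_eq_of_le h with h | rfl
    · exact (hmono h).le
    · exact le_rfl
  have h0le : ∀ r, af 0 ≤ af r := fun r => hmono' (zero_le' r)
  -- extension
  have hext : ∀ r s t, s ∈ S → Lv T s (af r) → Lv T t (af r + 1) → Ini s t →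
      sel r t ∈ S ∧ Lv T (sel r t) (af (r + 1)) ∧ Ini t (sel r t) := by
    intro r s t hsS hsL htL hst
    obtain ⟨h1, h2⟩ := hlen hsS hsL
    obtain ⟨h3, h4⟩ := hs r t htL (h1.trans hst)
    refine ⟨⟨r + 1, h3, (h1.trans hst).trans h4, fun r' hr' t' ht' htu z hz hzu => ?_⟩, h3, h4⟩
    rcases lt_or_eq_of_le (lt_add_one_iff'.1 hr') with hr' | rfl
    · have hsu : Ini s (sel r t) := hst.trans h4
      have e1 : Ini t' s := htu.comp hsu ht'.2 hsL.2 (add_one_le_iff'.2 (hmono hr'))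
      have e2 : Ini z s := hzu.comp hsu hz.2 hsL.2 (hmono' (add_one_le_iff'.2 hr'))
      exact h2 r' hr' t' ht' e1 z hz e2
    · have e1 : t' = t := res_unique ht'.2 htL.2 htu h4
      have e2 : z = sel r' t := res_unique hz.2 h3.2 hzu (Ini.refl h3.2.sq)
      rw [e1, e2]
  have hx1S : x1 ∈ S := ⟨0, hx1, Ini.refl hx1.2.sq, fun r' hr' =>
    absurd hr' (not_lt_of_ge (zero_le' r'))⟩
  have hroot : ∀ u, u ∈ S → Lv T u (af 0) → u = x1 := fun u hu hL =>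
    ((hlen hu hL).1.eq hx1.2 hL.2).symm
  have hne : ∀ r, ∃ u, u ∈ S ∧ Lv T u (af r) := by
    intro r
    refine ind_D0 (P := fun r => ∃ u, u ∈ S ∧ Lv T u (af r)) ?_ ⟨x1, hx1S, hx1⟩ ?_ r
    · exact D0.ex (D0.and (D0.mem (Tm.var 0) hSm) (D0.subst_fun haf
        (P := fun v x => Lv T (v 0) x) (Lv_D0 hTm (Tm.var 1) (Tm.var 0)) (Tm.var 1)))
    · rintro r ⟨s, hsS, hsL⟩
      obtain ⟨t, ht, hst⟩ := hT.succ hsL
      obtain ⟨h1, h2, _⟩ := hext r s t hsS hsL ht hst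
      exact ⟨_, h1, h2⟩
  refine ⟨S, ⟨hSm, ?_, ?_, ?_, ?_⟩, ?_, hroot, ?_⟩
  · rintro s ⟨r, h1, _⟩
    exact ⟨af r, ⟨r, rfl⟩, lv_iff.2 h1⟩
  · rintro a ⟨r, rfl⟩
    obtain ⟨u, h1, h2⟩ := hne r
    exact ⟨u, h1, lv_iff.2 h2⟩
  · intro a ha s hs' s' hs''
    obtain rfl := Rg_first haf hinc ha
    rw [hroot s hs'.1 (lv_iff.1 hs'.2), hroot s' hs''.1 (lv_iff.1 hs''.2)]
  · intro a b hab s hs' t ht hst
    obtain ⟨r, rfl, rfl⟩ := Rg_next haf hinc hab
    have hsL := lv_iff.1 hs'.2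
    obtain ⟨hst, n, hn, htn⟩ := immSucc_iff.1 hst
    obtain rfl := hn.len_unique hsL.2
    have htL : Lv T t (af r + 1) := ⟨ht, htn⟩
    obtain ⟨h1, h2, h3⟩ := hext r s t hs'.1 hsL htL hst
    refine ⟨sel r t, ⟨⟨h1, lv_iff.2 h2⟩, ini_iff.2 h3⟩, ?_⟩
    rintro u ⟨⟨hu, huL⟩, htu⟩
    have huL := lv_iff.1 huL
    exact (hlen hu huL).2 r (lt_succ_self' r) t htL (ini_iff.1 htu) u huL (Ini.refl huL.2.sq)
  · intro a b hab u hu
    obtain ⟨r, rfl, rfl⟩ := Rg_next haf hinc hab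
    have huL := lv_iff.1 hu.2
    obtain ⟨h1, h2⟩ := hlen hu.1 huL
    obtain ⟨s, hs1, hsu⟩ := hT.res huL (hinc r).le
    refine ⟨s, ⟨⟨r, hs1, h1.comp hsu hx1.2 hs1.2 (h0le r), fun r' hr' t ht hts z hz hzs => ?_⟩,
      lv_iff.2 hs1⟩, ini_iff.2 hsu⟩
    exact h2 r' (hr'.trans (lt_succ_self' r)) t ht (hts.trans hsu) z hz (hzs.trans hsu)
  · intro r u hu huL
    obtain ⟨h1, h2⟩ := hlen hu huL
    obtain ⟨t, ht, htu⟩ := hT.res huL (add_one_le_iff'.2 (hinc r))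
    refine ⟨t, ht, h1.comp htu hx1.2 ht.2 ((h0le r).trans (lt_succ_self' _).le), ?_⟩
    exact h2 r (lt_succ_self' r) t ht htu u huL (Ini.refl huL.2.sq)

end strong

end Pool.Agent.Helper617.RM
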