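import Mathlib
import Pool.Agent.Helper617.RM.ACATools

namespace Pool.Agent.Helper617.RM

universe u

set_option linter.unusedSectionVars false
set_option linter.unusedVariables false

variable {N : L2Structure.{u}} [IsModelRCA0 N]

open IsModelRCA0

/-- nodes with prescribed colours -/
def InD (T : Set N.M) (C : N.M → N.M → N.M) (v t : N.M) : Prop :=
  t ∈ T ∧ ∀ w, ∀ i, MemC (pr w i) v → i = C t w

/-- conditions: the nodes with the prescribed colours are dense above `s` -/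
def Cond (T : Set N.M) (C : N.M → N.M → N.M) (s v : N.M) : Prop :=
  s ∈ T ∧ ∀ t, t ∈ T → Ini s t → ∃ t', t' ∈ T ∧ (Ini t t' ∧ InD T C v t')

def Sub (v v' : N.M) : Prop := ∀ r, r < v → MemC r v → MemC r v'

/-- `(s', v')` is a condition extending `(s, v)` -/
def Xt (T : Set N.M) (C : N.M → N.M → N.M) (s v s' v' : N.M) : Prop :=
  Cond T C s' v' ∧ (Ini s s' ∧ Sub v v')

/-- no extension of `(s, v)` gives `w` a colour less than `j` -/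
def Ew (T : Set N.M) (C : N.M → N.M → N.M) (s v j w : N.M) : Prop :=
  ∀ s', ∀ v', ∀ i, Xt T C s v s' v' → MemC (pr w i) v' → j ≤ i

def Gd (T W : Set N.M) (C : N.M → N.M → N.M) (s v y j : N.M) : Prop :=
  Cond T C s v ∧ (y ∈ W ∧ ∀ y', y' ∈ W → Ini y y' → ∃ w, w ∈ W ∧ (Ini y' w ∧ Ew T C s v j w))

theorem Sub.mem {v v' r : N.M} (h : Sub v v') (hr : MemC r v) : MemC r v' := h r hr.lt hr

theorem Sub.trans {v v' v'' : N.M} (h : Sub v v') (h' : Sub v' v'') : Sub v v'' :=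
  fun r _ hr => h'.mem (h.mem hr)

theorem Sub.refl (v : N.M) : Sub v v := fun r _ hr => hr

theorem Xt.trans {T : Set N.M} {C : N.M → N.M → N.M} {s v s' v' s'' v'' : N.M}
    (h : Xt T C s v s' v') (h' : Xt T C s' v' s'' v'') : Xt T C s v s'' v'' :=
  ⟨h'.1, h.2.1.trans h'.2.1, h.2.2.trans h'.2.2⟩

theorem exists_insert (v e : N.M) : ∃ v', ∀ r, MemC r v' ↔ (MemC r v ∨ r = e) := by
  obtain ⟨v', _, h⟩ := exists_isC (P := fun r => MemC r v ∨ r = e)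
    (D0.or (MemC_D0 (Tm.var 0) (Tm.const v)) (D0.eq (Tm.var 0) (Tm.const e)))
    (b := v + (e + 1)) (fun r hr => by
      rcases hr with hr | rfl
      · exact lt_of_lt_of_le hr.lt (le_add_of_nonneg_right (zero_le' _))
      · exact lt_of_lt_of_le (lt_succ_self' r) (le_add_of_nonneg_left (zero_le' _)))
  exact ⟨v', h⟩

theorem exists_emptyC : ∃ v : N.M, ∀ r, ¬ MemC r v := by
  obtain ⟨v, _, h⟩ := exists_isC (N := N) (P := fun _ => False) D0.false (b := 0)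
    (fun r hr => hr.elim)
  exact ⟨v, fun r hr => (h r).1 hr⟩

section core

variable [Sig1 N] {T W : Set N.M} (hT : IsTree N T) (hW : IsTree N W) {C : N.M → N.M → N.M}
  (hC : D0 (fun v => v 2 = C (v 0) (v 1)))

section d0

include hT hC

theorem InD_D0 {sv st : Ctx N → N.M} (hv : Tm sv) (ht : Tm st) :
    D0 (fun x => InD T C (sv x) (st x)) := by
  refine D0.and (D0.mem ht hT.mem) (D0.all (D0.all (D0.imp ?_ ?_)))
  · exact MemC_D0 ((Tm.var 1).pr (Tm.var 0)) hv.tail.tail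
  · exact D0.rel3 (R := fun t w i => i = C t w) hC ht.tail.tail (Tm.var 1) (Tm.var 0)

theorem Cond_D0 {ss sv : Ctx N → N.M} (hs : Tm ss) (hv : Tm sv) :
    D0 (fun x => Cond T C (ss x) (sv x)) := by
  refine D0.and (D0.mem hs hT.mem) (D0.all (D0.imp (D0.mem (Tm.var 0) hT.mem)
    (D0.imp (Ini_D0 hs.tail (Tm.var 0)) (D0.ex (D0.and (D0.mem (Tm.var 0) hT.mem)
      (D0.and (Ini_D0 (Tm.var 1) (Tm.var 0)) ?_))))))
  exact InD_D0 hT hC hv.tail.tail (Tm.var 0)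

omit hT hC [Sig1 N] in
theorem Sub_D0 {ss sv : Ctx N → N.M} (hs : Tm ss) (hv : Tm sv) :
    D0 (fun x => Sub (ss x) (sv x)) :=
  D0.ball hs (D0.imp (MemC_D0 (Tm.var 0) hs.tail) (MemC_D0 (Tm.var 0) hv.tail))

theorem Xt_D0 {ss sv ss' sv' : Ctx N → N.M} (hs : Tm ss) (hv : Tm sv) (hs' : Tm ss')
    (hv' : Tm sv') : D0 (fun x => Xt T C (ss x) (sv x) (ss' x) (sv' x)) :=
  D0.and (Cond_D0 hT hC hs' hv') (D0.and (Ini_D0 hs hs') (Sub_D0 hv hv'))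

theorem Ew_D0 {ss sv sj sw : Ctx N → N.M} (hs : Tm ss) (hv : Tm sv) (hj : Tm sj)
    (hw : Tm sw) : D0 (fun x => Ew T C (ss x) (sv x) (sj x) (sw x)) := by
  refine D0.all (D0.all (D0.all (D0.imp ?_ (D0.imp ?_ ?_))))
  · exact Xt_D0 hT hC hs.tail.tail.tail hv.tail.tail.tail (Tm.var 2) (Tm.var 1)
  · exact MemC_D0 (hw.tail.tail.tail.pr (Tm.var 0)) (Tm.var 1)
  · exact D0.le hj.tail.tail.tail (Tm.var 0)

include hW in
theorem Gd_D0 {ss sv sy sj : Ctx N → N.M} (hs : Tm ss) (hv : Tm sv) (hy : Tm sy)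
    (hj : Tm sj) : D0 (fun x => Gd T W C (ss x) (sv x) (sy x) (sj x)) := by
  refine D0.and (Cond_D0 hT hC hs hv) (D0.and (D0.mem hy hW.mem) (D0.all (D0.imp
    (D0.mem (Tm.var 0) hW.mem) (D0.imp (Ini_D0 hy.tail (Tm.var 0)) (D0.ex (D0.and
      (D0.mem (Tm.var 0) hW.mem) (D0.and (Ini_D0 (Tm.var 1) (Tm.var 0)) ?_)))))))
  exact Ew_D0 hT hC hs.tail.tail hv.tail.tail hj.tail.tail (Tm.var 0)

end d0

include hT hW hC

/-- every node of the second tree can be given a colour -/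
theorem ext_prop {k : N.M} (hk : ∀ t ∈ T, ∀ w ∈ W, C t w < k) {s v w : N.M}
    (h : Cond T C s v) (hw : w ∈ W) :
    ∃ i, i < k ∧ ∃ s' v', Xt T C s v s' v' ∧ MemC (pr w i) v' := by
  obtain ⟨i, hi, s', hs', hss', hd⟩ := pht (W := T) hT.mem h.1 (Ini.refl (hT.sq h.1))
    (E := InD T C v) (InD_D0 hT hC (Tm.const v) (Tm.var 0)) h.2
    (R := fun t i => i = C t w) (D0.rel3 (R := fun t w i => i = C t w) hC (Tm.var 0)
      (Tm.const w) (Tm.var 1)) k (fun t ht _ _ => ⟨C t w, hk t ht w hw, rfl⟩)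
  obtain ⟨v', hv'⟩ := exists_insert v (pr w i)
  refine ⟨i, hi, s', v', ⟨⟨hs', fun t ht hst => ?_⟩, hss', fun r _ hr => (hv' r).2 (Or.inl hr)⟩,
    (hv' _).2 (Or.inr rfl)⟩
  obtain ⟨t', ht', htt', hD, hci⟩ := hd t ht hst
  refine ⟨t', ht', htt', ht', fun w1 i1 hm => ?_⟩
  rcases (hv' _).1 hm with hm | hm
  · exact hD.2 w1 i1 hm
  · obtain ⟨rfl, rfl⟩ := pr_inj hm
    exact hci

/-- simultaneous capturing -/
theorem capture {s v y j : N.M} (hg : Gd T W C s v y j)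
    (hmax : ∀ s v y, ¬ Gd T W C s v y (j + 1)) {Q : N.M}
    (hQ : ∀ e, MemC e Q → ∃ t s1 v1, e = pr t (pr s1 v1) ∧ Xt T C s v s1 v1) {y' : N.M}
    (hy' : y' ∈ W) (hyy' : Ini y y') :
    ∃ w, w ∈ W ∧ Ini y' w ∧ ∀ t s1 v1, MemC (pr t (pr s1 v1)) Q →
      ∃ s2 v2, Xt T C s1 v1 s2 v2 ∧ MemC (pr w j) v2 := by
  by_contra hcon
  push Not at hcon
  let R : N.M → N.M → Prop := fun w e => MemC e Q ∧ ∃ t, ∃ s1, ∃ v1, e = pr t (pr s1 v1) ∧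
    ∀ s2, ∀ v2, Xt T C s1 v1 s2 v2 → ¬ MemC (pr w j) v2
  have hR : D0 (fun x => R (x 0) (x 1)) := by
    refine D0.and (MemC_D0 (Tm.var 1) (Tm.const Q)) (D0.ex (D0.ex (D0.ex (D0.and ?_
      (D0.all (D0.all (D0.imp ?_ (D0.not ?_))))))))
    · exact D0.eq (Tm.var 4) ((Tm.var 2).pr ((Tm.var 1).pr (Tm.var 0)))
    · exact Xt_D0 hT hC (Tm.var 3) (Tm.var 2) (Tm.var 1) (Tm.var 0)
    · exact MemC_D0 ((Tm.var 5).pr (Tm.const j)) (Tm.var 0)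
  obtain ⟨e, _, y'', hy'', hyy'', hd⟩ := pht hW.mem hy' (Ini.refl (hW.sq hy'))
    (E := Ew T C s v j) (Ew_D0 hT hC (Tm.const s) (Tm.const v) (Tm.const j) (Tm.var 0))
    (fun z hz hyz => hg.2.2 z hz (hyy'.trans hyz)) hR Q (fun w hw hyw _ => by
      obtain ⟨t, s1, v1, h1, h2⟩ := hcon w hw hyw
      exact ⟨_, h1.lt, h1, t, s1, v1, rfl, h2⟩)
  obtain ⟨w0, _, _, _, hm, t, s1, v1, rfl, _⟩ := hd y'' hy'' (Ini.refl (hW.sq hy''))
  obtain ⟨t', s1', v1', he, hX⟩ := hQ _ hm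
  obtain ⟨rfl, rfl, rfl⟩ := pr3_inj he
  refine hmax s1 v1 y'' ⟨hX.1, hy'', fun z hz hyz => ?_⟩
  obtain ⟨w, hw, hzw, hE, _, t', s1', v1', he, hno⟩ := hd z hz hyz
  obtain ⟨rfl, rfl, rfl⟩ := pr3_inj he
  refine ⟨w, hw, hzw, fun s' v' i hX' hi => ?_⟩
  have h1 := hE s' v' i (hX.trans hX') hi
  refine add_one_le_iff'.2 (lt_of_le_of_ne h1 fun hji => ?_)
  rw [← hji] at hi
  exact hno s' v' hX' hi

/-- dense monochromatic products -/
theorem dense_prod {s v y j : N.M} (hg : Gd T W C s v y j)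
    (hmax : ∀ s v y, ¬ Gd T W C s v y (j + 1)) (m : N.M) :
    ∃ F G, (∀ t', MemC t' F → t' ∈ T) ∧ (∀ w', MemC w' G → w' ∈ W) ∧
      (∀ t, Lv T t m → Ini s t → ∃ t', MemC t' F ∧ Ini t t') ∧
      (∀ w, Lv W w m → Ini y w → ∃ w', MemC w' G ∧ Ini w w') ∧
      ∀ t' w', MemC t' F → MemC w' G → j = C t' w' := by
  let Fam : N.M → Prop := fun Q =>
    (∀ t, Lv T t m → Ini s t → ∃ s1, ∃ v1, MemC (pr t (pr s1 v1)) Q) ∧
    ∀ e, MemC e Q → ∃ t, ∃ s1, ∃ v1, e = pr t (pr s1 v1) ∧ (Ini t s1 ∧ Xt T C s v s1 v1)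
  have hFam : ∀ {q : Ctx N → N.M}, Tm q → D0 (fun x => Fam (q x)) := by
    intro q hq
    refine D0.and (D0.all (D0.imp (Lv_D0 hT.mem (Tm.var 0) (Tm.const m)) (D0.imp
      (Ini_D0 (Tm.const s) (Tm.var 0)) (D0.ex (D0.ex ?_))))) (D0.all (D0.imp ?_ (D0.ex (D0.ex
        (D0.ex (D0.and ?_ (D0.and ?_ ?_)))))))
    · exact MemC_D0 ((Tm.var 2).pr ((Tm.var 1).pr (Tm.var 0))) hq.tail.tail.tail
    · exact MemC_D0 (Tm.var 0) hq.tail
    · exact D0.eq (Tm.var 3) ((Tm.var 2).pr ((Tm.var 1).pr (Tm.var 0)))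
    · exact Ini_D0 (Tm.var 2) (Tm.var 1)
    · exact Xt_D0 hT hC (Tm.const s) (Tm.const v) (Tm.var 1) (Tm.var 0)
  let Cap : N.M → N.M → Prop := fun Q w' =>
    ∀ t, ∀ s1, ∀ v1, MemC (pr t (pr s1 v1)) Q → MemC (pr w' j) v1
  have hCap : ∀ {q w : Ctx N → N.M}, Tm q → Tm w → D0 (fun x => Cap (q x) (w x)) := by
    intro q w hq hw
    refine D0.all (D0.all (D0.all (D0.imp ?_ ?_)))
    · exact MemC_D0 ((Tm.var 2).pr ((Tm.var 1).pr (Tm.var 0))) hq.tail.tail.tail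
    · exact MemC_D0 (hw.tail.tail.tail.pr (Tm.const j)) (Tm.var 0)
  have key : ∀ l, ∃ Q, Fam Q ∧ ∀ w, w < l → Lv W w m → Ini y w →
      ∃ w', w' ∈ W ∧ (Ini w w' ∧ Cap Q w') := by
    intro l
    refine ind_D0 (P := fun l => ∃ Q, Fam Q ∧ ∀ w, w < l → Lv W w m → Ini y w →
      ∃ w', w' ∈ W ∧ (Ini w w' ∧ Cap Q w')) ?_ ?_ ?_ l
    · refine D0.ex (D0.and (hFam (Tm.var 0)) (D0.ball (Tm.var 1) (D0.imp
        (Lv_D0 hW.mem (Tm.var 0) (Tm.const m)) (D0.imp (Ini_D0 (Tm.const y) (Tm.var 0))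
          (D0.ex (D0.and (D0.mem (Tm.var 0) hW.mem) (D0.and (Ini_D0 (Tm.var 1) (Tm.var 0))
            (hCap (Tm.var 2) (Tm.var 0)))))))))
    · obtain ⟨b, hb⟩ := hT.finLevel m
      obtain ⟨B, hB⟩ := bound_rel (Q := fun t e => e = pr t (pr t v))
        (D0.eq (Tm.var 1) ((Tm.var 0).pr ((Tm.var 0).pr (Tm.const v)))) b
      have hB' : ∀ t, t < b → pr t (pr t v) < B := by
        intro t ht
        obtain ⟨e, he, rfl⟩ := hB t ht ⟨_, rfl⟩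
        exact he
      obtain ⟨Q, _, hQ⟩ := exists_isC
        (P := fun e => ∃ t, Lv T t m ∧ (Ini s t ∧ e = pr t (pr t v)))
        (D0.ex (D0.and (Lv_D0 hT.mem (Tm.var 0) (Tm.const m)) (D0.and
          (Ini_D0 (Tm.const s) (Tm.var 0)) (D0.eq (Tm.var 1) ((Tm.var 0).pr ((Tm.var 0).pr
            (Tm.const v))))))) (b := B) (by
          rintro e ⟨t, ht, _, rfl⟩
          exact hB' t (hb t ht))
      refine ⟨Q, ⟨fun t ht hst => ⟨t, v, (hQ _).2 ⟨t, ht, hst, rfl⟩⟩, fun e he => ?_⟩,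
        fun w hw => absurd hw (not_lt_of_ge (zero_le' w))⟩
      obtain ⟨t, ht, hst, rfl⟩ := (hQ e).1 he
      refine ⟨t, t, v, rfl, Ini.refl ht.2.sq, ⟨ht.1, fun t' ht' htt' => ?_⟩, hst, Sub.refl v⟩
      exact hg.1.2 t' ht' (hst.trans htt')
    · rintro l ⟨Q, hQ, hQc⟩
      by_cases hl : Lv W l m ∧ Ini y l
      · obtain ⟨hl1, hl2⟩ := hl
        obtain ⟨w', hw', hlw', hcap⟩ := capture hT hW hC hg hmax (Q := Q) (fun e he => by
          obtain ⟨t, s1, v1, h1, _, h2⟩ := hQ.2 e he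
          exact ⟨t, s1, v1, h1, h2⟩) hl1.1 hl2
        let H : N.M → N.M → Prop := fun e e' => ∃ t, ∃ s1, ∃ v1, ∃ s2, ∃ v2,
          e = pr t (pr s1 v1) ∧ (e' = pr t (pr s2 v2) ∧ (Xt T C s1 v1 s2 v2 ∧
            MemC (pr w' j) v2))
        have hH : D0 (fun x => H (x 0) (x 1)) := by
          refine D0.ex (D0.ex (D0.ex (D0.ex (D0.ex (D0.and ?_ (D0.and ?_ (D0.and ?_ ?_)))))))
          · exact D0.eq (Tm.var 5) ((Tm.var 4).pr ((Tm.var 3).pr (Tm.var 2)))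
          · exact D0.eq (Tm.var 6) ((Tm.var 4).pr ((Tm.var 1).pr (Tm.var 0)))
          · exact Xt_D0 hT hC (Tm.var 3) (Tm.var 2) (Tm.var 1) (Tm.var 0)
          · exact MemC_D0 ((Tm.const w').pr (Tm.const j)) (Tm.var 0)
        obtain ⟨B, hB⟩ := bound_rel hH Q
        obtain ⟨Q', _, hQ'⟩ := exists_isC (P := fun e' => e' < B ∧ ∃ e, MemC e Q ∧ H e e')
          (D0.and (D0.lt (Tm.var 0) (Tm.const B)) (D0.ex (D0.and
            (MemC_D0 (Tm.var 0) (Tm.const Q)) (hH.rel (Tm.var 0) (Tm.var 1))))) (b := B)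
          (fun e he => he.1)
        have hdec : ∀ e', MemC e' Q' → ∃ t s1 v1 s2 v2, MemC (pr t (pr s1 v1)) Q ∧
            e' = pr t (pr s2 v2) ∧ Xt T C s1 v1 s2 v2 ∧ MemC (pr w' j) v2 := by
          intro e' he'
          obtain ⟨_, e, he, t, s1, v1, s2, v2, rfl, rfl, h1, h2⟩ := (hQ' e').1 he'
          exact ⟨t, s1, v1, s2, v2, he, rfl, h1, h2⟩
        refine ⟨Q', ⟨fun t ht hst => ?_, fun e' he' => ?_⟩, fun w hw hwm hyw => ?_⟩
        · obtain ⟨s1, v1, h1⟩ := hQ.1 t ht hst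
          obtain ⟨s2, v2, h2, h3⟩ := hcap t s1 v1 h1
          obtain ⟨e', he', h4⟩ := hB _ h1.lt ⟨pr t (pr s2 v2), t, s1, v1, s2, v2, rfl, rfl, h2, h3⟩
          have hm := (hQ' e').2 ⟨he', _, h1, h4⟩
          obtain ⟨t', s1', v1', s2', v2', h5, rfl, _⟩ := h4
          obtain ⟨rfl, _⟩ := pr_inj h5
          exact ⟨s2', v2', hm⟩
        · obtain ⟨t, s1, v1, s2, v2, h1, rfl, h2, h3⟩ := hdec e' he'
          obtain ⟨t', s1', v1', h4, h5, h6⟩ := hQ.2 _ h1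
          obtain ⟨rfl, rfl, rfl⟩ := pr3_inj h4
          exact ⟨t, s2, v2, rfl, h5.trans h2.2.1, h6.trans h2⟩
        · rcases lt_or_eq_of_le (lt_add_one_iff'.1 hw) with hw | rfl
          · obtain ⟨z, hz, hwz, hcz⟩ := hQc w hw hwm hyw
            refine ⟨z, hz, hwz, fun t s2 v2 hm => ?_⟩
            obtain ⟨t', s1, v1, s2', v2', h1, h2, h3, _⟩ := hdec _ hm
            obtain ⟨rfl, rfl, rfl⟩ := pr3_inj h2
            exact h3.2.2.mem (hcz t s1 v1 h1)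
          · refine ⟨w', hw', hlw', fun t s2 v2 hm => ?_⟩
            obtain ⟨t', s1, v1, s2', v2', h1, h2, h3, h4⟩ := hdec _ hm
            obtain ⟨rfl, rfl, rfl⟩ := pr3_inj h2
            exact h4
      · refine ⟨Q, hQ, fun w hw hwm hyw => ?_⟩
        rcases lt_or_eq_of_le (lt_add_one_iff'.1 hw) with hw | rfl
        · exact hQc w hw hwm hyw
        · exact absurd ⟨hwm, hyw⟩ hl
  obtain ⟨bW, hbW⟩ := hW.finLevel m
  obtain ⟨Q, hQ, hQc⟩ := key bW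
  -- the first factor
  let RF : N.M → N.M → Prop := fun e t' => ∃ t, ∃ s1, ∃ v1, e = pr t (pr s1 v1) ∧ (MemC e Q ∧
      (Ini s1 t' ∧ InD T C v1 t'))
  have hRF : D0 (fun x => RF (x 0) (x 1)) := by
    refine D0.ex (D0.ex (D0.ex (D0.and ?_ (D0.and ?_ (D0.and ?_ ?_)))))
    · exact D0.eq (Tm.var 3) ((Tm.var 2).pr ((Tm.var 1).pr (Tm.var 0)))
    · exact MemC_D0 (Tm.var 3) (Tm.const Q)
    · exact Ini_D0 (Tm.var 1) (Tm.var 4)
    · exact InD_D0 hT hC (Tm.var 0) (Tm.var 4)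
  obtain ⟨B1, hB1⟩ := bound_rel hRF Q
  obtain ⟨F, _, hF⟩ := exists_isC (P := fun t' => t' < B1 ∧ ∃ e, RF e t')
    (D0.and (D0.lt (Tm.var 0) (Tm.const B1)) (D0.ex (hRF.rel (Tm.var 0) (Tm.var 1))))
    (b := B1) (fun t' h => h.1)
  -- the second factor
  obtain ⟨B2, hB2⟩ := bound_rel (Q := fun w w' => w' ∈ W ∧ (Ini w w' ∧ Cap Q w'))
    (D0.and (D0.mem (Tm.var 1) hW.mem) (D0.and (Ini_D0 (Tm.var 0) (Tm.var 1))
      (hCap (Tm.const Q) (Tm.var 1)))) bW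
  obtain ⟨G, _, hG⟩ := exists_isC (P := fun w' => w' < B2 ∧ (w' ∈ W ∧ Cap Q w'))
    (D0.and (D0.lt (Tm.var 0) (Tm.const B2)) (D0.and (D0.mem (Tm.var 0) hW.mem)
      (hCap (Tm.const Q) (Tm.var 0)))) (b := B2) (fun t' h => h.1)
  refine ⟨F, G, fun t' ht' => ?_, fun w' hw' => ((hG w').1 hw').2.1, fun t ht hst => ?_,
    fun w hw hyw => ?_, fun t' w' ht' hw' => ?_⟩
  · obtain ⟨_, _, _, _, _, _, _, _, h⟩ := (hF t').1 ht'
    exact h.1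
  · obtain ⟨s1, v1, h1⟩ := hQ.1 t ht hst
    obtain ⟨t1, s1', v1', h2, h3, h4⟩ := hQ.2 _ h1
    obtain ⟨rfl, rfl, rfl⟩ := pr3_inj h2
    have hs1 : s1 ∈ T := h4.1.1
    obtain ⟨t', ht', hst', hD⟩ := h4.1.2 s1 hs1 (Ini.refl (hT.sq hs1))
    obtain ⟨t'', ht'', t2, s2, v2, h5, h6, h7, h8⟩ := hB1 _ h1.lt
      ⟨t', t, s1, v1, rfl, h1, hst', hD⟩
    obtain ⟨rfl, rfl, rfl⟩ := pr3_inj h5
    exact ⟨t'', (hF t'').2 ⟨ht'', _, t, s1, v1, rfl, h1, h7, h8⟩, h3.trans h7⟩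
  · obtain ⟨w', h1, h2, h3⟩ := hQc w (hbW w hw) hw hyw
    obtain ⟨w'', hw'', h4, h5, h6⟩ := hB2 w (hbW w hw) ⟨w', h1, h2, h3⟩
    exact ⟨w'', (hG w'').2 ⟨hw'', h4, h6⟩, h5⟩
  · obtain ⟨_, e, t, s1, v1, rfl, h1, _, h2⟩ := (hF t').1 ht'
    exact h2.2 w' j (((hG w').1 hw').2.2 t s1 v1 h1)

/-- the two-dimensional dense set theorem for limit colourings -/
theorem core {k : N.M} (hk : ∀ t ∈ T, ∀ w ∈ W, C t w < k) :
    ∃ s y j, s ∈ T ∧ y ∈ W ∧ ∀ m, ∃ F G,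
      (∀ t', MemC t' F → t' ∈ T) ∧ (∀ w', MemC w' G → w' ∈ W) ∧
      (∀ t, Lv T t m → Ini s t → ∃ t', MemC t' F ∧ Ini t t') ∧
      (∀ w, Lv W w m → Ini y w → ∃ w', MemC w' G ∧ Ini w w') ∧
      ∀ t' w', MemC t' F → MemC w' G → j = C t' w' := by
  have hk' : ∀ s v y, ¬ Gd T W C s v y k := by
    intro s v y hg
    obtain ⟨w, hw, hyw, hE⟩ := hg.2.2 y hg.2.1 (Ini.refl (hW.sq hg.2.1))
    obtain ⟨i, hi, s', v', h1, h2⟩ := ext_prop hT hW hC hk hg.1 hw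
    exact absurd hi (not_lt_of_ge (hE s' v' i h1 h2))
  obtain ⟨l, _, hl, hmin⟩ := lnp_D0 (P := fun l => ∀ s, ∀ v, ∀ y, ¬ Gd T W C s v y l)
    (D0.all (D0.all (D0.all (Gd_D0 hT hW hC (Tm.var 2) (Tm.var 1) (Tm.var 0) (Tm.var 3)).not)))
    k hk'
  rcases eq_zero_or_succ l with rfl | ⟨j, rfl⟩
  · exfalso
    obtain ⟨t0, ht0⟩ := hT.root
    obtain ⟨y0, hy0⟩ := hW.root
    obtain ⟨v0, hv0⟩ := exists_emptyC (N := N)
    refine hl t0 v0 y0 ⟨⟨ht0.1, fun t ht _ => ⟨t, ht, Ini.refl (hT.sq ht), ht,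
      fun w i h => absurd h (hv0 _)⟩⟩, hy0.1, fun y' hy' _ => ⟨y', hy', Ini.refl (hW.sq hy'),
      fun s' v' i _ _ => zero_le' i⟩⟩
  · have := hmin j (lt_succ_self' j)
    push Not at this
    obtain ⟨s, v, y, hg⟩ := this
    exact ⟨s, y, j, hg.1.1, hg.2.1, fun m => dense_prod hT hW hC hg hl m⟩

end core

end Pool.Agent.Helper617.RM
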