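import Mathlib
import Pool.Agent.Helper617.RM.HLTwo
import Pool.Agent.Helper617.RM.HLStrong

namespace Pool.Agent.Helper617.RM

universe u

set_option linter.unusedSectionVars false
set_option linter.unusedVariables false

variable {N : L2Structure.{u}} [IsModelRCA0 N] [Sig1 N]

open IsModelRCA0

/-- threads through a tree -/
theorem exists_thread {T : Set N.M} (hT : IsTree N T) : ∃ f : N.M → N.M → N.M,
    D0 (fun v => v 2 = f (v 0) (v 1)) ∧ ∀ t n m, Lv T t m → m ≤ n → Lv T (f t n) n ∧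
      Ini t (f t n) := by
  obtain ⟨f, hf, h⟩ := exists_fun2 (R := fun t n u => (Lv T u n ∧ Ini t u) ∨
    (¬ (∃ u, Lv T u n ∧ Ini t u) ∧ u = 0)) (by
      refine D0.or (D0.and (Lv_D0 hT.mem (Tm.var 2) (Tm.var 1)) (Ini_D0 (Tm.var 0) (Tm.var 2)))
        (D0.and (D0.not (D0.ex (D0.and (Lv_D0 hT.mem (Tm.var 0) (Tm.var 2))
          (Ini_D0 (Tm.var 1) (Tm.var 0))))) (D0.eq (Tm.var 2) Tm.zero))) (by
      intro t n
      by_cases h : ∃ u, Lv T u n ∧ Ini t u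
      · obtain ⟨u, hu⟩ := h; exact ⟨u, Or.inl hu⟩
      · exact ⟨0, Or.inr ⟨h, rfl⟩⟩)
  refine ⟨f, hf, fun t n m ht hm => ?_⟩
  rcases h t n with h | ⟨h, _⟩
  · exact h
  · exact absurd (hT.up' ht hm) h

/-- the selection function of a family of finite sets of nodes -/
theorem exists_sel {D : N.M → N.M} (hD : D0 (fun v => v 1 = D (v 0))) : ∃ f : N.M → N.M → N.M,
    D0 (fun v => v 2 = f (v 0) (v 1)) ∧ ∀ m t, (∃ u, MemC u (D m) ∧ Ini t u) →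
      MemC (f m t) (D m) ∧ Ini t (f m t) := by
  have hbase : ∀ {a b c : Ctx N → N.M}, Tm a → Tm b → Tm c →
      D0 (fun v => MemC (c v) (D (a v)) ∧ Ini (b v) (c v)) := by
    intro a b c ha hb hc
    refine D0.and ?_ (Ini_D0 hb hc)
    exact D0.subst_fun hD (P := fun v x => MemC (c v) x) (MemC_D0 hc.tail (Tm.var 0)) ha
  obtain ⟨f, hf, h⟩ := exists_fun2 (R := fun m t u => (MemC u (D m) ∧ Ini t u) ∨
    (¬ (∃ u, MemC u (D m) ∧ Ini t u) ∧ u = 0)) (by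
      refine D0.or (hbase (Tm.var 0) (Tm.var 1) (Tm.var 2)) (D0.and (D0.not (D0.ex
        (hbase (Tm.var 1) (Tm.var 2) (Tm.var 0)))) (D0.eq (Tm.var 2) Tm.zero))) (by
      intro m t
      by_cases h : ∃ u, MemC u (D m) ∧ Ini t u
      · obtain ⟨u, hu⟩ := h; exact ⟨u, Or.inl hu⟩
      · exact ⟨0, Or.inr ⟨h, rfl⟩⟩)
  refine ⟨f, hf, fun m t hex => ?_⟩
  rcases h m t with h | ⟨h, _⟩
  · exact h
  · exact absurd hex h

theorem fin2_eq {t : Fin 2 → N.M} {u w : N.M} (h0 : t 0 = u) (h1 : t 1 = w) : t = ![u, w] := by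
  funext i
  fin_cases i
  · exact h0
  · exact h1

/-- `HL_2` holds in models of `ACA₀` -/
theorem HL_two_of_sig1 : HLGen N True 2 := by
  intro T hTT k c hc
  have hT := hTT 0
  have hW := hTT 1
  set T0 := T 0 with hT0
  set T1 := T 1 with hT1
  obtain ⟨hck, hcX⟩ := hc
  set X := {r | ∃ n t, (∀ i, t i ∈ Level N (T i) n) ∧ r = tupCode N 2 t (c t)} with hX
  have hcX : X ∈ N.Sets := hcX
  have hlev : ∀ {u w n}, Lv T0 u n → Lv T1 w n → ∀ i, (![u, w] : Fin 2 → N.M) i ∈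
      Level N (T i) n := by
    intro u w n hu hw i
    fin_cases i
    · exact lv_iff.2 hu
    · exact lv_iff.2 hw
  have hmemX : ∀ {u w n}, Lv T0 u n → Lv T1 w n → ∀ i, pr u (pr w i) ∈ X ↔ i = c ![u, w] := by
    intro u w n hu hw i
    constructor
    · rintro ⟨n', t, ht, he⟩
      have he : pr u (pr w i) = pr (t 0) (pr (t 1) (c t)) := he
      obtain ⟨h1, h2, h3⟩ := pr3_inj he
      rw [h3, fin2_eq h1.symm h2.symm]
    · rintro rfl
      exact ⟨n, ![u, w], hlev hu hw, rfl⟩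
  have hsame : ∀ {a b : Ctx N → N.M}, Tm a → Tm b →
      D0 (fun v => ∃ n, Lv T0 (a v) n ∧ Lv T1 (b v) n) := fun ha hb =>
    D0.ex (D0.and (Lv_D0 hT.mem ha.tail (Tm.var 0)) (Lv_D0 hW.mem hb.tail (Tm.var 0)))
  obtain ⟨cc, hcc, hcc'⟩ := exists_fun2 (R := fun u w i =>
      ((∃ n, Lv T0 u n ∧ Lv T1 w n) ∧ pr u (pr w i) ∈ X) ∨
      (¬ (∃ n, Lv T0 u n ∧ Lv T1 w n) ∧ i = 0)) (by
    refine D0.or (D0.and (hsame (Tm.var 0) (Tm.var 1))
      (D0.mem ((Tm.var 0).pr ((Tm.var 1).pr (Tm.var 2))) hcX))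
      (D0.and (hsame (Tm.var 0) (Tm.var 1)).not (D0.eq (Tm.var 2) Tm.zero))) (by
    intro u w
    by_cases h : ∃ n, Lv T0 u n ∧ Lv T1 w n
    · obtain ⟨n, h1, h2⟩ := h
      exact ⟨c ![u, w], Or.inl ⟨⟨n, h1, h2⟩, (hmemX h1 h2 _).2 rfl⟩⟩
    · exact ⟨0, Or.inr ⟨h, rfl⟩⟩)
  have hcc1 : ∀ {u w n}, Lv T0 u n → Lv T1 w n → cc u w = c ![u, w] := by
    intro u w n hu hw
    rcases hcc' u w with ⟨_, h⟩ | ⟨h, _⟩
    · exact (hmemX hu hw _).1 h
    · exact absurd ⟨n, hu, hw⟩ h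
  have hk0 : (0 : N.M) < k := by
    obtain ⟨t0, ht0⟩ := hT.root
    obtain ⟨y0, hy0⟩ := hW.root
    exact lt_of_le_of_lt (zero_le' _) (hck 0 ![t0, y0] (hlev ht0 hy0))
  have hcck : ∀ u w, cc u w < k := by
    intro u w
    rcases hcc' u w with ⟨⟨n, h1, h2⟩, h⟩ | ⟨_, h⟩
    · rw [hcc1 h1 h2]
      exact hck n _ (hlev h1 h2)
    · rw [h]; exact hk0
  obtain ⟨f0, hf0, hf0'⟩ := exists_thread hT
  obtain ⟨f1, hf1, hf1'⟩ := exists_thread hW
  have hPR : ∀ {a b c d : Ctx N → N.M}, Tm a → Tm b → Tm c → Tm d →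
      D0 (fun v => d v = cc (f0 (a v) (c v)) (f1 (b v) (c v))) := by
    intro a b c d ha hb hc hd
    refine D0.congr (R := fun v => ∃ x, ∃ z, x = f0 (a v) (c v) ∧ (z = f1 (b v) (c v) ∧
      d v = cc x z)) ?_ fun v => by simp
    refine D0.ex (D0.ex (D0.and ?_ (D0.and ?_ ?_)))
    · exact D0.rel3 (R := fun t n u => u = f0 t n) hf0 ha.tail.tail hc.tail.tail (Tm.var 1)
    · exact D0.rel3 (R := fun t n u => u = f1 t n) hf1 hb.tail.tail hc.tail.tail (Tm.var 0)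
    · exact D0.rel3 (R := fun u w i => i = cc u w) hcc (Tm.var 1) (Tm.var 0) hd.tail.tail
  obtain ⟨P, hP, hP'⟩ := exists_fun2 (R := fun e n i =>
      (∃ t, ∃ w, e = pr t w ∧ i = cc (f0 t n) (f1 w n)) ∨ (¬ (∃ t, ∃ w, e = pr t w) ∧ i = 0)) (by
    refine D0.or (D0.ex (D0.ex (D0.and (D0.eq (Tm.var 2) ((Tm.var 1).pr (Tm.var 0)))
      (hPR (Tm.var 1) (Tm.var 0) (Tm.var 3) (Tm.var 4))))) (D0.and (D0.not (D0.ex (D0.ex
        (D0.eq (Tm.var 2) ((Tm.var 1).pr (Tm.var 0)))))) (D0.eq (Tm.var 2) Tm.zero))) (by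
    intro e n
    by_cases h : ∃ t, ∃ w, e = pr t w
    · obtain ⟨t, w, rfl⟩ := h
      exact ⟨_, Or.inl ⟨t, w, rfl, rfl⟩⟩
    · exact ⟨0, Or.inr ⟨h, rfl⟩⟩)
  have hP1 : ∀ t w n, P (pr t w) n = cc (f0 t n) (f1 w n) := by
    intro t w n
    rcases hP' (pr t w) n with ⟨t', w', he, h⟩ | ⟨h, _⟩
    · obtain ⟨rfl, rfl⟩ := pr_inj he
      exact h
    · exact absurd ⟨t, w, rfl⟩ h
  have hPk : ∀ e n, P e n < k := by
    intro e n
    rcases hP' e n with ⟨t', w', he, h⟩ | ⟨_, h⟩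
    · rw [h]; exact hcck _ _
    · rw [h]; exact hk0
  obtain ⟨nn, hnn, hnninc, hnnlim⟩ := bw hP hPk
  let C : N.M → N.M → N.M := fun t w => P (pr t w) (nn (pr t w + 1))
  have hC : D0 (fun v => v 2 = C (v 0) (v 1)) := by
    refine D0.subst_fun hnn (P := fun v x => v 2 = P (pr (v 0) (v 1)) x) ?_
      (((Tm.var 0).pr (Tm.var 1)).add Tm.one)
    exact D0.rel3 (R := fun e n i => i = P e n) hP ((Tm.var 1).pr (Tm.var 2)) (Tm.var 0) (Tm.var 3)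
  obtain ⟨s, y, j, hs, hy, hdense⟩ := core hT hW hC (k := k) (fun t _ w _ => hPk _ _)
  -- dense products on levels
  let Phi : N.M → N.M → Prop := fun m z => ∃ n, ∃ D1, ∃ D2, z = pr n (pr D1 D2) ∧ (m < n ∧
    ((∀ u, MemC u D1 → Lv T0 u n) ∧ ((∀ u, MemC u D2 → Lv T1 u n) ∧
    ((∀ t, Lv T0 t m → Ini s t → ∃ u, MemC u D1 ∧ Ini t u) ∧
    ((∀ t, Lv T1 t m → Ini y t → ∃ u, MemC u D2 ∧ Ini t u) ∧
    ∀ u, ∀ w, MemC u D1 → MemC w D2 → j = cc u w)))))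
  have hPhiD : D0 (fun v => Phi (v 0) (v 1)) := by
    refine D0.ex (D0.ex (D0.ex (D0.and ?_ (D0.and ?_ (D0.and ?_ (D0.and ?_ (D0.and ?_
      (D0.and ?_ ?_))))))))
    · exact D0.eq (Tm.var 4) ((Tm.var 2).pr ((Tm.var 1).pr (Tm.var 0)))
    · exact D0.lt (Tm.var 3) (Tm.var 2)
    · exact D0.all (D0.imp (MemC_D0 (Tm.var 0) (Tm.var 2)) (Lv_D0 hT.mem (Tm.var 0) (Tm.var 3)))
    · exact D0.all (D0.imp (MemC_D0 (Tm.var 0) (Tm.var 1)) (Lv_D0 hW.mem (Tm.var 0) (Tm.var 3)))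
    · exact D0.all (D0.imp (Lv_D0 hT.mem (Tm.var 0) (Tm.var 4)) (D0.imp
        (Ini_D0 (Tm.const s) (Tm.var 0)) (D0.ex (D0.and (MemC_D0 (Tm.var 0) (Tm.var 3))
          (Ini_D0 (Tm.var 1) (Tm.var 0))))))
    · exact D0.all (D0.imp (Lv_D0 hW.mem (Tm.var 0) (Tm.var 4)) (D0.imp
        (Ini_D0 (Tm.const y) (Tm.var 0)) (D0.ex (D0.and (MemC_D0 (Tm.var 0) (Tm.var 2))
          (Ini_D0 (Tm.var 1) (Tm.var 0))))))
    · refine D0.all (D0.all (D0.imp (MemC_D0 (Tm.var 1) (Tm.var 3)) (D0.imp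
        (MemC_D0 (Tm.var 0) (Tm.var 2)) ?_)))
      exact D0.rel3 (R := fun u w i => i = cc u w) hcc (Tm.var 1) (Tm.var 0) (Tm.const j)
  have hPhi : ∀ m, ∃ z, Phi m z := by
    intro m
    obtain ⟨F, G, hF, hG, hFd, hGd, hFG⟩ := hdense m
    set l := max (pr (F + G) (F + G)) m + 1 with hl
    have hlnn : l ≤ nn l := self_le_of_increasing' hnn hnninc l
    have hpl : pr (F + G) (F + G) < l := lt_of_le_of_lt (le_max_left _ _) (lt_succ_self' _)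
    have hml : m < nn l := lt_of_lt_of_le (lt_of_le_of_lt (le_max_right _ _) (lt_succ_self' _)) hlnn
    have hFle : F ≤ F + G := le_add_of_nonneg_right (zero_le' _)
    have hGle : G ≤ F + G := le_add_of_nonneg_left (zero_le' _)
    have hFGl : F + G < l := lt_of_le_of_lt (fst_le_pr _ _) hpl
    have hthr0 : ∀ t', MemC t' F → Lv T0 (f0 t' (nn l)) (nn l) ∧ Ini t' (f0 t' (nn l)) := by
      intro t' ht'
      obtain ⟨n, hn⟩ := hT.lv (hF t' ht')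
      refine hf0' t' _ n hn ?_
      exact hn.2.len_le.trans (ht'.lt.le.trans (hFle.trans (hFGl.le.trans hlnn)))
    have hthr1 : ∀ t', MemC t' G → Lv T1 (f1 t' (nn l)) (nn l) ∧ Ini t' (f1 t' (nn l)) := by
      intro t' ht'
      obtain ⟨n, hn⟩ := hW.lv (hG t' ht')
      refine hf1' t' _ n hn ?_
      exact hn.2.len_le.trans (ht'.lt.le.trans (hGle.trans (hFGl.le.trans hlnn)))
    obtain ⟨B1, hB1⟩ := bound_rel (Q := fun t u => u = f0 t (nn l))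
      (D0.rel3 (R := fun t n u => u = f0 t n) hf0 (Tm.var 0) (Tm.const _) (Tm.var 1)) F
    obtain ⟨B2, hB2⟩ := bound_rel (Q := fun t u => u = f1 t (nn l))
      (D0.rel3 (R := fun t n u => u = f1 t n) hf1 (Tm.var 0) (Tm.const _) (Tm.var 1)) G
    obtain ⟨D1, _, hD1⟩ := exists_isC (P := fun u => ∃ t, MemC t F ∧ u = f0 t (nn l))
      (D0.ex (D0.and (MemC_D0 (Tm.var 0) (Tm.const F)) (D0.rel3 (R := fun t n u => u = f0 t n)
        hf0 (Tm.var 0) (Tm.const _) (Tm.var 1)))) (b := B1) (by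
        rintro u ⟨t, ht, rfl⟩
        obtain ⟨u', h1, rfl⟩ := hB1 t ht.lt ⟨_, rfl⟩
        exact h1)
    obtain ⟨D2, _, hD2⟩ := exists_isC (P := fun u => ∃ t, MemC t G ∧ u = f1 t (nn l))
      (D0.ex (D0.and (MemC_D0 (Tm.var 0) (Tm.const G)) (D0.rel3 (R := fun t n u => u = f1 t n)
        hf1 (Tm.var 0) (Tm.const _) (Tm.var 1)))) (b := B2) (by
        rintro u ⟨t, ht, rfl⟩
        obtain ⟨u', h1, rfl⟩ := hB2 t ht.lt ⟨_, rfl⟩
        exact h1)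
    refine ⟨pr (nn l) (pr D1 D2), nn l, D1, D2, rfl, hml, fun u hu => ?_, fun u hu => ?_,
      fun t ht hst => ?_, fun t ht hst => ?_, fun u w hu hw => ?_⟩
    · obtain ⟨t, ht, rfl⟩ := (hD1 u).1 hu
      exact (hthr0 t ht).1
    · obtain ⟨t, ht, rfl⟩ := (hD2 u).1 hu
      exact (hthr1 t ht).1
    · obtain ⟨t', ht', htt'⟩ := hFd t ht hst
      exact ⟨_, (hD1 _).2 ⟨t', ht', rfl⟩, htt'.trans (hthr0 t' ht').2⟩
    · obtain ⟨t', ht', htt'⟩ := hGd t ht hst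
      exact ⟨_, (hD2 _).2 ⟨t', ht', rfl⟩, htt'.trans (hthr1 t' ht').2⟩
    · obtain ⟨t, ht, rfl⟩ := (hD1 u).1 hu
      obtain ⟨z, hz, rfl⟩ := (hD2 w).1 hw
      rw [← hP1 t z]
      rw [hnnlim (pr t z) l ((pr_lt_of_lt (lt_of_lt_of_le ht.lt hFle)
        (lt_of_lt_of_le hz.lt hGle)).trans hpl)]
      exact hFG t z ht hz
  obtain ⟨zf, hzf, hzf'⟩ := exists_fun hPhiD hPhi
  choose nl D1 D2 hz hnl h1 h2 h3 h4 h5 using hzf'
  have hnlD : D0 (fun v => v 1 = nl (v 0)) := by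
    refine D0.congr (R := fun v => ∃ x, x = zf (v 0) ∧ ∃ a, ∃ b, x = pr (v 1) (pr a b)) ?_
      fun v => ?_
    · exact D0.ex (D0.and (D0.rel (R := fun k x => x = zf k) hzf (Tm.var 1) (Tm.var 0))
        (D0.ex (D0.ex (D0.eq (Tm.var 2) ((Tm.var 4).pr ((Tm.var 1).pr (Tm.var 0)))))))
    · constructor
      · rintro ⟨x, rfl, a, b, h⟩
        rw [hz] at h
        exact (pr3_inj h).1.symm
      · intro h
        exact ⟨_, rfl, D1 (v 0), D2 (v 0), by rw [h]; exact hz _⟩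
  have hD1D : D0 (fun v => v 1 = D1 (v 0)) := by
    refine D0.congr (R := fun v => ∃ x, x = zf (v 0) ∧ ∃ a, ∃ b, x = pr a (pr (v 1) b)) ?_
      fun v => ?_
    · exact D0.ex (D0.and (D0.rel (R := fun k x => x = zf k) hzf (Tm.var 1) (Tm.var 0))
        (D0.ex (D0.ex (D0.eq (Tm.var 2) ((Tm.var 1).pr ((Tm.var 4).pr (Tm.var 0)))))))
    · constructor
      · rintro ⟨x, rfl, a, b, h⟩
        rw [hz] at h
        exact (pr3_inj h).2.1.symm
      · intro h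
        exact ⟨_, rfl, nl (v 0), D2 (v 0), by rw [h]; exact hz _⟩
  have hD2D : D0 (fun v => v 1 = D2 (v 0)) := by
    refine D0.congr (R := fun v => ∃ x, x = zf (v 0) ∧ ∃ a, ∃ b, x = pr a (pr b (v 1))) ?_
      fun v => ?_
    · exact D0.ex (D0.and (D0.rel (R := fun k x => x = zf k) hzf (Tm.var 1) (Tm.var 0))
        (D0.ex (D0.ex (D0.eq (Tm.var 2) ((Tm.var 1).pr ((Tm.var 0).pr (Tm.var 4)))))))
    · constructor
      · rintro ⟨x, rfl, a, b, h⟩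
        rw [hz] at h
        exact (pr3_inj h).2.2.symm
      · intro h
        exact ⟨_, rfl, nl (v 0), D1 (v 0), by rw [h]; exact hz _⟩
  obtain ⟨sel0, hsel0, hsel0'⟩ := exists_sel hD1D
  obtain ⟨sel1, hsel1, hsel1'⟩ := exists_sel hD2D
  -- the first level
  obtain ⟨ls, hls⟩ := hT.lv hs
  obtain ⟨ly, hly⟩ := hW.lv hy
  obtain ⟨xs, hxs, hsxs⟩ := hT.up' hls (le_max_left ls ly)
  obtain ⟨ys, hys, hyys⟩ := hW.up' hly (le_max_right ls ly)
  set m0 := max ls ly with hm0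
  obtain ⟨hx1a, hx1b⟩ := hsel0' m0 xs (h3 m0 xs hxs hsxs)
  obtain ⟨hy1a, hy1b⟩ := hsel1' m0 ys (h4 m0 ys hys hyys)
  set x1 := sel0 m0 xs with hx1
  set y1 := sel1 m0 ys with hy1
  obtain ⟨af, haf, haf0, hafs⟩ := exists_recursion (G := fun a => nl (a + 1))
    (D0.rel (R := fun k x => x = nl k) hnlD ((Tm.var 0).add Tm.one) (Tm.var 1)) (nl m0)
  have hinc : ∀ r, af r < af (r + 1) := by
    intro r
    rw [hafs]
    exact (lt_succ_self' _).trans (hnl _)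
  have hselD : ∀ {sel : N.M → N.M → N.M}, D0 (fun v => v 2 = sel (v 0) (v 1)) →
      D0 (fun v => v 2 = sel (af (v 0) + 1) (v 1)) := by
    intro sel hsel
    refine D0.subst_fun haf (P := fun v x => v 2 = sel (x + 1) (v 1)) ?_ (Tm.var 0)
    exact D0.rel3 (R := fun r t z => z = sel r t) hsel ((Tm.var 0).add Tm.one) (Tm.var 2)
      (Tm.var 3)
  have hs0 : ∀ r t, Lv T0 t (af r + 1) → Ini x1 t → MemC (sel0 (af r + 1) t) (D1 (af r + 1)) ∧
      Ini t (sel0 (af r + 1) t) := fun r t ht hxt =>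
    hsel0' _ t (h3 _ t ht (hsxs.trans (hx1b.trans hxt)))
  have hs1 : ∀ r t, Lv T1 t (af r + 1) → Ini y1 t → MemC (sel1 (af r + 1) t) (D2 (af r + 1)) ∧
      Ini t (sel1 (af r + 1) t) := fun r t ht hxt =>
    hsel1' _ t (h4 _ t ht (hyys.trans (hy1b.trans hxt)))
  obtain ⟨S0, hS0, hS0d, hS0r, hS0s⟩ := exists_strong haf hinc hT (x1 := x1)
    (by rw [haf0]; exact h1 m0 _ hx1a) (hselD hsel0) (fun r t ht hxt => by
      obtain ⟨a1, a2⟩ := hs0 r t ht hxt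
      refine ⟨?_, a2⟩
      rw [hafs]
      exact h1 _ _ a1)
  obtain ⟨S1, hS1, hS1d, hS1r, hS1s⟩ := exists_strong haf hinc hW (x1 := y1)
    (by rw [haf0]; exact h2 m0 _ hy1a) (hselD hsel1) (fun r t ht hxt => by
      obtain ⟨a1, a2⟩ := hs1 r t ht hxt
      refine ⟨?_, a2⟩
      rw [hafs]
      exact h2 _ _ a1)
  refine ⟨Rg af, Rg_mem haf, Rg_inf haf hinc, ![S0, S1], fun i => ?_, j, ?_⟩
  · fin_cases i
    · exact ⟨hS0, fun _ => hS0d⟩
    · exact ⟨hS1, fun _ => hS1d⟩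
  · rintro a ⟨r, rfl⟩ t ht
    obtain ⟨hu, huL⟩ := ht 0
    obtain ⟨hw, hwL⟩ := ht 1
    have hu : t 0 ∈ S0 := hu
    have hw : t 1 ∈ S1 := hw
    have huL := lv_iff.1 huL
    have hwL := lv_iff.1 hwL
    have : c t = cc (t 0) (t 1) := by
      rw [hcc1 huL hwL]
      congr 1
      exact fin2_eq rfl rfl
    rw [this]
    rcases eq_zero_or_succ r with rfl | ⟨r, rfl⟩
    · rw [hS0r _ hu huL, hS1r _ hw hwL]
      exact (h5 m0 x1 y1 hx1a hy1a).symm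
    · obtain ⟨t', ht', hxt', he⟩ := hS0s r _ hu huL
      obtain ⟨w', hw', hyw', he'⟩ := hS1s r _ hw hwL
      have e1 := (hs0 r t' ht' hxt').1
      have e2 := (hs1 r w' hw' hyw').1
      rw [he, he']
      exact (h5 _ _ _ e1 e2).symm

end Pool.Agent.Helper617.RM
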