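import Mathlib
import Pool.Agent.Helper617.RM.SeqCodes

namespace Pool.Agent.Helper617.RM

universe u

set_option linter.unusedSectionVars false
set_option linter.unusedVariables false

variable {N : L2Structure.{u}} [IsModelRCA0 N]

open IsModelRCA0

/-- next element of an infinite set -/
theorem exists_next {A : Set N.M} (hA : A ∈ N.Sets) (hinf : ∀ b, ∃ x ∈ A, b ≤ x) {a : N.M}
    (ha : a ∈ A) : ∃ b, IsNext N A a b := by
  obtain ⟨x, hx, hax⟩ := hinf (a + 1)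
  obtain ⟨b, _, ⟨h1, h2⟩, h3⟩ := lnp_D0 (P := fun b => b ∈ A ∧ a < b)
    (D0.and (D0.mem (Tm.var 0) hA) (D0.lt (Tm.const a) (Tm.var 0))) x
    ⟨hx, add_one_le_iff'.1 hax⟩
  exact ⟨b, ha, h1, h2, fun c hc hcc => h3 c hcc.2 ⟨hc, hcc.1⟩⟩

section coding

variable (St : N.M → N.M → Prop)

/-- admissible entries of the coding tree -/
def OKe (i z : N.M) : Prop :=
  z = 0 ∨ ∃ x, x < z ∧ ∃ k, k ≤ i ∧ (St x k ∧ ∃ e, e ≤ 1 ∧ z = pr x e + 1)

/-- the coding tree -/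
def InT (u : N.M) : Prop :=
  Sq u ∧ ∀ r, r < u → MemC r u → ∃ i, i < u ∧ ∃ z, z < u ∧ (r = pr i z ∧ OKe St i z)

/-- delayed entries -/
def Del (u n p x e k : N.M) : Prop := MemC (pr p (pr x e + 1)) u ∧ (n ≤ x ∧ St x k)

/-- the strongest delayed entry has colour one -/
def Col1 (u : N.M) : Prop :=
  ∃ n, n ≤ u ∧ (IsSq u n ∧ ∃ p, p < u ∧ ∃ x, x < u ∧ ∃ k, k < u ∧ (Del St u n p x 1 k ∧
    ((∀ p', p' < u → ∀ x', x' < u → ∀ e', e' ≤ 1 → ∀ k', k' < u → Del St u n p' x' e' k' → k ≤ k') ∧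
      ∀ p', p' < u → ∀ e', e' ≤ 1 → Del St u n p' x e' k → p ≤ p')))

/-- `k` is below all delayed entries -/
def Wit (k s a b : N.M) : Prop :=
  k ≤ a ∧ ∀ p, p < s → ∀ x, x < s → ∀ e, e ≤ 1 → ∀ k', k' < s → Del St s b p x e k' → k < k'

variable {St} (hSt : D0 (fun v => St (v 0) (v 1)))

include hSt

theorem OKe_D0 {s t : Ctx N → N.M} (hs : Tm s) (ht : Tm t) : D0 (fun v => OKe St (s v) (t v)) := by
  refine D0.or (D0.eq ht Tm.zero) (D0.bex ht (D0.bexLe hs.tail (D0.and ?_ (D0.bexLe Tm.one ?_))))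
  · exact hSt.rel (Tm.var 1) (Tm.var 0)
  · exact D0.eq ht.tail.tail.tail (((Tm.var 2).pr (Tm.var 0)).add Tm.one)

theorem InT_D0 {s : Ctx N → N.M} (hs : Tm s) : D0 (fun v => InT St (s v)) := by
  refine D0.and (Sq_D0 hs) (D0.ball hs (D0.imp (MemC_D0 (Tm.var 0) hs.tail) (D0.bex hs.tail
    (D0.bex hs.tail.tail (D0.and ?_ ?_)))))
  · exact D0.eq (Tm.var 2) ((Tm.var 1).pr (Tm.var 0))
  · exact OKe_D0 hSt (Tm.var 1) (Tm.var 0)

theorem Del_D0 {su sn sp sx se sk : Ctx N → N.M} (h1 : Tm su) (h2 : Tm sn) (h3 : Tm sp)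
    (h4 : Tm sx) (h5 : Tm se) (h6 : Tm sk) :
    D0 (fun v => Del St (su v) (sn v) (sp v) (sx v) (se v) (sk v)) :=
  D0.and (MemC_D0 (h3.pr ((h4.pr h5).add Tm.one)) h1) (D0.and (D0.le h2 h4) (hSt.rel h4 h6))

theorem Col1_D0 {s : Ctx N → N.M} (hs : Tm s) : D0 (fun v => Col1 St (s v)) := by
  refine D0.bexLe hs (D0.and (IsSq_D0 hs.tail (Tm.var 0)) (D0.bex hs.tail (D0.bex hs.tail.tail
    (D0.bex hs.tail.tail.tail (D0.and ?_ (D0.and ?_ ?_))))))
  · exact Del_D0 hSt hs.tail.tail.tail.tail (Tm.var 3) (Tm.var 2) (Tm.var 1) Tm.one (Tm.var 0)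
  · refine D0.ball hs.tail.tail.tail.tail (D0.ball hs.tail.tail.tail.tail.tail (D0.ballLe Tm.one
      (D0.ball hs.tail.tail.tail.tail.tail.tail.tail (D0.imp ?_ ?_))))
    · exact Del_D0 hSt hs.tail.tail.tail.tail.tail.tail.tail.tail (Tm.var 7) (Tm.var 3) (Tm.var 2)
        (Tm.var 1) (Tm.var 0)
    · exact D0.le (Tm.var 4) (Tm.var 0)
  · refine D0.ball hs.tail.tail.tail.tail (D0.ballLe Tm.one (D0.imp ?_ ?_))
    · exact Del_D0 hSt hs.tail.tail.tail.tail.tail.tail (Tm.var 5) (Tm.var 1) (Tm.var 3)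
        (Tm.var 0) (Tm.var 2)
    · exact D0.le (Tm.var 4) (Tm.var 1)

theorem Wit_D0 {sk ss sa sb : Ctx N → N.M} (h1 : Tm sk) (h2 : Tm ss) (h3 : Tm sa) (h4 : Tm sb) :
    D0 (fun v => Wit St (sk v) (ss v) (sa v) (sb v)) := by
  refine D0.and (D0.le h1 h3) (D0.ball h2 (D0.ball h2.tail (D0.ballLe Tm.one
    (D0.ball h2.tail.tail.tail (D0.imp ?_ ?_)))))
  · exact Del_D0 hSt h2.tail.tail.tail.tail h4.tail.tail.tail.tail (Tm.var 3) (Tm.var 2)
      (Tm.var 1) (Tm.var 0)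
  · exact D0.lt h1.tail.tail.tail.tail (Tm.var 0)

omit hSt in
theorem inT_iff {u : N.M} :
    InT St u ↔ Sq u ∧ ∀ i z, MemC (pr i z) u → OKe St i z := by
  refine and_congr_right fun hu => ⟨fun h i z hz => ?_, fun h r hr hru => ?_⟩
  · obtain ⟨i', _, z', _, e, h'⟩ := h _ hz.lt hz
    obtain ⟨rfl, rfl⟩ := pr_inj e
    exact h'
  · obtain ⟨n, _, hn⟩ := hu
    obtain ⟨i, z, _, rfl⟩ := hn.mem hru
    exact ⟨i, hru.fst_lt, z, hru.snd_lt, rfl, h i z hru⟩

omit hSt in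
theorem col1_iff (hle : ∀ x k, St x k → k ≤ x) {u n : N.M} (hu : IsSq u n) :
    Col1 St u ↔ ∃ p x k, Del St u n p x 1 k ∧
      (∀ p' x' e' k', e' ≤ 1 → Del St u n p' x' e' k' → k ≤ k') ∧
      ∀ p' e', e' ≤ 1 → Del St u n p' x e' k → p ≤ p' := by
  have hb : ∀ {p x e k : N.M}, Del St u n p x e k → p < u ∧ x < u ∧ k < u := by
    rintro p x e k ⟨h1, h2, h3⟩
    have hx : x < u := by
      refine lt_of_le_of_lt ?_ h1.snd_lt
      exact (fst_le_pr x e).trans (le_of_lt (lt_add_one_iff'.2 le_rfl))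
    exact ⟨h1.fst_lt, hx, lt_of_le_of_lt (hle x k h3) hx⟩
  constructor
  · rintro ⟨n', _, hn', p, _, x, _, k, _, h1, h2, h3⟩
    obtain rfl := hn'.len_unique hu
    refine ⟨p, x, k, h1, fun p' x' e' k' he' h => ?_, fun p' e' he' h => ?_⟩
    · exact h2 p' (hb h).1 x' (hb h).2.1 e' he' k' (hb h).2.2 h
    · exact h3 p' (hb h).1 e' he' h
  · rintro ⟨p, x, k, h1, h2, h3⟩
    exact ⟨n, hu.len_le, hu, p, (hb h1).1, x, (hb h1).2.1, k, (hb h1).2.2, h1,
      fun p' _ x' _ e' he' k' _ h => h2 p' x' e' k' he' h, fun p' _ e' he' h => h3 p' e' he' h⟩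

omit hSt in
theorem wit_iff (hle : ∀ x k, St x k → k ≤ x) {k s a b : N.M} :
    Wit St k s a b ↔ k ≤ a ∧ ∀ p x e k', e ≤ 1 → Del St s b p x e k' → k < k' := by
  refine and_congr_right fun _ => ⟨fun h p x e k' he hd => ?_, fun h p _ x _ e he k' _ hd =>
    h p x e k' he hd⟩
  have hx : x < s := by
    refine lt_of_le_of_lt ?_ hd.1.snd_lt
    exact (fst_le_pr x e).trans (le_of_lt (lt_add_one_iff'.2 le_rfl))
  exact h p hd.1.fst_lt x hx e he k' (lt_of_le_of_lt (hle x k' hd.2.2) hx) hd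

/-- the coding tree is a tree -/
theorem isTree_coding (hle : ∀ x k, St x k → k ≤ x) (h1 : ∀ x x' k, St x k → St x' k → x = x') :
    IsTree N {u | InT St u} := by
  refine ⟨comp_D0 (InT_D0 hSt (Tm.var 0)), ?_, ?_, ?_, ?_, ?_⟩
  · obtain ⟨s, hs⟩ := exists_empty (N := N)
    refine ⟨s, inT_iff.2 ⟨hs.sq, fun i z hz => ?_⟩⟩
    exact absurd (hs.lt hz) (not_lt_of_ge (zero_le' i))
  · intro t ht
    obtain ⟨n, _, hn⟩ := (inT_iff.1 ht).1
    exact ⟨n, hasLen_iff.2 hn⟩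
  · intro t ht s hs
    have hs := ini_iff.1 hs
    exact inT_iff.2 ⟨hs.1, fun i z hz => (inT_iff.1 ht).2 i z (hs.mem hz)⟩
  · intro s hs
    obtain ⟨n, _, hn⟩ := (inT_iff.1 hs).1
    -- a bound for the stages
    obtain ⟨X, hX⟩ := strong_bounding (Q := fun k x => St x k)
      (hSt.rel (Tm.var 1) (Tm.var 0)) (n + 1)
    have hX' : ∀ x k, k ≤ n → St x k → x < X := by
      intro x k hk hx
      obtain ⟨x', hx', hx''⟩ := hX k (lt_add_one_iff'.2 hk) ⟨x, hx⟩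
      rw [h1 x x' k hx hx'']; exact hx'
    -- a bound for the codes
    obtain ⟨B, hB⟩ := bounding (Q := fun z t => IsSq t (n + 1) ∧ (Ini s t ∧ MemC (pr n z) t)) (by
      refine D0.and (IsSq_D0 (Tm.var 0) (Tm.const _)) (D0.and (Ini_D0 (Tm.const s) (Tm.var 0)) ?_)
      exact MemC_D0 ((Tm.const n).pr (Tm.var 1)) (Tm.var 0)) (pr (X + 2) (X + 2) + 1)
      (fun z _ => by
        obtain ⟨t, h1, h2, h3⟩ := exists_app hn z
        exact ⟨t, h1, h2, h3⟩)
    refine ⟨B, ?_⟩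
    rintro t ⟨ht, hst⟩
    obtain ⟨hst, n', hn', ht'⟩ := immSucc_iff.1 hst
    obtain rfl := hn'.len_unique hn
    obtain ⟨z, hz⟩ := ht'.ex (lt_add_one_iff'.2 le_rfl)
    have hzB : z < pr (X + 2) (X + 2) + 1 := by
      have hOK : OKe St n' z := (inT_iff.1 ht).2 n' z hz
      rcases hOK with rfl | ⟨x, _, k, hk, hx, e, he, rfl⟩
      · exact lt_of_le_of_lt (zero_le' _) (lt_add_one_iff'.2 le_rfl)
      · have hx' : x < X + 2 := (hX' x k hk hx).trans_le (le_add_of_nonneg_right (zero_le' _))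
        have he' : e < X + 2 := by
          refine lt_of_le_of_lt he ?_
          calc (1 : N.M) < 1 + 1 := lt_add_one_iff'.2 le_rfl
            _ = 2 := one_add_one_eq_two
            _ ≤ X + 2 := le_add_of_nonneg_left (zero_le' _)
        gcongr
        exact pr_lt_of_lt hx' he'
    obtain ⟨t', ht'B, h3, h4, h5⟩ := hB z hzB
    rw [app_unique hn ht' h3 hst h4 hz h5]
    exact ht'B
  · intro s hs
    obtain ⟨n, _, hn⟩ := (inT_iff.1 hs).1
    obtain ⟨t, h2, h3, h4⟩ := exists_app hn 0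
    refine ⟨t, inT_iff.2 ⟨h2.sq, fun i z hz => ?_⟩, immSucc_iff.2 ⟨h3, n, hn, h2⟩⟩
    rcases lt_or_eq_of_le (lt_add_one_iff'.1 (h2.lt hz)) with hi | rfl
    · obtain ⟨z', hz'⟩ := hn.ex hi
      rw [h2.fn hz (h3.mem hz')]
      exact (inT_iff.1 hs).2 i z' hz'
    · exact Or.inl (h2.fn hz h4)

/-- the main step: the range of the enumeration exists -/
theorem range_mem_of_HL (hHL : HL N 1) (hle : ∀ x k, St x k → k ≤ x)
    (h1 : ∀ x x' k, St x k → St x' k → x = x') (h2 : ∀ x k k', St x k → St x k' → k = k') :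
    {k | ∃ x, St x k} ∈ N.Sets := by
  classical
  have hT := isTree_coding hSt hle h1
  have hlt2 : (1 : N.M) < 1 + 1 := lt_add_one_iff'.2 le_rfl
  let c : (Fin 1 → N.M) → N.M := fun t => if Col1 St (t 0) then 1 else 0
  have hc : IsLevelCol N 1 (fun _ => {u | InT St u}) (1 + 1 : N.M) c := by
    refine ⟨fun n t _ => ?_, ?_⟩
    · show c t < 1 + 1
      by_cases h : Col1 St (t 0)
      · simp only [c, if_pos h]; exact hlt2
      · simp only [c, if_neg h]; exact lt_of_le_of_lt (zero_le' _) hlt2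
    · have := codeRel_mem_D0 (R := fun u a => InT St u ∧ ((Col1 St u ∧ a = 1) ∨
        (¬ Col1 St u ∧ a = 0))) (D0.and (InT_D0 hSt (Tm.var 0)) (D0.or
          (D0.and (Col1_D0 hSt (Tm.var 0)) (D0.eq (Tm.var 1) Tm.one))
          (D0.and (Col1_D0 hSt (Tm.var 0)).not (D0.eq (Tm.var 1) Tm.zero))))
      convert this using 1
      ext r
      constructor
      · rintro ⟨n, t, ht, rfl⟩
        refine ⟨t 0, c t, ⟨(ht 0).1, ?_⟩, rfl⟩
        by_cases h : Col1 St (t 0)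
        · left; simp only [c, if_pos h]; exact ⟨h, trivial⟩
        · right; simp only [c, if_neg h]; exact ⟨h, trivial⟩
      · rintro ⟨u, a, ⟨hu, ha⟩, rfl⟩
        obtain ⟨n, hn⟩ := hT.seq u hu
        refine ⟨n, fun _ => u, fun _ => ⟨hu, hn⟩, ?_⟩
        have : c (fun _ => u) = a := by
          rcases ha with ⟨h, rfl⟩ | ⟨h, rfl⟩
          · simp only [c, if_pos h]
          · simp only [c, if_neg h]
        show pr u a = pr u (c (fun _ => u))
        rw [this]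
  obtain ⟨A, hA, hAinf, S, hS, j, hj⟩ := hHL _ (fun _ => hT) _ c hc
  rw [not_isFin_iff] at hAinf
  have hS0 := (hS 0).1
  set S0 := S 0 with hS0def
  have hS0m : S0 ∈ N.Sets := hS0.mem
  have hcol : ∀ a ∈ A, ∀ u ∈ S0 ∩ Level N {u | InT St u} a, c (fun _ => u) = j := by
    intro a ha u hu
    refine hj a ha (fun _ => u) fun i => ?_
    have : i = 0 := Subsingleton.elim _ _
    subst this
    exact hu
  -- the decision property
  have key : ∀ a b s k, IsNext N A a b → s ∈ S0 → IsSq s a → Wit St k s a b →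
      ∀ x, b ≤ x → ¬ St x k := by
    intro a b s k'' hab hs hsa hW x'' hbx'' hx''
    obtain ⟨hka, hW⟩ := (wit_iff hle).1 hW
    obtain ⟨k', hk'', ⟨x', hbx', hx'⟩, hmin⟩ := lnp_S1 (P := fun k => ∃ x, b ≤ x ∧ St x k)
      (S1.ex (D0.S1 (D0.and (D0.le (Tm.const b) (Tm.var 0)) (hSt.rel (Tm.var 0) (Tm.var 1)))))
      k'' ⟨x'', hbx'', hx''⟩
    have hsT : s ∈ Level N {u | InT St u} a := by
      obtain ⟨a', _, ha'⟩ := hS0.sub s hs
      have := (hasLen_iff.1 ha'.2).len_unique hsa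
      subst this
      exact ha'
    have haA : a ∈ A := hab.1
    have hbA : b ∈ A := hab.2.1
    -- the colour of the new successor
    obtain ⟨e, he1, hej⟩ : ∃ e : N.M, e ≤ 1 ∧ j ≠ e ∧ (e = 0 ∨ e = 1) := by
      by_cases hj1 : j = 1
      · exact ⟨0, zero_le' _, by rw [hj1]; exact one_ne_zero, Or.inl rfl⟩
      · exact ⟨1, le_rfl, hj1, Or.inr rfl⟩
    obtain ⟨hje, he01⟩ := hej
    obtain ⟨t, ht1, ht2, ht3⟩ := exists_app hsa (pr x' e + 1)
    have htT : InT St t := by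
      refine inT_iff.2 ⟨ht1.sq, fun i z hz => ?_⟩
      rcases lt_or_eq_of_le (lt_add_one_iff'.1 (ht1.lt hz)) with hi | rfl
      · obtain ⟨z', hz'⟩ := hsa.ex hi
        rw [ht1.fn hz (ht2.mem hz')]
        exact (inT_iff.1 hsT.1).2 i z' hz'
      · rw [ht1.fn hz ht3]
        refine Or.inr ⟨x', ?_, k', hk''.trans hka, hx', e, he1, rfl⟩
        exact lt_add_one_iff'.2 (fst_le_pr x' e)
    obtain ⟨u, ⟨⟨huS, huL⟩, htu⟩, _⟩ := hS0.ext a b hab s ⟨hs, hsT⟩ t htT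
      (immSucc_iff.2 ⟨ht2, a, hsa, ht1⟩)
    have htu := ini_iff.1 htu
    have hub : IsSq u b := hasLen_iff.1 huL.2
    have hcu := hcol b hbA u ⟨huS, huL⟩
    have hmem : MemC (pr a (pr x' e + 1)) u := htu.mem ht3
    have hDel : Del St u b a x' e k' := ⟨hmem, hbx', hx'⟩
    have hpos : ∀ p e' , e' ≤ 1 → Del St u b p x' e' k' → a ≤ p := by
      intro p e' he' hd
      by_contra hcon
      push Not at hcon
      obtain ⟨z, hz⟩ := hsa.ex hcon
      have hz' := hub.fn hd.1 (htu.mem (ht2.mem hz))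
      rw [← hz'] at hz
      exact absurd hk'' (not_le_of_gt (hW p x' e' k' he' ⟨hz, hbx', hx'⟩))
    have hminD : ∀ p x e' k, e' ≤ 1 → Del St u b p x e' k → k' ≤ k := by
      intro p x e' k _ hd
      by_contra hcon
      push Not at hcon
      exact hmin k hcon ⟨x, hd.2.1, hd.2.2⟩
    have hcole : Col1 St u ↔ e = 1 := by
      rw [col1_iff hle hub]
      constructor
      · rintro ⟨p, x, k, hd, hm1, hm2⟩
        have hkk : k = k' := le_antisymm (hm1 a x' e k' he1 hDel) (hminD p x 1 k le_rfl hd)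
        subst hkk
        have hxx : x = x' := h1 _ _ _ hd.2.2 hx'
        subst hxx
        have hpa : p = a := le_antisymm (hm2 a e he1 hDel) (hpos p 1 le_rfl hd)
        subst hpa
        exact (pr_inj (add_cancel' (hub.fn hmem hd.1))).2
      · rintro rfl
        refine ⟨a, x', k', hDel, fun p x e' k he' hd => hminD p x e' k he' hd,
          fun p e' he' hd => hpos p e' he' hd⟩
    have : c (fun _ => u) = e := by
      rcases he01 with rfl | rfl
      · have : ¬ Col1 St u := fun h => zero_ne_one (hcole.1 h)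
        simp only [c, if_neg this]
      · simp only [c, if_pos (hcole.2 rfl)]
    exact hje (hcu.symm.trans this)
  -- existence of witnesses
  have hex : ∀ k, ∃ a b s, (IsNext N A a b ∧ s ∈ S0) ∧ (IsSq s a ∧ Wit St k s a b) := by
    intro k
    obtain ⟨X, hX⟩ := strong_bounding (Q := fun k x => St x k)
      (hSt.rel (Tm.var 1) (Tm.var 0)) (k + 1)
    obtain ⟨a, haA, ha⟩ := hAinf (max X k)
    obtain ⟨b, hab⟩ := exists_next hA hAinf haA
    obtain ⟨s, hsS, hsL⟩ := hS0.nonempty a haA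
    refine ⟨a, b, s, ⟨hab, hsS⟩, hasLen_iff.1 hsL.2, (wit_iff hle).2
      ⟨(le_max_right _ _).trans ha, fun p x e k' he hd => ?_⟩⟩
    by_contra hcon
    push Not at hcon
    obtain ⟨x', hx', hx''⟩ := hX k' (lt_add_one_iff'.2 hcon) ⟨x, hd.2.2⟩
    have hxx : x = x' := h1 _ _ _ hd.2.2 hx''
    subst hxx
    have : X ≤ x := ((le_max_left _ _).trans ha).trans ((le_of_lt hab.2.2.1).trans hd.2.1)
    exact absurd hx' (not_lt_of_ge this)
  have hNext_D0 : ∀ {s t : Ctx N → N.M}, Tm s → Tm t → D0 (fun v => IsNext N A (s v) (t v)) := by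
    intro s t hs ht
    refine D0.congr (R := fun v => s v ∈ A ∧ (t v ∈ A ∧ (s v < t v ∧
      ∀ c, c < t v → (c ∈ A → ¬ s v < c)))) ?_ fun v => ?_
    · refine D0.and (D0.mem hs hA) (D0.and (D0.mem ht hA) (D0.and (D0.lt hs ht)
        (D0.ball ht (D0.imp (D0.mem (Tm.var 0) hA) (D0.lt hs.tail (Tm.var 0)).not))))
    · refine and_congr_right fun _ => and_congr_right fun _ => and_congr_right fun _ => ?_
      exact ⟨fun h c hc hcc => h c hcc.2 hc hcc.1, fun h c hc hcA hcc => h c hcA ⟨hcc, hc⟩⟩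
  have hbody : D0 (fun v => (IsNext N A (v 0) (v 1) ∧ v 2 ∈ S0) ∧
      (IsSq (v 2) (v 0) ∧ Wit St (v 3) (v 2) (v 0) (v 1))) :=
    D0.and (D0.and (hNext_D0 (Tm.var 0) (Tm.var 1)) (D0.mem (Tm.var 2) hS0m))
      (D0.and (IsSq_D0 (Tm.var 2) (Tm.var 0))
        (Wit_D0 hSt (Tm.var 3) (Tm.var 2) (Tm.var 0) (Tm.var 1)))
  have hbody' : D0 (fun v => (IsNext N A (v 2) (v 1) ∧ v 0 ∈ S0) ∧
      (IsSq (v 0) (v 2) ∧ Wit St (v 3) (v 0) (v 2) (v 1))) :=
    hbody.comp (g := fun v => cons (v 2) (cons (v 1) (cons (v 0) (tail (tail (tail v))))))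
      (CM.cons (Tm.var 2) (CM.cons (Tm.var 1) (CM.cons (Tm.var 0) CM.tail.tail'.tail')))
  refine comp_D1 (P := fun k => ∃ x, St x k) ?_ ?_
  · exact S1.ex (D0.S1 (hSt.rel (Tm.var 0) (Tm.var 1)))
  · refine S1.congr (R := fun v => ∃ a, ∃ b, ∃ s, ((IsNext N A a b ∧ s ∈ S0) ∧
      (IsSq s a ∧ Wit St (v 0) s a b)) ∧ ∀ x, x < b → ¬ St x (v 0)) ?_ fun v => ?_
    · refine S1.ex (S1.ex (S1.ex (D0.S1 (D0.and hbody' (D0.ball (Tm.var 1) ?_)))))
      exact (hSt.rel (Tm.var 0) (Tm.var 4)).not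
    · constructor
      · rintro ⟨a, b, s, ⟨⟨hab, hs⟩, hsa, hW⟩, hx⟩ ⟨x, hx'⟩
        by_cases hbx : x < b
        · exact hx x hbx hx'
        · exact key a b s _ hab hs hsa hW x (not_lt.1 hbx) hx'
      · intro h
        obtain ⟨a, b, s, h1, h2⟩ := hex (v 0)
        exact ⟨a, b, s, ⟨h1, h2⟩, fun x _ hx => h ⟨x, hx⟩⟩

end coding

/-- `HL_1` implies `Σ⁰₁` comprehension -/
theorem sigma1_of_HL (hHL : HL N 1) {P : N.M → Prop} (hP : S1 (fun v => P (v 0))) :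
    {k | P k} ∈ N.Sets := by
  obtain ⟨Q, hQ, hPQ⟩ := hP
  -- `x` is the stage at which `k` is enumerated
  let Q' : N.M → N.M → Prop := fun k m => Q (cons k (fun _ => 0)) m
  have hQ' : D0 (fun v => Q' (v 0) (v 1)) :=
    hQ.comp (g := fun v => cons (v 1) (cons (v 0) (fun _ => 0)))
      (CM.cons (Tm.var 1) (CM.cons (Tm.var 0) (fun _ => Tm.zero)))
  have hPQ' : ∀ k, P k ↔ ∃ m, Q' k m := fun k => hPQ (cons k (fun _ => 0))
  let St : N.M → N.M → Prop := fun x k =>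
    ∃ m, m ≤ x ∧ (x = pr k m ∧ (Q' k m ∧ ∀ m', m' < m → ¬ Q' k m'))
  have hSt : D0 (fun v => St (v 0) (v 1)) := by
    refine D0.bexLe (Tm.var 0) (D0.and (D0.eq (Tm.var 1) ((Tm.var 2).pr (Tm.var 0)))
      (D0.and (hQ'.rel (Tm.var 2) (Tm.var 0)) (D0.ball (Tm.var 0) ?_)))
    exact (hQ'.rel (Tm.var 3) (Tm.var 0)).not
  have := range_mem_of_HL hSt hHL (fun x k ⟨m, _, h, _⟩ => h ▸ fst_le_pr k m) (by
    rintro x x' k ⟨m, _, rfl, h1, h2⟩ ⟨m', _, rfl, h1', h2'⟩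
    rcases lt_trichotomy m m' with h | rfl | h
    · exact absurd h1 (h2' m h)
    · rfl
    · exact absurd h1' (h2 m' h)) (by
    rintro x k k' ⟨m, _, rfl, _⟩ ⟨m', _, he, _⟩
    exact (pr_inj he).1)
  convert this using 1
  ext k
  show P k ↔ ∃ x, St x k
  rw [hPQ']
  constructor
  · rintro ⟨m, hm⟩
    obtain ⟨m', _, h1, h2⟩ := lnp_D0 (P := fun m => Q' k m)
      (hQ'.rel (Tm.const k) (Tm.var 0)) m hm
    exact ⟨pr k m', m', snd_le_pr _ _, rfl, h1, h2⟩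
  · rintro ⟨x, m, _, _, hm, _⟩
    exact ⟨m, hm⟩

end Pool.Agent.Helper617.RM
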