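import Mathlib
import Pool.Agent.Helper617.RM.HLtoACA
import Pool.Agent.Helper617.RM.HLTwoFinal

namespace Pool.Agent.Helper617.RM

universe u

set_option linter.unusedSectionVars false
set_option linter.unusedVariables false

variable {N : L2Structure.{u}} [IsModelRCA0 N]

open IsModelRCA0

theorem HLGen.mono {p q : Prop} {d : ℕ} (hpq : q → p) (h : HLGen N p d) : HLGen N q d := by
  intro T hT k c hc
  obtain ⟨A, hA, hinf, S, hS, j, hj⟩ := h T hT k c hc
  exact ⟨A, hA, hinf, S, fun i => ⟨(hS i).1, fun hq => (hS i).2 (hpq hq)⟩, j, hj⟩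

/-- `HL_2` implies `HL_1` -/
theorem HL_one_of_two {p : Prop} (h : HLGen N p 2) : HLGen N p 1 := by
  intro T hTT k c hc
  have hT := hTT 0
  obtain ⟨hck, hcX⟩ := hc
  set X := {r | ∃ n t, (∀ i, t i ∈ Level N (T i) n) ∧ r = tupCode N 1 t (c t)} with hX
  have hcX : X ∈ N.Sets := hcX
  have h1 : ∀ {u n}, u ∈ Level N (T 0) n → ∀ i, (fun _ => u : Fin 1 → N.M) i ∈
      Level N (T i) n := by
    intro u n hu i
    have : i = 0 := Subsingleton.elim _ _
    subst this
    exact hu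
  have hmemX : ∀ {u n}, u ∈ Level N (T 0) n → ∀ i, pr u i ∈ X ↔ i = c (fun _ => u) := by
    intro u n hu i
    constructor
    · rintro ⟨n', t, ht, he⟩
      have he : pr u i = pr (t 0) (c t) := he
      obtain ⟨h1, h2⟩ := pr_inj he
      rw [h2]
      congr 1
      funext i
      have : i = 0 := Subsingleton.elim _ _
      rw [this, h1]
    · rintro rfl
      exact ⟨n, fun _ => u, h1 hu, rfl⟩
  let T' : Fin 2 → Set N.M := fun _ => T 0
  let c' : (Fin 2 → N.M) → N.M := fun t => c (fun _ => t 0)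
  obtain ⟨A, hA, hinf, S, hS, j, hj⟩ := h T' (fun _ => hT) k c' (by
    refine ⟨fun n t ht => hck n _ (h1 (ht 0)), ?_⟩
    have : {r | ∃ u, u ≤ r ∧ ∃ w, w ≤ r ∧ ∃ i, i ≤ r ∧ (r = pr u (pr w i) ∧
        ((∃ n, n ≤ u ∧ (Lv (T 0) u n ∧ Lv (T 0) w n)) ∧ pr u i ∈ X))} ∈ N.Sets := by
      refine comp_D0 (P := fun r => ∃ u, u ≤ r ∧ ∃ w, w ≤ r ∧ ∃ i, i ≤ r ∧ (r = pr u (pr w i) ∧
        ((∃ n, n ≤ u ∧ (Lv (T 0) u n ∧ Lv (T 0) w n)) ∧ pr u i ∈ X))) ?_
      refine D0.bexLe (Tm.var 0) (D0.bexLe (Tm.var 1) (D0.bexLe (Tm.var 2) (D0.and ?_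
        (D0.and (D0.bexLe (Tm.var 2) (D0.and ?_ ?_)) ?_))))
      · exact D0.eq (Tm.var 3) ((Tm.var 2).pr ((Tm.var 1).pr (Tm.var 0)))
      · exact Lv_D0 hT.mem (Tm.var 3) (Tm.var 0)
      · exact Lv_D0 hT.mem (Tm.var 2) (Tm.var 0)
      · exact D0.mem ((Tm.var 2).pr (Tm.var 0)) hcX
    convert this using 1
    ext r
    constructor
    · rintro ⟨n, t, ht, rfl⟩
      have h0 := lv_iff.1 (ht 0)
      have h1' := lv_iff.1 (ht 1)
      refine ⟨t 0, fst_le_pr _ _, t 1, (fst_le_pr _ _).trans (snd_le_pr _ _), c' t,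
        (snd_le_pr _ _).trans (snd_le_pr _ _), rfl, ⟨n, h0.2.len_le, h0, h1'⟩, ?_⟩
      exact (hmemX (ht 0) _).2 rfl
    · rintro ⟨u, _, w, _, i, _, rfl, ⟨n, _, hu, hw⟩, hX⟩
      refine ⟨n, ![u, w], fun i => ?_, ?_⟩
      · fin_cases i
        · exact lv_iff.2 hu
        · exact lv_iff.2 hw
      · have := (hmemX (lv_iff.2 hu) i).1 hX
        rw [this]
        rfl)
  refine ⟨A, hA, hinf, fun _ => S 0, fun i => ?_, j, fun a ha t ht => ?_⟩
  · have : i = 0 := Subsingleton.elim _ _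
    subst this
    exact hS 0
  · obtain ⟨w, hw⟩ := (hS 1).1.nonempty a ha
    have h2 := hj a ha ![t 0, w] (fun i => by
      fin_cases i
      · exact ht 0
      · exact hw)
    have h3 : c' ![t 0, w] = c t := by
      show c (fun _ => t 0) = c t
      congr 1
      funext i
      have : i = 0 := Subsingleton.elim _ _
      rw [this]
    rw [← h3]
    exact h2

/-- `HL_1` is equivalent to arithmetical comprehension -/
theorem HL_one_iff (p : Prop) : HLGen N p 1 ↔ ArithComp N := by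
  constructor
  · intro h
    have h1 : HL N 1 := h.mono False.elim
    haveI : Sig1 N := ⟨fun P hP => sigma1_of_HL h1 hP⟩
    exact arithComp_of_sig1
  · intro h
    haveI := sig1_of_arithComp h
    exact HL_one_of_two (HL_two_of_sig1.mono fun _ => trivial)

/-- `HL_2` is equivalent to arithmetical comprehension -/
theorem HL_two_iff (p : Prop) : HLGen N p 2 ↔ ArithComp N := by
  constructor
  · intro h
    exact (HL_one_iff p).1 (HL_one_of_two h)
  · intro h
    haveI := sig1_of_arithComp h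
    exact HL_two_of_sig1.mono fun _ => trivial

end Pool.Agent.Helper617.RM
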