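import Mathlib
import Pool.Agent.Helper617.RM.Embed
import Pool.Agent.Helper617.RM.Lex

namespace Pool.Agent.Helper617.RM

universe u

set_option linter.unusedSectionVars false
set_option linter.unusedVariables false

variable {N : L2Structure.{u}} [IsModelRCA0 N]

open IsModelRCA0

/-! ### the combinatorial lemma on ranks -/

section rank

variable {α : Type u} [LinearOrder α]

/-- `p ∈ T` has at least `j` predecessors in `T` -/
def AtLeast (T : α → Prop) : ℕ → α → Prop
  | 0, p => T p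
  | j + 1, p => T p ∧ ∃ p', p' < p ∧ AtLeast T j p'

theorem AtLeast.mem {T : α → Prop} {j : ℕ} {p : α} (h : AtLeast T j p) : T p := by
  cases j with
  | zero => exact h
  | succ j => exact h.1

theorem atLeast_iff {T : α → Prop} (s : Finset α) (hs : ∀ x, x ∈ s ↔ T x) (j : ℕ) (p : α) :
    AtLeast T j p ↔ p ∈ s ∧ j ≤ (s.filter (· < p)).card := by
  classical
  induction j generalizing p with
  | zero => simp [AtLeast, hs]
  | succ j ih =>
    simp only [AtLeast, ih]
    constructor
    · rintro ⟨h1, q, hq, hqs, hj⟩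
      refine ⟨(hs p).2 h1, ?_⟩
      have hsub : insert q (s.filter (· < q)) ⊆ s.filter (· < p) := by
        intro x hx
        rw [Finset.mem_insert] at hx
        rcases hx with rfl | hx
        · exact Finset.mem_filter.2 ⟨hqs, hq⟩
        · rw [Finset.mem_filter] at hx ⊢
          exact ⟨hx.1, hx.2.trans hq⟩
      have hcard := Finset.card_le_card hsub
      rw [Finset.card_insert_of_notMem (by simp)] at hcard
      omega
    · rintro ⟨h1, h2⟩
      refine ⟨(hs p).1 h1, ?_⟩
      have hne : (s.filter (· < p)).Nonempty := by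
        rw [← Finset.card_pos]; omega
      obtain ⟨q, hq, hqmax⟩ := (s.filter (· < p)).exists_max_image id hne
      rw [Finset.mem_filter] at hq
      refine ⟨q, hq.2, hq.1, ?_⟩
      have hsub : s.filter (· < p) ⊆ insert q (s.filter (· < q)) := by
        intro x hx
        rw [Finset.mem_insert]
        have := hqmax x hx
        rcases lt_or_eq_of_le this with h | h
        · exact Or.inr (Finset.mem_filter.2 ⟨(Finset.mem_filter.1 hx).1, h⟩)
        · exact Or.inl h
      have hcard := Finset.card_le_card hsub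
      rw [Finset.card_insert_of_notMem (by simp)] at hcard
      omega

theorem rank_low {T : α → Prop} {k : ℕ} (hT : {x | T x}.Finite) :
    {x | T x ∧ ¬ AtLeast T k x}.encard ≤ k := by
  classical
  set s := hT.toFinset with hsdef
  have hs : ∀ x, x ∈ s ↔ T x := fun x => by simp [hsdef]
  have hinj : Set.InjOn (fun p => (s.filter (· < p)).card) {x | T x ∧ ¬ AtLeast T k x} := by
    intro x hx y hy hxy
    simp only at hxy
    rcases lt_trichotomy x y with h | h | h
    · have hsub : insert x (s.filter (· < x)) ⊆ s.filter (· < y) := by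
        intro z hz
        rw [Finset.mem_insert] at hz
        rcases hz with rfl | hz
        · exact Finset.mem_filter.2 ⟨(hs _).2 hx.1, h⟩
        · rw [Finset.mem_filter] at hz ⊢
          exact ⟨hz.1, hz.2.trans h⟩
      have hcard := Finset.card_le_card hsub
      rw [Finset.card_insert_of_notMem (by simp)] at hcard
      omega
    · exact h
    · have hsub : insert y (s.filter (· < y)) ⊆ s.filter (· < x) := by
        intro z hz
        rw [Finset.mem_insert] at hz
        rcases hz with rfl | hz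
        · exact Finset.mem_filter.2 ⟨(hs _).2 hy.1, h⟩
        · rw [Finset.mem_filter] at hz ⊢
          exact ⟨hz.1, hz.2.trans h⟩
      have hcard := Finset.card_le_card hsub
      rw [Finset.card_insert_of_notMem (by simp)] at hcard
      omega
  have hmaps : ∀ x ∈ {x | T x ∧ ¬ AtLeast T k x}, (s.filter (· < x)).card ∈
      ((Finset.range k : Finset ℕ) : Set ℕ) := by
    rintro x ⟨h1, h2⟩
    rw [atLeast_iff s hs] at h2
    rw [Finset.coe_range, Set.mem_Iio]
    by_contra h
    exact h2 ⟨(hs x).2 h1, not_lt.1 h⟩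
  calc {x | T x ∧ ¬ AtLeast T k x}.encard
      = ((fun p => (s.filter (· < p)).card) '' {x | T x ∧ ¬ AtLeast T k x}).encard :=
        hinj.encard_image.symm
    _ ≤ ((Finset.range k : Finset ℕ) : Set ℕ).encard :=
        Set.encard_le_encard (Set.image_subset_iff.2 hmaps)
    _ = k := by rw [Set.encard_coe_eq_coe_finsetCard, Finset.card_range]

theorem rank_high {T : α → Prop} {k : ℕ} (hT : {x | T x}.encard ≤ (k + 1 : ℕ)) {x y : α}
    (hx : AtLeast T k x) (hy : AtLeast T k y) : x = y := by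
  classical
  have hfin : {x | T x}.Finite := Set.finite_of_encard_le_coe hT
  set s := hfin.toFinset with hsdef
  have hs : ∀ x, x ∈ s ↔ T x := fun x => by simp [hsdef]
  have hcard : s.card ≤ k + 1 := by
    have h1 : ((s : Set α)).encard ≤ (k + 1 : ℕ) := by
      have : (s : Set α) = {x | T x} := by ext x; simp [hsdef]
      rw [this]; exact hT
    rw [Set.encard_coe_eq_coe_finsetCard] at h1
    exact_mod_cast h1
  have key : ∀ x y, AtLeast T k x → AtLeast T k y → ¬ x < y := by
    intro x y hx hy h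
    have hsub : insert y (insert x (s.filter (· < x))) ⊆ s := by
      intro z hz
      rw [Finset.mem_insert, Finset.mem_insert] at hz
      rcases hz with rfl | rfl | hz
      · exact (hs _).2 hy.mem
      · exact (hs _).2 hx.mem
      · exact (Finset.mem_filter.1 hz).1
    have h1 := Finset.card_le_card hsub
    rw [Finset.card_insert_of_notMem (by
        rw [Finset.mem_insert, not_or]
        exact ⟨h.ne', fun hz => absurd ((Finset.mem_filter.1 hz).2) (not_lt_of_gt h)⟩),
      Finset.card_insert_of_notMem (by simp)] at h1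
    have h2 := ((atLeast_iff s hs k x).1 hx).2
    omega
  rcases lt_trichotomy x y with h | h | h
  · exact absurd h (key x y hx hy)
  · exact h
  · exact absurd h (key y x hy hx)

end rank

/-! ### transfer along an embedding -/

section transfer

variable {E : N.M → N.M → Prop} {π : N.M → N.M}

theorem le_of_increasing (hπ : D0 (fun v => v 1 = π (v 0))) (hinc : ∀ i j, i < j → π i < π j)
    (x : N.M) : x ≤ π x := by
  refine ind_S1 (P := fun x => x ≤ π x) ?_ (zero_le' _) (fun n ih => ?_) x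
  · refine S1.congr (R := fun v => ∃ y, y = π (v 0) ∧ v 0 ≤ y) ?_ fun v => by simp
    exact S1.ex (D0.S1 (D0.and (D0.rel (R := fun k x => x = π k) hπ (Tm.var 1) (Tm.var 0))
      (D0.le (Tm.var 1) (Tm.var 0))))
  · exact add_one_le_iff'.2 (lt_of_le_of_lt ih (hinc _ _ (lt_add_one_iff'.2 le_rfl)))

theorem injective_of_increasing (hinc : ∀ i j, i < j → π i < π j) : Function.Injective π := by
  intro i j h
  rcases lt_trichotomy i j with h1 | h1 | h1
  · exact absurd h (hinc _ _ h1).ne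
  · exact h1
  · exact absurd h (hinc _ _ h1).ne'

theorem image_mem (hπ : D0 (fun v => v 1 = π (v 0))) (hinc : ∀ i j, i < j → π i < π j)
    {F : Set N.M} (hF : F ∈ N.Sets) : π '' F ∈ N.Sets := by
  have : π '' F = {y | ∃ x, x ≤ y ∧ (x ∈ F ∧ y = π x)} := by
    ext y
    constructor
    · rintro ⟨x, hx, rfl⟩
      exact ⟨x, le_of_increasing hπ hinc x, hx, rfl⟩
    · rintro ⟨x, _, hx, rfl⟩
      exact ⟨x, hx, rfl⟩
  rw [this]
  exact comp_D0 (P := fun y => ∃ x, x ≤ y ∧ (x ∈ F ∧ y = π x)) (D0.bexLe (Tm.var 0)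
    (D0.and (D0.mem (Tm.var 0) hF)
      (D0.rel (R := fun k x => x = π k) hπ (Tm.var 0) (Tm.var 1))))

theorem preimage_mem (hπ : D0 (fun v => v 1 = π (v 0))) {F : Set N.M} (hF : F ∈ N.Sets) :
    π ⁻¹' F ∈ N.Sets := by
  refine comp_D1 (P := fun x => π x ∈ F) ?_ ?_
  · refine S1.congr (R := fun v => ∃ y, y = π (v 0) ∧ y ∈ F) ?_ fun v => by simp
    exact S1.ex (D0.S1 (D0.and (D0.rel (R := fun k x => x = π k) hπ (Tm.var 1) (Tm.var 0))
      (D0.mem (Tm.var 0) hF)))
  · refine S1.congr (R := fun v => ∃ y, y = π (v 0) ∧ ¬ y ∈ F) ?_ fun v => by simp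
    exact S1.ex (D0.S1 (D0.and (D0.rel (R := fun k x => x = π k) hπ (Tm.var 1) (Tm.var 0))
      (D0.mem (Tm.var 0) hF).not))

theorem image_fin (hinc : ∀ i j, i < j → π i < π j) {F : Set N.M} (hF : IsFin N F) :
    IsFin N (π '' F) := by
  obtain ⟨b, hb⟩ := hF
  refine ⟨π b, ?_⟩
  rintro _ ⟨x, hx, rfl⟩
  exact hinc _ _ (hb x hx)

theorem preimage_fin (hπ : D0 (fun v => v 1 = π (v 0))) (hinc : ∀ i j, i < j → π i < π j)
    {F : Set N.M} (hF : IsFin N F) : IsFin N (π ⁻¹' F) := by
  obtain ⟨b, hb⟩ := hF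
  exact ⟨b, fun x hx => lt_of_le_of_lt (le_of_increasing hπ hinc x) (hb _ hx)⟩

theorem funIn_iff {e : N.M → N.M} : FunIn N e ↔ D0 (fun v => v 1 = e (v 0)) := by
  constructor
  · intro h
    exact D0.of_codeRel (R := fun x y => y = e x) h
  · intro h
    exact codeRel_mem_D0 h

theorem copy_image (hπ : D0 (fun v => v 1 = π (v 0))) (hinc : ∀ i j, i < j → π i < π j)
    (hEπ : ∀ i j, E i j ↔ E (π i) (π j)) {g : N.M} {H : N.M → N.M → Prop} {F : Set N.M}
    (hF : IsCopy N E g H F) : IsCopy N E g H (π '' F) := by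
  obtain ⟨h1, h2, e, he, h3, h4, h5, h6⟩ := hF
  refine ⟨image_mem hπ hinc h1, image_fin hinc h2, fun i => π (e i), ?_, ?_, ?_, ?_, ?_⟩
  · rw [funIn_iff] at he ⊢
    refine d0_of_D1 (R := fun x y => y = π (e x)) ?_ ?_
    · refine S1.congr (R := fun v => ∃ z, z = e (v 0) ∧ v 1 = π z) ?_ fun v => by simp
      exact S1.ex (D0.S1 (D0.and (D0.rel (R := fun k x => x = e k) he (Tm.var 1) (Tm.var 0))
        (D0.rel (R := fun k x => x = π k) hπ (Tm.var 0) (Tm.var 2))))
    · refine S1.congr (R := fun v => ∃ z, z = e (v 0) ∧ ¬ v 1 = π z) ?_ fun v => by simp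
      exact S1.ex (D0.S1 (D0.and (D0.rel (R := fun k x => x = e k) he (Tm.var 1) (Tm.var 0))
        (D0.rel (R := fun k x => x = π k) hπ (Tm.var 0) (Tm.var 2)).not))
  · intro i hi; exact ⟨e i, h3 i hi, rfl⟩
  · rintro _ ⟨x, hx, rfl⟩
    obtain ⟨i, hi, rfl⟩ := h4 x hx
    exact ⟨i, hi, rfl⟩
  · intro i j hi hj hij
    exact h5 i j hi hj (injective_of_increasing hinc hij)
  · intro i j hi hj
    rw [h6 i j hi hj]
    exact hEπ _ _

theorem copy_preimage (hπ : D0 (fun v => v 1 = π (v 0))) (hinc : ∀ i j, i < j → π i < π j)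
    (hEπ : ∀ i j, E i j ↔ E (π i) (π j)) {g : N.M} {H : N.M → N.M → Prop} {F : Set N.M}
    (hF : IsCopy N E g H F) (hsub : F ⊆ Set.range π) : IsCopy N E g H (π ⁻¹' F) := by
  classical
  obtain ⟨h1, h2, e, he, h3, h4, h5, h6⟩ := hF
  have hinj := injective_of_increasing hinc
  have hex : ∀ i, i < g → ∃ x, π x = e i := fun i hi => hsub (h3 i hi)
  let e' : N.M → N.M := fun i => if h : i < g then Classical.choose (hex i h) else 0
  have he' : ∀ i, i < g → π (e' i) = e i := by
    intro i hi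
    have : e' i = Classical.choose (hex i hi) := by simp only [e', dif_pos hi]
    rw [this]
    exact Classical.choose_spec (hex i hi)
  have he'' : ∀ i, ¬ i < g → e' i = 0 := fun i hi => by simp only [e', dif_neg hi]
  refine ⟨preimage_mem hπ h1, preimage_fin hπ hinc h2, e', ?_, ?_, ?_, ?_, ?_⟩
  · rw [funIn_iff] at he ⊢
    have hR : ∀ x y, y = e' x ↔ (x < g ∧ π y = e x) ∨ (¬ x < g ∧ y = 0) := by
      intro x y
      by_cases hx : x < g
      · simp only [hx, true_and, not_true_eq_false, false_and, or_false]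
        constructor
        · rintro rfl; exact he' x hx
        · intro h; exact hinj (h.trans (he' x hx).symm)
      · simp only [hx, false_and, not_false_eq_true, true_and, false_or, he'' x hx]
    have hcomp : D0 (fun v => π (v 1) = e (v 0)) := by
      refine d0_of_D1 (R := fun x y => π y = e x) ?_ ?_
      · refine S1.congr (R := fun v => ∃ z, z = e (v 0) ∧ z = π (v 1)) ?_ fun v => by
          constructor
          · rintro ⟨z, h1, h2⟩; exact h2.symm.trans h1
          · intro h; exact ⟨_, rfl, h.symm⟩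
        exact S1.ex (D0.S1 (D0.and (D0.rel (R := fun k x => x = e k) he (Tm.var 1) (Tm.var 0))
          (D0.rel (R := fun k x => x = π k) hπ (Tm.var 2) (Tm.var 0))))
      · refine S1.congr (R := fun v => ∃ z, z = e (v 0) ∧ ¬ z = π (v 1)) ?_ fun v => by
          constructor
          · rintro ⟨z, h1, h2⟩ h; exact h2 (h1.trans h.symm)
          · intro h; exact ⟨_, rfl, fun h' => h h'.symm⟩
        exact S1.ex (D0.S1 (D0.and (D0.rel (R := fun k x => x = e k) he (Tm.var 1) (Tm.var 0))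
          (D0.rel (R := fun k x => x = π k) hπ (Tm.var 2) (Tm.var 0)).not))
    refine D0.congr (R := fun v => (v 0 < g ∧ π (v 1) = e (v 0)) ∨ (¬ v 0 < g ∧ v 1 = 0)) ?_
      fun v => (hR _ _).symm
    exact D0.or (D0.and (D0.lt (Tm.var 0) (Tm.const g)) hcomp)
      (D0.and (D0.lt (Tm.var 0) (Tm.const g)).not (D0.eq (Tm.var 1) Tm.zero))
  · intro i hi
    show π (e' i) ∈ F
    rw [he' i hi]; exact h3 i hi
  · intro y hy
    obtain ⟨i, hi, hiy⟩ := h4 (π y) hy
    exact ⟨i, hi, hinj ((he' i hi).trans hiy)⟩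
  · intro i j hi hj hij
    refine h5 i j hi hj ?_
    rw [← he' i hi, ← he' j hj, hij]
  · intro i j hi hj
    rw [h6 i j hi hj, ← he' i hi, ← he' j hj]
    exact (hEπ _ _).symm

end transfer

/-- the relation coded by a colouring -/
theorem colouring_codeRel {E : N.M → N.M → Prop} {g : N.M} {H : N.M → N.M → Prop}
    {c : Set N.M → N.M} : {r | ∃ F p, IsCopy N E g H F ∧ IsCode N p F ∧ r = N.pair p (c F)} =
      codeRel (fun p a => ∃ F, IsCopy N E g H F ∧ IsCode N p F ∧ a = c F) := by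
  ext r
  constructor
  · rintro ⟨F, p, h1, h2, h3⟩
    exact ⟨p, c F, ⟨F, h1, h2, rfl⟩, h3⟩
  · rintro ⟨p, a, ⟨F, h1, h2, h3⟩, h4⟩
    refine ⟨F, p, h1, h2, ?_⟩
    rw [h4, h3]
    rfl

/-- the colouring relation on codes -/
def ColRel (E : N.M → N.M → Prop) (g : N.M) (H : N.M → N.M → Prop) (c : Set N.M → N.M)
    (p a : N.M) : Prop := ∃ F, IsCopy N E g H F ∧ IsCode N p F ∧ a = c F

theorem isColouring_iff {E : N.M → N.M → Prop} {g : N.M} {H : N.M → N.M → Prop}
    {c : Set N.M → N.M} :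
    IsColouring N E g H c ↔ D0 (fun v => ColRel E g H c (v 0) (v 1)) := by
  unfold IsColouring
  rw [colouring_codeRel]
  constructor
  · intro h
    exact D0.of_codeRel h
  · intro h
    exact codeRel_mem_D0 h

theorem copy_hasCode {E : N.M → N.M → Prop} {g : N.M} {H : N.M → N.M → Prop} {F : Set N.M}
    (h : IsCopy N E g H F) : ∃ p, IsCode N p F := exists_isCode h.1 h.2.1

/-- one step: from `(k+1)`-bounded to rainbow on a Rado subgraph, up to pairs -/
theorem split_step {E : N.M → N.M → Prop} {k : ℕ} (hk : 2 ≤ k)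
    {g : N.M} {H : N.M → N.M → Prop} (hRRP : RRPFor N E g H k)
    {c : Set N.M → N.M} (hc : IsColouring N E g H c) (hbd : IsBoundedCol N E g H c (k + 1)) :
    ∃ X ∈ N.Sets, IsRadoOn N X E ∧
      ∀ a, {F | IsCopy N E g H F ∧ F ⊆ X ∧ c F = a}.encard ≤ 2 := by
  classical
  have hcD := isColouring_iff.1 hc
  -- codes of the members of a colour class
  let T : N.M → N.M → Prop := fun a p => ColRel E g H c p a
  have hTD : D0 (fun v => T (v 0) (v 1)) :=
    D0.rel (R := fun p a => ColRel E g H c p a) hcD (Tm.var 1) (Tm.var 0)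
  have hA : ∀ j : ℕ, D0 (fun v => AtLeast (T (v 0)) j (v 1)) := by
    intro j
    induction j with
    | zero => exact hTD
    | succ j ih =>
      refine D0.and hTD (D0.bex (Tm.var 1) ?_)
      exact D0.rel (R := fun a p => AtLeast (T a) j p) ih (Tm.var 1) (Tm.var 0)
  -- the code map
  have hcode : ∀ F, IsCopy N E g H F → ∃ p, IsCode N p F := fun F h => copy_hasCode h
  let κ : Set N.M → N.M := fun F => if h : IsCopy N E g H F then Classical.choose (hcode F h) else 0
  have hκ : ∀ F, IsCopy N E g H F → IsCode N (κ F) F := by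
    intro F h
    have : κ F = Classical.choose (hcode F h) := by simp only [κ, dif_pos h]
    rw [this]
    exact Classical.choose_spec (hcode F h)
  have hTκ : ∀ F, IsCopy N E g H F → T (c F) (κ F) := fun F h => ⟨F, h, hκ F h, rfl⟩
  have hTex : ∀ a p, T a p → ∃ F, IsCopy N E g H F ∧ c F = a ∧ κ F = p := by
    rintro a p ⟨F, h1, h2, h3⟩
    exact ⟨F, h1, h3.symm, (hκ F h1).unique h2⟩
  have hκinj : ∀ F F', IsCopy N E g H F → IsCopy N E g H F' → κ F = κ F' → F = F' := by
    intro F F' h h' he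
    have h1 := hκ F h
    rw [he] at h1
    exact h1.set_unique (hκ F' h')
  have hTcard : ∀ a, {p | T a p}.encard ≤ (k + 1 : ℕ) := by
    intro a
    have hsub : {p | T a p} ⊆ κ '' {F | IsCopy N E g H F ∧ c F = a} := by
      intro p hp
      obtain ⟨F, h1, h2, h3⟩ := hTex a p hp
      exact ⟨F, ⟨h1, h2⟩, h3⟩
    exact (Set.encard_le_encard hsub).trans ((Set.encard_image_le _ _).trans (hbd a))
  -- the refined colouring
  let c1 : Set N.M → N.M := fun F =>
    pr (c F) (if AtLeast (T (c F)) k (κ F) then 1 else 0)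
  have hc1 : IsColouring N E g H c1 := by
    rw [isColouring_iff]
    refine D0.congr (R := fun v => ∃ a, a ≤ v 1 ∧ (T a (v 0) ∧
      ((AtLeast (T a) k (v 0) ∧ v 1 = pr a 1) ∨ (¬ AtLeast (T a) k (v 0) ∧ v 1 = pr a 0)))) ?_
      fun v => ?_
    · refine D0.bexLe (Tm.var 1) (D0.and ?_ (D0.or (D0.and ?_ ?_) (D0.and (D0.not ?_) ?_)))
      · exact D0.rel (R := fun a p => T a p) hTD (Tm.var 0) (Tm.var 1)
      · exact D0.rel (R := fun a p => AtLeast (T a) k p) (hA k) (Tm.var 0) (Tm.var 1)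
      · exact D0.eq (Tm.var 2) ((Tm.var 0).pr Tm.one)
      · exact D0.rel (R := fun a p => AtLeast (T a) k p) (hA k) (Tm.var 0) (Tm.var 1)
      · exact D0.eq (Tm.var 2) ((Tm.var 0).pr Tm.zero)
    · constructor
      · rintro ⟨a, _, hTa, h⟩
        obtain ⟨F, h1, h2, h3⟩ := hTex a _ hTa
        refine ⟨F, h1, h3 ▸ hκ F h1, ?_⟩
        rcases h with ⟨h4, h5⟩ | ⟨h4, h5⟩
        · simp only [c1, h2, h3, if_pos h4]; exact h5
        · simp only [c1, h2, h3, if_neg h4]; exact h5
      · rintro ⟨F, h1, h2, h3⟩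
        have hp : v 0 = κ F := h2.unique (hκ F h1)
        refine ⟨c F, ?_, ?_, ?_⟩
        · rw [h3]; exact fst_le_pr _ _
        · rw [hp]; exact hTκ F h1
        · rw [hp, h3]
          by_cases h : AtLeast (T (c F)) k (κ F)
          · left; simp only [c1, if_pos h]; exact ⟨h, trivial⟩
          · right; simp only [c1, if_neg h]; exact ⟨h, trivial⟩
  have hb1 : IsBoundedCol N E g H c1 k := by
    intro b
    by_cases hne : ∃ F, IsCopy N E g H F ∧ c1 F = b
    · obtain ⟨F0, hF0, hF0b⟩ := hne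
      by_cases hhigh : AtLeast (T (c F0)) k (κ F0)
      · -- at most one element
        have : {F | IsCopy N E g H F ∧ c1 F = b} ⊆ {F0} := by
          rintro F ⟨hF, hFb⟩
          rw [← hF0b] at hFb
          obtain ⟨e1, e2⟩ := pr_inj hFb
          have hF' : AtLeast (T (c F)) k (κ F) := by
            by_contra h
            rw [if_neg h, if_pos hhigh] at e2
            exact zero_ne_one e2
          rw [e1] at hF'
          exact hκinj _ _ hF hF0 (rank_high (hTcard (c F0)) hF' hhigh)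
        refine (Set.encard_le_encard this).trans ?_
        rw [Set.encard_singleton]
        exact_mod_cast (by omega : 1 ≤ k)
      · have hmaps : ∀ F ∈ {F | IsCopy N E g H F ∧ c1 F = b},
            κ F ∈ {p | T (c F0) p ∧ ¬ AtLeast (T (c F0)) k p} := by
          rintro F ⟨hF, hFb⟩
          rw [← hF0b] at hFb
          obtain ⟨e1, e2⟩ := pr_inj hFb
          have hF' : ¬ AtLeast (T (c F)) k (κ F) := by
            intro h
            rw [if_pos h, if_neg hhigh] at e2
            exact one_ne_zero e2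
          rw [e1] at hF'
          exact ⟨e1 ▸ hTκ F hF, hF'⟩
        have hinj : Set.InjOn κ {F | IsCopy N E g H F ∧ c1 F = b} :=
          fun F hF F' hF' h => hκinj F F' hF.1 hF'.1 h
        rw [← hinj.encard_image]
        have hsub' : κ '' {F | IsCopy N E g H F ∧ c1 F = b} ⊆
            {p | T (c F0) p ∧ ¬ AtLeast (T (c F0)) k p} := by
          rintro _ ⟨F, hF, rfl⟩
          exact hmaps F hF
        exact (Set.encard_le_encard hsub').trans
          (rank_low (Set.finite_of_encard_le_coe (hTcard (c F0))))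
    · have : {F | IsCopy N E g H F ∧ c1 F = b} = ∅ := by
        ext F
        simp only [Set.mem_setOf_eq, Set.mem_empty_iff_false, iff_false]
        exact fun h => hne ⟨F, h⟩
      rw [this, Set.encard_empty]
      exact bot_le
  obtain ⟨X, hX, _, hXR, hXinj⟩ := hRRP c1 hc1 hb1
  refine ⟨X, hX, hXR, fun a => ?_⟩
  have hinj : Set.InjOn c1 {F | IsCopy N E g H F ∧ F ⊆ X ∧ c F = a} :=
    fun F hF F' hF' h => hXinj F F' hF.1 hF'.1 hF.2.1 hF'.2.1 h
  rw [← hinj.encard_image]
  have hsub : c1 '' {F | IsCopy N E g H F ∧ F ⊆ X ∧ c F = a} ⊆ {pr a 0, pr a 1} := by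
    rintro _ ⟨F, ⟨_, _, hFa⟩, rfl⟩
    by_cases h : AtLeast (T (c F)) k (κ F)
    · right
      show pr (c F) (if AtLeast (T (c F)) k (κ F) then 1 else 0) = pr a 1
      rw [if_pos h, hFa]
    · left
      show pr (c F) (if AtLeast (T (c F)) k (κ F) then 1 else 0) = pr a 0
      rw [if_neg h, hFa]
  refine (Set.encard_le_encard hsub).trans ((Set.encard_insert_le _ _).trans ?_)
  rw [Set.encard_singleton]
  norm_num

/-- the codes of a set and of its image -/
def Tr (π : N.M → N.M) (q p : N.M) : Prop :=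
  IsC p ∧ (∀ j, j < p → MemC j p → ∃ i, i < q ∧ (MemC i q ∧ j = π i)) ∧
    ∀ i, i < q → MemC i q → ∃ j, j < p ∧ (MemC j p ∧ j = π i)

theorem Tr_D0 {π : N.M → N.M} (hπ : D0 (fun v => v 1 = π (v 0))) :
    D0 (fun v => Tr π (v 0) (v 1)) := by
  refine D0.and (IsC_D0 (Tm.var 1)) (D0.and (D0.ball (Tm.var 1) (D0.imp ?_ (D0.bex (Tm.var 1)
    (D0.and ?_ ?_)))) (D0.ball (Tm.var 0) (D0.imp ?_ (D0.bex (Tm.var 2) (D0.and ?_ ?_)))))
  · exact MemC_D0 (Tm.var 0) (Tm.var 2)
  · exact MemC_D0 (Tm.var 0) (Tm.var 2)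
  · exact D0.rel (R := fun k x => x = π k) hπ (Tm.var 0) (Tm.var 1)
  · exact MemC_D0 (Tm.var 0) (Tm.var 1)
  · exact MemC_D0 (Tm.var 0) (Tm.var 3)
  · exact D0.rel (R := fun k x => x = π k) hπ (Tm.var 1) (Tm.var 0)

theorem Tr_iff {π : N.M → N.M} {q p : N.M} {F : Set N.M} (hq : IsCode N q F) :
    Tr π q p ↔ IsCode N p (π '' F) := by
  have hqF := (isCode_iff.1 hq).2
  rw [isCode_iff]
  constructor
  · rintro ⟨h1, h2, h3⟩
    refine ⟨h1, fun j => ?_⟩
    constructor
    · rintro ⟨i, hi, rfl⟩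
      have hi' := (hqF i).1 hi
      obtain ⟨j, _, hj, rfl⟩ := h3 i hi'.lt hi'
      exact hj
    · intro hj
      obtain ⟨i, _, hi, rfl⟩ := h2 j hj.lt hj
      exact ⟨i, (hqF i).2 hi, rfl⟩
  · rintro ⟨h1, h2⟩
    refine ⟨h1, fun j _ hj => ?_, fun i _ hi => ?_⟩
    · obtain ⟨i, hi, rfl⟩ := (h2 j).2 hj
      have hi' := (hqF i).1 hi
      exact ⟨i, hi'.lt, hi', rfl⟩
    · have hj := (h2 (π i)).1 ⟨i, (hqF i).2 hi, rfl⟩
      exact ⟨π i, hj.lt, hj, rfl⟩

/-- `RRP_k` implies `RRP_{k+1}`, for each finite graph -/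
theorem RRPFor_succ {E : N.M → N.M → Prop} (hE : RelIn N E) (hG : IsGraphOn N Set.univ E)
    {g : N.M} {H : N.M → N.M → Prop} {k : ℕ} (hk : 2 ≤ k) (hRRP : RRPFor N E g H k) :
    RRPFor N E g H (k + 1) := by
  intro c hc hbd
  have hED : D0 (fun v => E (v 0) (v 1)) := D0.of_codeRel hE
  obtain ⟨X1, hX1, hX1R, hX1b⟩ := split_step hk hRRP hc hbd
  obtain ⟨π, hπ, hπX, hinc, hEπ⟩ := exists_embedding hED hG.symm hG.irrefl hX1 hX1R
  have hinj := injective_of_increasing hinc
  have hcD := isColouring_iff.1 hc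
  -- the transferred colouring
  have hc2 : IsColouring N E g H (fun F => c (π '' F)) := by
    rw [isColouring_iff]
    have hback : ∀ q, IsC q → ∀ p a, Tr π q p → ColRel E g H c p a →
        ColRel E g H (fun F => c (π '' F)) q a := by
      rintro q hq p a hTr ⟨F', h1, h2, h3⟩
      obtain ⟨_, _, hqF⟩ := isC_set hq
      have h4 := (Tr_iff hqF).1 hTr
      have h5 : F' = π '' {i | MemC i q} := h2.set_unique h4
      have h6 : IsCopy N E g H (π ⁻¹' F') := copy_preimage hπ hinc hEπ h1 (by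
        rw [h5]; exact Set.image_subset_range _ _)
      have h7 : π ⁻¹' F' = {i | MemC i q} := by
        rw [h5, Set.preimage_image_eq _ hinj]
      rw [h7] at h6
      exact ⟨_, h6, hqF, by rw [h3, h5]⟩
    have hforw : ∀ q a, ColRel E g H (fun F => c (π '' F)) q a →
        IsC q ∧ ∀ p, Tr π q p → ColRel E g H c p a := by
      rintro q a ⟨F, h1, h2, h3⟩
      refine ⟨(isCode_iff.1 h2).1, fun p hp => ?_⟩
      exact ⟨_, copy_image hπ hinc hEπ h1, (Tr_iff h2).1 hp, h3⟩
    have hexp : ∀ q, IsC q → ∃ p, Tr π q p := by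
      intro q hq
      obtain ⟨h1, h2, h3⟩ := isC_set hq
      obtain ⟨p, hp⟩ := exists_isCode (image_mem hπ hinc h1) (image_fin hinc h2)
      exact ⟨p, (Tr_iff h3).2 hp⟩
    refine d0_of_D1 (R := fun q a => ColRel E g H (fun F => c (π '' F)) q a) ?_ ?_
    · refine S1.congr (R := fun v => ∃ p, IsC (v 0) ∧ (Tr π (v 0) p ∧ ColRel E g H c p (v 1)))
        ?_ fun v => ?_
      · refine S1.ex (D0.S1 (D0.and (IsC_D0 (Tm.var 1)) (D0.and ?_ ?_)))
        · exact D0.rel (R := fun q p => Tr π q p) (Tr_D0 hπ) (Tm.var 1) (Tm.var 0)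
        · exact D0.rel (R := fun p a => ColRel E g H c p a) hcD (Tm.var 0) (Tm.var 2)
      · constructor
        · rintro ⟨p, h1, h2, h3⟩
          exact hback _ h1 _ _ h2 h3
        · intro h
          obtain ⟨h1, h2⟩ := hforw _ _ h
          obtain ⟨p, hp⟩ := hexp _ h1
          exact ⟨p, h1, hp, h2 p hp⟩
    · refine S1.congr (R := fun v => ∃ p, (¬ IsC (v 0)) ∨ (Tr π (v 0) p ∧
        ¬ ColRel E g H c p (v 1))) ?_ fun v => ?_
      · refine S1.ex (D0.S1 (D0.or (IsC_D0 (Tm.var 1)).not (D0.and ?_ (D0.not ?_))))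
        · exact D0.rel (R := fun q p => Tr π q p) (Tr_D0 hπ) (Tm.var 1) (Tm.var 0)
        · exact D0.rel (R := fun p a => ColRel E g H c p a) hcD (Tm.var 0) (Tm.var 2)
      · constructor
        · rintro ⟨p, h1 | ⟨h2, h3⟩⟩ h
          · exact h1 (hforw _ _ h).1
          · exact h3 ((hforw _ _ h).2 p h2)
        · intro h
          by_cases h1 : IsC (v 0)
          · obtain ⟨p, hp⟩ := hexp _ h1
            exact ⟨p, Or.inr ⟨hp, fun h3 => h (hback _ h1 _ _ hp h3)⟩⟩
          · exact ⟨0, Or.inl h1⟩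
  have hb2 : IsBoundedCol N E g H (fun F => c (π '' F)) k := by
    intro a
    have himg : Set.InjOn (fun F : Set N.M => π '' F)
        {F | IsCopy N E g H F ∧ c (π '' F) = a} :=
      fun F _ F' _ h => hinj.image_injective h
    rw [← himg.encard_image]
    have hsub : (fun F : Set N.M => π '' F) '' {F | IsCopy N E g H F ∧ c (π '' F) = a} ⊆
        {F | IsCopy N E g H F ∧ F ⊆ X1 ∧ c F = a} := by
      rintro _ ⟨F, ⟨h1, h2⟩, rfl⟩
      exact ⟨copy_image hπ hinc hEπ h1, by rintro _ ⟨x, _, rfl⟩; exact hπX x, h2⟩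
    exact ((Set.encard_le_encard hsub).trans (hX1b a)).trans (by exact_mod_cast hk)
  obtain ⟨X2, hX2, hX2inf, hX2R, hX2inj⟩ := hRRP _ hc2 hb2
  refine ⟨π '' X2, image_mem hπ hinc hX2, ?_, ?_, ?_⟩
  · rw [not_isFin_iff] at hX2inf ⊢
    intro b
    obtain ⟨x, hx, hbx⟩ := hX2inf b
    exact ⟨π x, ⟨x, hx, rfl⟩, hbx.trans (le_of_increasing hπ hinc x)⟩
  · intro U hU V hV hUX hVX hUf hVf hdisj
    have hpre : ∀ W : Set N.M, W ⊆ π '' X2 → π ⁻¹' W ⊆ X2 := by
      intro W hW x hx
      obtain ⟨x', hx', he⟩ := hW hx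
      rw [← hinj he]; exact hx'
    obtain ⟨x, hxX, hxU, hxV, hEU, hEV⟩ := hX2R _ (preimage_mem hπ hU) _ (preimage_mem hπ hV)
      (hpre U hUX) (hpre V hVX) (preimage_fin hπ hinc hUf) (preimage_fin hπ hinc hVf)
      (hdisj.preimage π)
    refine ⟨π x, ⟨x, hxX, rfl⟩, hxU, hxV, fun u hu => ?_, fun v hv => ?_⟩
    · obtain ⟨u', _, rfl⟩ := hUX hu
      exact (hEπ _ _).1 (hEU u' hu)
    · obtain ⟨v', _, rfl⟩ := hVX hv
      exact fun h => hEV v' hv ((hEπ _ _).2 h)
  · intro F F' hF hF' hFX hF'X hcc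
    have hr : ∀ W : Set N.M, W ⊆ π '' X2 → W ⊆ Set.range π := fun W hW =>
      hW.trans (Set.image_subset_range _ _)
    have hpre : ∀ W : Set N.M, W ⊆ π '' X2 → π ⁻¹' W ⊆ X2 := by
      intro W hW x hx
      obtain ⟨x', hx', he⟩ := hW hx
      rw [← hinj he]; exact hx'
    have himg : ∀ W : Set N.M, W ⊆ π '' X2 → π '' (π ⁻¹' W) = W := fun W hW => by
      rw [Set.image_preimage_eq_inter_range, Set.inter_eq_left]
      exact hr W hW
    have := hX2inj _ _ (copy_preimage hπ hinc hEπ hF (hr F hFX))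
      (copy_preimage hπ hinc hEπ hF' (hr F' hF'X)) (hpre F hFX) (hpre F' hF'X) (by
        beta_reduce
        rw [himg F hFX, himg F' hF'X]; exact hcc)
    rw [← himg F hFX, ← himg F' hF'X, this]

/-- monotonicity -/
theorem RRPFor_mono {E : N.M → N.M → Prop} {g : N.M} {H : N.M → N.M → Prop} {k : ℕ}
    (h : RRPFor N E g H (k + 1)) : RRPFor N E g H k := by
  intro c hc hbd
  refine h c hc fun a => (hbd a).trans ?_
  exact_mod_cast (by omega : k ≤ k + 1)

/-- every model of `RCA₀` has a Rado graph on all numbers -/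
theorem exists_rado (N : L2Structure.{u}) [IsModelRCA0 N] : ∃ E : N.M → N.M → Prop,
    RelIn N E ∧ IsGraphOn N Set.univ E ∧ IsRadoOn N Set.univ E := by
  let E : N.M → N.M → Prop := fun x y => MemC x y ∨ MemC y x
  have hED : D0 (fun v => E (v 0) (v 1)) :=
    D0.or (MemC_D0 (Tm.var 0) (Tm.var 1)) (MemC_D0 (Tm.var 1) (Tm.var 0))
  refine ⟨E, codeRel_mem_D0 hED, ⟨fun x y _ => ⟨trivial, trivial⟩, fun x y h => h.symm, ?_⟩, ?_⟩
  · rintro x (h | h) <;> exact lt_irrefl _ h.lt
  · intro U hU V hV _ _ hUf hVf hdisj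
    obtain ⟨b1, hb1⟩ := hUf
    obtain ⟨b2, hb2⟩ := hVf
    have hb1' : ∀ u ∈ U, u < b1 + b2 := fun u hu =>
      lt_of_lt_of_le (hb1 u hu) (le_add_of_nonneg_right (zero_le' _))
    have hb2' : ∀ u ∈ V, u < b1 + b2 := fun u hu =>
      lt_of_lt_of_le (hb2 u hu) (le_add_of_nonneg_left (zero_le' _))
    generalize b1 + b2 = b at hb1' hb2'
    obtain ⟨m, hm⟩ := exists_base b
    obtain ⟨B, hB, hB2⟩ := exists_top b m
    obtain ⟨n, _, _, hn, _⟩ :=
      exists_code (P := fun i => i ∈ U) (D0.mem (Tm.var 0) hU).S1 hm hB hB2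
    have hbx : b ≤ pr b (pr m n) := fst_le_pr _ _
    refine ⟨pr b (pr m n), trivial, ?_, ?_, ?_, ?_⟩
    · exact fun h => absurd (hb1' _ h) (not_lt.2 hbx)
    · exact fun h => absurd (hb2' _ h) (not_lt.2 hbx)
    · intro u hu
      right
      rw [MemC_pr]
      exact ⟨hb1' u hu, (hn u (hb1' u hu)).2 hu⟩
    · rintro v hv (h | h)
      · exact absurd (h.lt.trans (hb2' v hv)) (not_lt.2 hbx)
      · rw [MemC_pr] at h
        exact Set.disjoint_left.1 hdisj ((hn v h.1).1 h.2) hv

end Pool.Agent.Helper617.RM
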